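import Pool.Agent.H175R2.Cut
import Pool.Agent.H175R2.Cw

/-! Small additions to the clique-width library of `Pool.Agent.H175R2`. -/

set_option autoImplicit false

namespace Pool.Agent.R36

open Finset Classical Pool.Agent.H175R2

lemma dt_all {V : Type} [Fintype V] (G : SimpleGraph V) {A : Finset V} (hA : A.Nonempty) :
    DT G (2 ^ Fintype.card V) univ A := by
  induction hA using Finset.Nonempty.cons_induction with
  | singleton a => exact DT.leaf a
  | cons a s h hs ih =>
    rw [Finset.cons_eq_insert, Finset.insert_eq]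
    refine DT.node (Finset.disjoint_singleton_left.2 h) (DT.leaf a) ih ?_
    have := nt_le_pow (G := G) (R := univ) (A := {a} ∪ s) (O := univ) (fun x _ => Finset.subset_univ _)
    rwa [Finset.card_univ] at this

/-- A nonempty finite graph has some construction. -/
lemma exists_cwLE {V : Type} [Finite V] [Nonempty V] (G : SimpleGraph V) : ∃ k, CwLE G k := by
  have : Fintype V := Fintype.ofFinite V
  exact ⟨_, cwLE_of_dt (dt_all G Finset.univ_nonempty)⟩

/-- The minimum defining `cliqueWidth` is attained. -/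
lemma cwLE_cliqueWidth {V : Type} [Finite V] [Nonempty V] (G : SimpleGraph V) :
    CwLE G (cliqueWidth G) :=
  Nat.sInf_mem (s := {k | CwLE G k}) (exists_cwLE G)

/-- Few types across a cut: no large matching-like structure. -/
lemma types_chain {V : Type} {G : SimpleGraph V} {A : Set V} {k : ℕ} (h : Types G A k) {ι : Type}
    (S : Finset ι) (X Y : ι → V) (hX : ∀ s ∈ S, X s ∈ A) (hY : ∀ s ∈ S, Y s ∉ A)
    (hadj : ∀ s ∈ S, G.Adj (X s) (Y s))
    (hn : ∀ s ∈ S, ∀ t ∈ S, s ≠ t → ¬ (G.Adj (X s) (Y t) ∧ G.Adj (X t) (Y s))) : S.card ≤ k := by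
  obtain ⟨l, hl⟩ := h
  have hk : (univ : Finset (Fin k)).card = k := by simp
  rw [← hk]
  refine card_le_card_of_injOn (fun s => l (X s)) (fun _ _ => mem_univ _) ?_
  intro s hs t ht hst
  by_contra hne
  have hs' : s ∈ S := hs
  have ht' : t ∈ S := ht
  exact hn s hs' t ht' hne ⟨(hl _ (hX s hs') _ (hX t ht') hst _ (hY t ht')).2 (hadj t ht'),
    (hl _ (hX s hs') _ (hX t ht') hst _ (hY s hs')).1 (hadj s hs')⟩

end Pool.Agent.R36
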