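import Pool.Agent.H175R2.Conn
import Pool.Agent.H175R2.Defs

/-!
# Induced topological minors: definitions and basic lemmas
-/

set_option autoImplicit false

namespace Pool.Agent.R36.Itm

open Finset Classical Pool.Agent.H175R2

/-- `SubdividesEdge G G'`: the graph `G'` arises (up to isomorphism) from `G` by subdividing one
edge `uv`: the map `f` embeds the vertices of `G` into those of `G'`, there is exactly one further
vertex `w`, which is adjacent exactly to (the images of) `u` and `v`, and all adjacencies between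
old vertices are as in `G`, except that `u` and `v` are no longer adjacent. -/
def SubdividesEdge {V V' : Type} (G : SimpleGraph V) (G' : SimpleGraph V') : Prop :=
  ∃ (u v : V) (f : V ↪ V') (w : V'), G.Adj u v ∧ w ∉ Set.range f ∧
    (∀ x, x = w ∨ x ∈ Set.range f) ∧
    (∀ x y, G'.Adj (f x) (f y) ↔ G.Adj x y ∧ s(x, y) ≠ s(u, v)) ∧
    (∀ x, G'.Adj w (f x) ↔ x = u ∨ x = v)

/-- `Subdivision H S`: the graph `S` is (isomorphic to) a subdivision of `H`, i.e. it is obtained
from `H` by repeatedly subdividing edges (zero or more times). -/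
inductive Subdivision {W : Type} (H : SimpleGraph W) : ∀ {V : Type}, SimpleGraph V → Prop
  | iso {V : Type} {S : SimpleGraph V} (e : S ≃g H) : Subdivision H S
  | step {V V' : Type} {S : SimpleGraph V} {S' : SimpleGraph V'} (hS : Subdivision H S)
      (h : SubdividesEdge S S') : Subdivision H S'

/-- `H` is an induced topological minor of `G`: some induced subgraph of `G` is isomorphic to a
subdivision of `H`. -/
def ITM {W V : Type} (H : SimpleGraph W) (G : SimpleGraph V) : Prop :=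
  ∃ (X : Type) (S : SimpleGraph X), Subdivision H S ∧ Nonempty (S ↪g G)

/-- the class of graphs without `H` as an induced topological minor has bounded clique-width -/
def Bdd {W : Type} (H : SimpleGraph W) : Prop :=
  ∃ c : ℕ, ∀ (V : Type) [Finite V] (G : SimpleGraph V), ¬ ITM H G → cliqueWidth G ≤ c

/-- version restricted to a set of vertices -/
def ITMon {W V : Type} (H : SimpleGraph W) (G : SimpleGraph V) (R : Finset V) : Prop :=
  ∃ (X : Type) (S : SimpleGraph X) (φ : S ↪g G), Subdivision H S ∧ ∀ x, φ x ∈ R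

section
variable {W V : Type} {H : SimpleGraph W} {G : SimpleGraph V}

lemma ITMon.mono {R R' : Finset V} (h : ITMon H G R) (hR : R ⊆ R') : ITMon H G R' := by
  obtain ⟨X, S, φ, hS, hφ⟩ := h
  exact ⟨X, S, φ, hS, fun x => hR (hφ x)⟩

lemma ITMon.itm {R : Finset V} (h : ITMon H G R) : ITM H G := by
  obtain ⟨X, S, φ, hS, -⟩ := h
  exact ⟨X, S, hS, ⟨φ⟩⟩

lemma ITM.of_emb {V' : Type} {G' : SimpleGraph V'} (φ : G' ↪g G) (h : ITM H G') : ITM H G := by
  obtain ⟨X, S, hS, ⟨ψ⟩⟩ := h
  exact ⟨X, S, hS, ⟨ψ.trans φ⟩⟩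

/-- subdividing the edge `ab` of `S`, on the type `Option X` -/
def sdv {X : Type} (S : SimpleGraph X) (a b : X) : SimpleGraph (Option X) where
  Adj
    | some x, some y => S.Adj x y ∧ s(x, y) ≠ s(a, b)
    | none, some x => x = a ∨ x = b
    | some x, none => x = a ∨ x = b
    | none, none => False
  symm := by
    constructor
    rintro (_ | x) (_ | y) h
    · exact h
    · exact h
    · exact h
    · exact ⟨h.1.symm, by rw [Sym2.eq_swap]; exact h.2⟩
  loopless := by
    constructor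
    rintro (_ | x) h
    · exact h
    · exact h.1.ne rfl

lemma sdv_subdivides {X : Type} (S : SimpleGraph X) {a b : X} (h : S.Adj a b) :
    SubdividesEdge S (sdv S a b) := by
  refine ⟨a, b, ⟨some, Option.some_injective X⟩, none, h, ?_, ?_, ?_, ?_⟩
  · rintro ⟨x, hx⟩
    exact absurd hx (by simp)
  · rintro (_ | x)
    · exact Or.inl rfl
    · exact Or.inr ⟨x, rfl⟩
  · intro x y
    exact Iff.rfl
  · intro x
    exact Iff.rfl

/-- adding the edge `st` -/
def addE (G : SimpleGraph V) (s t : V) : SimpleGraph V where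
  Adj x y := G.Adj x y ∨ (x ≠ y ∧ ((x = s ∧ y = t) ∨ (x = t ∧ y = s)))
  symm := by
    constructor
    rintro x y (h | ⟨h, h'⟩)
    · exact Or.inl h.symm
    · exact Or.inr ⟨h.symm, by tauto⟩
  loopless := by
    constructor
    rintro x (h | ⟨h, -⟩)
    · exact h.ne rfl
    · exact h rfl

lemma addE_adj {s t x y : V} : (addE G s t).Adj x y ↔
    G.Adj x y ∨ (x ≠ y ∧ ((x = s ∧ y = t) ∨ (x = t ∧ y = s))) := Iff.rfl

lemma le_addE {s t x y : V} (h : G.Adj x y) : (addE G s t).Adj x y := Or.inl h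

/-- suppressing a vertex of degree two with nonadjacent neighbours -/
theorem ITMon.suppress {R : Finset V} {u s t : V} (hu : u ∈ R) (hs : s ∈ R) (ht : t ∈ R)
    (hst : s ≠ t) (hn : ¬ G.Adj s t) (hd : ∀ x ∈ R, G.Adj u x ↔ x = s ∨ x = t)
    (h : ITMon H (addE G s t) (R.erase u)) : ITMon H G R := by
  obtain ⟨X, S, φ, hS, hφ⟩ := h
  have hR : ∀ x, φ x ∈ R := fun x => mem_of_mem_erase (hφ x)
  have hne : ∀ x, φ x ≠ u := fun x => ne_of_mem_erase (hφ x)
  have hadj : ∀ x y, S.Adj x y ↔ G.Adj (φ x) (φ y) ∨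
      (φ x ≠ φ y ∧ ((φ x = s ∧ φ y = t) ∨ (φ x = t ∧ φ y = s))) := by
    intro x y
    rw [← φ.map_adj_iff]
    exact addE_adj
  by_cases hb : (∃ a, φ a = s) ∧ (∃ b, φ b = t)
  · obtain ⟨⟨a, ha⟩, b, hb⟩ := hb
    have hab : S.Adj a b := by
      rw [hadj]
      right
      rw [ha, hb]
      exact ⟨hst, Or.inl ⟨rfl, rfl⟩⟩
    have ea : ∀ x, φ x = s ↔ x = a := fun x => ⟨fun h => φ.injective (h.trans ha.symm),
      fun h => by rw [h, ha]⟩
    have eb : ∀ x, φ x = t ↔ x = b := fun x => ⟨fun h => φ.injective (h.trans hb.symm),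
      fun h => by rw [h, hb]⟩
    have hpair : ∀ x y, s(x, y) = s(a, b) ↔ ((φ x = s ∧ φ y = t) ∨ (φ x = t ∧ φ y = s)) := by
      intro x y
      rw [Sym2.eq_iff, ea, eb, eb, ea]
    let F : Option X → V := fun z => z.elim u φ
    have hF : Function.Injective F := by
      rintro (_ | x) (_ | y) hxy
      · rfl
      · exact absurd (hxy.symm) (hne y)
      · exact absurd hxy (hne x)
      · exact congrArg some (φ.injective hxy)
    refine ⟨Option X, sdv S a b, ⟨⟨F, hF⟩, ?_⟩, hS.step (sdv_subdivides S hab), ?_⟩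
    · have hsym : ∀ x, G.Adj u (φ x) ↔ x = a ∨ x = b := by
        intro x
        rw [hd _ (hR x), ea, eb]
      rintro (_ | x) (_ | y)
      · change G.Adj u u ↔ False
        simp
      · change G.Adj u (φ y) ↔ (y = a ∨ y = b)
        exact hsym y
      · change G.Adj (φ x) u ↔ (x = a ∨ x = b)
        rw [G.adj_comm]
        exact hsym x
      · change G.Adj (φ x) (φ y) ↔ (S.Adj x y ∧ s(x, y) ≠ s(a, b))
        rw [hadj]
        have hp : s(x, y) ≠ s(a, b) ↔ ¬ ((φ x = s ∧ φ y = t) ∨ (φ x = t ∧ φ y = s)) :=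
          not_congr (hpair x y)
        rw [hp]
        constructor
        · intro h
          refine ⟨Or.inl h, ?_⟩
          rintro (⟨h1, h2⟩ | ⟨h1, h2⟩)
          · rw [h1, h2] at h
            exact hn h
          · rw [h1, h2] at h
            exact hn h.symm
        · rintro ⟨h | ⟨-, h⟩, h'⟩
          · exact h
          · exact absurd h h'
    · rintro (_ | x)
      · exact hu
      · exact hR x
  · refine ⟨X, S, ⟨φ.toEmbedding, ?_⟩, hS, hR⟩
    intro x y
    change G.Adj (φ x) (φ y) ↔ S.Adj x y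
    rw [hadj]
    constructor
    · exact Or.inl
    · rintro (h | ⟨-, ⟨h1, h2⟩ | ⟨h1, h2⟩⟩)
      · exact h
      · exact absurd ⟨⟨x, h1⟩, y, h2⟩ hb
      · exact absurd ⟨⟨y, h2⟩, x, h1⟩ hb

/-- restriction of a subdivision to an induced subgraph -/
theorem subdivision_restrict {W' : Type} {C : SimpleGraph W'} (ι : C ↪g H) {V : Type}
    {S : SimpleGraph V} (hS : Subdivision H S) :
    ∃ (X : Type) (T : SimpleGraph X), Subdivision C T ∧ Nonempty (T ↪g S) := by
  induction hS with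
  | iso e => exact ⟨W', C, Subdivision.iso (SimpleGraph.Iso.refl), ⟨ι.trans e.symm.toEmbedding⟩⟩
  | @step V V' S S' hS h ih =>
    obtain ⟨X, T, hT, ⟨φ⟩⟩ := ih
    obtain ⟨u, v, f, w, huv, hw, hcov, hf, hwf⟩ := h
    by_cases hb : (∃ a, φ a = u) ∧ (∃ b, φ b = v)
    · obtain ⟨⟨a, ha⟩, b, hb⟩ := hb
      have hab : T.Adj a b := by
        rw [← φ.map_adj_iff, ha, hb]
        exact huv
      have ea : ∀ x, φ x = u ↔ x = a := fun x => ⟨fun h => φ.injective (h.trans ha.symm),
        fun h => by rw [h, ha]⟩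
      have eb : ∀ x, φ x = v ↔ x = b := fun x => ⟨fun h => φ.injective (h.trans hb.symm),
        fun h => by rw [h, hb]⟩
      have hpair : ∀ x y, s(φ x, φ y) = s(u, v) ↔ s(x, y) = s(a, b) := by
        intro x y
        rw [Sym2.eq_iff, Sym2.eq_iff, ea, eb, eb, ea]
      let F : Option X → V' := fun z => z.elim w (fun x => f (φ x))
      have hF : Function.Injective F := by
        rintro (_ | x) (_ | y) hxy
        · rfl
        · exact absurd ⟨φ y, hxy.symm⟩ hw
        · exact absurd ⟨φ x, hxy⟩ hw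
        · exact congrArg some (φ.injective (f.injective hxy))
      refine ⟨Option X, sdv T a b, hT.step (sdv_subdivides T hab), ⟨⟨⟨F, hF⟩, ?_⟩⟩⟩
      have hsym : ∀ x, S'.Adj w (f (φ x)) ↔ x = a ∨ x = b := by
        intro x
        rw [hwf, ea, eb]
      rintro (_ | x) (_ | y)
      · change S'.Adj w w ↔ False
        simp
      · change S'.Adj w (f (φ y)) ↔ (y = a ∨ y = b)
        exact hsym y
      · change S'.Adj (f (φ x)) w ↔ (x = a ∨ x = b)
        rw [S'.adj_comm]
        exact hsym x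
      · change S'.Adj (f (φ x)) (f (φ y)) ↔ (T.Adj x y ∧ s(x, y) ≠ s(a, b))
        rw [hf, φ.map_adj_iff, Ne, hpair]
    · refine ⟨X, T, hT, ⟨⟨φ.toEmbedding.trans f, ?_⟩⟩⟩
      intro x y
      change S'.Adj (f (φ x)) (f (φ y)) ↔ T.Adj x y
      rw [hf, φ.map_adj_iff, and_iff_left]
      intro h
      rw [Sym2.eq_iff] at h
      rcases h with ⟨h1, h2⟩ | ⟨h1, h2⟩
      · exact hb ⟨⟨x, h1⟩, y, h2⟩
      · exact hb ⟨⟨y, h2⟩, x, h1⟩

/-- an induced topological minor of `G` has its induced subgraphs as induced topological minors -/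
theorem ITM.restrict {W' : Type} {C : SimpleGraph W'} (ι : C ↪g H) (h : ITM H G) : ITM C G := by
  obtain ⟨X, S, hS, ⟨φ⟩⟩ := h
  obtain ⟨Y, T, hT, ⟨ψ⟩⟩ := subdivision_restrict ι hS
  exact ⟨Y, T, hT, ⟨ψ.trans φ⟩⟩

/-! ### connectivity -/

lemma Cn.mono_adj {G' : SimpleGraph V} {A : Finset V} (h : Cn G A)
    (hle : ∀ x ∈ A, ∀ y ∈ A, G.Adj x y → G'.Adj x y) : Cn G' A := by
  refine ⟨h.1, fun T hT hn hn' => ?_⟩
  obtain ⟨x, hx, y, hy, hxy⟩ := h.2 T hT hn hn'
  exact ⟨x, hx, y, hy, hle x (hT hx) y (mem_sdiff.1 hy).1 hxy⟩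

/-- removing a vertex of a connected set all of whose neighbours are joined -/
lemma cn_erase {G' : SimpleGraph V} {K : Finset V} {u : V} (h : Cn G K) (hu : u ∈ K)
    (hne : (K.erase u).Nonempty)
    (hle : ∀ x ∈ K.erase u, ∀ y ∈ K.erase u, G.Adj x y → G'.Adj x y)
    (hnb : ∀ x ∈ K.erase u, ∀ y ∈ K.erase u, G.Adj u x → G.Adj u y → x = y ∨ G'.Adj x y) :
    Cn G' (K.erase u) := by
  refine ⟨hne, fun T hT hn hn' => ?_⟩
  by_contra hcon
  have hno : ∀ x ∈ T, ∀ y ∈ K.erase u \ T, ¬ G'.Adj x y := by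
    intro x hx y hy hxy
    exact hcon ⟨x, hx, y, hy, hxy⟩
  by_cases hc : ∃ x ∈ T, G.Adj u x
  · obtain ⟨x, hx, hux⟩ := hc
    obtain ⟨a, ha, b, hb, hab⟩ := h.2 (insert u T) (by
        intro z hz
        rcases mem_insert.1 hz with rfl | hz
        · exact hu
        · exact mem_of_mem_erase (hT hz)) ⟨u, mem_insert_self _ _⟩ (by
        obtain ⟨z, hz⟩ := hn'
        obtain ⟨h1, h2⟩ := mem_sdiff.1 hz
        obtain ⟨h3, h4⟩ := mem_erase.1 h1
        exact ⟨z, mem_sdiff.2 ⟨h4, by simp [h3, h2]⟩⟩)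
    obtain ⟨hb1, hb2⟩ := mem_sdiff.1 hb
    rw [mem_insert, not_or] at hb2
    have hb' : b ∈ K.erase u \ T := mem_sdiff.2 ⟨mem_erase.2 ⟨hb2.1, hb1⟩, hb2.2⟩
    rcases mem_insert.1 ha with rfl | ha
    · rcases hnb x (hT hx) b (mem_sdiff.1 hb').1 hux hab with h1 | h1
      · subst h1
        exact hb2.2 hx
      · exact hno x hx b hb' h1
    · exact hno a ha b hb' (hle a (hT ha) b (mem_sdiff.1 hb').1 hab)
  · obtain ⟨a, ha, b, hb, hab⟩ := h.2 T (hT.trans (erase_subset _ _)) hn
      ⟨u, mem_sdiff.2 ⟨hu, fun h' => (mem_erase.1 (hT h')).1 rfl⟩⟩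
    obtain ⟨hb1, hb2⟩ := mem_sdiff.1 hb
    by_cases hbu : b = u
    · subst hbu
      exact hc ⟨a, ha, hab.symm⟩
    · have hb' : b ∈ K.erase u \ T := mem_sdiff.2 ⟨mem_erase.2 ⟨hbu, hb1⟩, hb2⟩
      exact hno a ha b hb' (hle a (hT ha) b (mem_sdiff.1 hb').1 hab)

/-- in a connected set with another element every vertex has a neighbour -/
lemma cn_nb {K : Finset V} (h : Cn G K) {u w : V} (hu : u ∈ K) (hw : w ∈ K) (huw : u ≠ w) :
    ∃ x ∈ K, x ≠ u ∧ G.Adj u x := by
  obtain ⟨a, ha, b, hb, hab⟩ := h.2 {u} (by simpa using hu) ⟨u, by simp⟩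
    ⟨w, mem_sdiff.2 ⟨hw, by simpa using huw.symm⟩⟩
  rw [mem_singleton] at ha
  subst ha
  obtain ⟨h1, h2⟩ := mem_sdiff.1 hb
  exact ⟨b, h1, by simpa using h2, hab⟩

/-- adding a vertex with a neighbour to a connected set -/
lemma cn_insert {K : Finset V} {u x : V} (h : Cn G K) (hx : x ∈ K) (hux : G.Adj u x) :
    Cn G (insert u K) := by
  rw [insert_eq]
  exact (Cn.singleton u).union h (Or.inl ⟨u, by simp, x, hx, hux⟩)

end

end Pool.Agent.R36.Itm
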