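import Pool.Agent.R36.Itm

/-!
# Graphs without an induced subdivision of the diamond
-/

set_option autoImplicit false

namespace Pool.Agent.R36.Itm

open Finset Classical Pool.Agent.H175R2

/-- The diamond: the complete graph on four vertices `0, 1, 2, 3` minus the edge `23`. -/
def diamond : SimpleGraph (Fin 4) := SimpleGraph.fromRel (fun a b => a.val ≤ 1 ∧ a.val < b.val)

section
variable {V : Type} {G : SimpleGraph V}

lemma diamond_of {R : Finset V} {p q x y : V} (hp : p ∈ R) (hq : q ∈ R) (hx : x ∈ R) (hy : y ∈ R)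
    (hpq : G.Adj p q) (hpx : G.Adj p x) (hpy : G.Adj p y) (hqx : G.Adj q x) (hqy : G.Adj q y)
    (hxy : x ≠ y) (hn : ¬ G.Adj x y) : ITMon diamond G R := by
  have n1 := hpq.ne
  have n2 := hpx.ne
  have n3 := hpy.ne
  have n4 := hqx.ne
  have n5 := hqy.ne
  have inj : Function.Injective ![p, q, x, y] := by
    intro i j
    fin_cases i <;> fin_cases j <;>
      simp [n1, n2, n3, n4, n5, hxy, n1.symm, n2.symm, n3.symm, n4.symm, n5.symm, hxy.symm]
  refine ⟨Fin 4, diamond, ⟨⟨![p, q, x, y], inj⟩, ?_⟩, Subdivision.iso SimpleGraph.Iso.refl, ?_⟩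
  · intro i j
    have a1 := hpq.symm
    have a2 := hpx.symm
    have a3 := hpy.symm
    have a4 := hqx.symm
    have a5 := hqy.symm
    have a6 : ¬ G.Adj y x := fun h => hn h.symm
    fin_cases i <;> fin_cases j <;>
      simp [diamond, SimpleGraph.fromRel_adj, hpq, hpx, hpy, hqx, hqy, hn, a1, a2, a3, a4, a5, a6]
  · intro i
    change ![p, q, x, y] i ∈ R
    fin_cases i <;> simp [hp, hq, hx, hy]

/-- the data of a vertex `v` with three neighbours, two of which are not adjacent -/
def Hyp (G : SimpleGraph V) (R : Finset V) (v a b c : V) : Prop :=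
  a ∈ R ∧ b ∈ R ∧ c ∈ R ∧ a ≠ b ∧ a ≠ c ∧ b ≠ c ∧ G.Adj v a ∧ G.Adj v b ∧ G.Adj v c ∧ ¬ G.Adj a b

/-- the final step: `x`, `y` are non-cut vertices of `K = R.erase v`, the neighbours of `v` are
`x, y, z` -/
lemma diamond_final {R : Finset V} {v x y z : V} (hv : v ∈ R) (hcn : Cn G (R.erase v))
    (hD : ¬ ITMon diamond G R) (hx : x ∈ R) (hy : y ∈ R) (hz : z ∈ R) (hvx : G.Adj v x)
    (hvy : G.Adj v y) (hvz : G.Adj v z) (hxy : x ≠ y) (hxz : x ≠ z) (hyz : y ≠ z)
    (hN : ∀ w ∈ R, G.Adj v w → w = x ∨ w = y ∨ w = z)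
    (hnadj : ¬ (G.Adj x y ∧ G.Adj x z ∧ G.Adj y z))
    (hdel : ∀ u ∈ R.erase v, Cn G ((R.erase v).erase u) → u = x ∨ u = y ∨ u = z)
    (hsup : ∀ u ∈ R.erase v, ∀ s ∈ R, ∀ t ∈ R, s ≠ t → ¬ G.Adj s t →
      ¬ (∀ w ∈ R, G.Adj u w ↔ w = s ∨ w = t))
    (hcx : Cn G ((R.erase v).erase x)) (hcy : Cn G ((R.erase v).erase y)) : False := by
  have hdia : ∀ {p q s t : V}, p ∈ R → q ∈ R → s ∈ R → t ∈ R → G.Adj p q → G.Adj p s →
      G.Adj p t → G.Adj q s → G.Adj q t → s ≠ t → G.Adj s t := by
    intro p q s t h1 h2 h3 h4 h5 h6 h7 h8 h9 h10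
    by_contra hn
    exact hD (diamond_of h1 h2 h3 h4 h5 h6 h7 h8 h9 h10 hn)
  -- a non-cut vertex of `K` has exactly one neighbour in `K`, which is a neighbour of `v`
  have key : ∀ u p q : V, u ∈ R → p ∈ R → q ∈ R → G.Adj v u → G.Adj v p → G.Adj v q →
      u ≠ p → u ≠ q → p ≠ q → (∀ w ∈ R, G.Adj v w → w = u ∨ w = p ∨ w = q) →
      ¬ (G.Adj u p ∧ G.Adj u q ∧ G.Adj p q) → Cn G ((R.erase v).erase u) →
      ∀ w ∈ R, w ≠ v → ∀ w' ∈ R, w' ≠ v → G.Adj u w → G.Adj u w' → w = w' := by
    intro u p q hu hp hq hvu hvp hvq hup huq hpq hN' hnadj' hcu w hw hwv w' hw' hwv' huw huw'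
    by_contra hww
    have hdel' : ∀ a ∈ R.erase v, Cn G ((R.erase v).erase a) → a = u ∨ a = p ∨ a = q := by
      intro a ha hca
      have h1 := hdel a ha hca
      have h2 : G.Adj v a := by
        rcases h1 with rfl | rfl | rfl
        · exact hvx
        · exact hvy
        · exact hvz
      exact hN' a (mem_of_mem_erase ha) h2
    set K := R.erase v with hK
    set K' := K.erase u with hK'
    have memK : ∀ a, a ∈ K ↔ a ≠ v ∧ a ∈ R := fun a => by rw [hK, mem_erase]
    have memK' : ∀ a, a ∈ K' ↔ a ≠ u ∧ a ≠ v ∧ a ∈ R := fun a => by rw [hK', mem_erase, memK]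
    clear_value K'
    clear_value K
    have huK : u ∈ K := (memK u).2 ⟨hvu.ne', hu⟩
    have hpK' : p ∈ K' := (memK' p).2 ⟨hup.symm, hvp.ne', hp⟩
    have hqK' : q ∈ K' := (memK' q).2 ⟨huq.symm, hvq.ne', hq⟩
    -- non-cut vertices of `K'` are `p`, `q`
    have hnc : ∀ a ∈ K', Cn G (K'.erase a) → a = p ∨ a = q := by
      intro a ha hca
      have ha' := (memK' a).1 ha
      have hb : ∃ b ∈ K'.erase a, G.Adj u b := by
        by_cases h : w = a
        · refine ⟨w', ?_, huw'⟩
          rw [mem_erase, memK']
          exact ⟨fun h' => hww (h.trans h'.symm), huw'.ne', hwv', hw'⟩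
        · refine ⟨w, ?_, huw⟩
          rw [mem_erase, memK']
          exact ⟨h, huw.ne', hwv, hw⟩
      obtain ⟨b, hb, hub⟩ := hb
      have h1 := cn_insert hca hb hub
      have h2 : insert u (K'.erase a) = K.erase a := by
        ext c
        simp only [mem_insert, mem_erase, memK', memK]
        constructor
        · rintro (rfl | h)
          · exact ⟨ha'.1.symm, hvu.ne', hu⟩
          · exact ⟨h.1, h.2.2⟩
        · rintro ⟨h3, h4, h5⟩
          by_cases hcu' : c = u
          · exact Or.inl hcu'
          · exact Or.inr ⟨h3, hcu', h4, h5⟩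
      rw [h2] at h1
      rcases hdel' a ((memK a).2 ha'.2) h1 with h | h | h
      · exact absurd h ha'.1
      · exact Or.inl h
      · exact Or.inr h
    have hncp : Cn G (K'.erase p) := by
      obtain ⟨a, ha, haq, hca⟩ := hcu.leaf_ne hqK' (by
        intro h
        rw [h, mem_singleton] at hpK'
        exact hpq hpK')
      rcases hnc a ha hca with h | h
      · rwa [h] at hca
      · exact absurd h haq
    have hncq : Cn G (K'.erase q) := by
      obtain ⟨a, ha, haq, hca⟩ := hcu.leaf_ne hpK' (by
        intro h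
        rw [h, mem_singleton] at hqK'
        exact hpq hqK'.symm)
      rcases hnc a ha hca with h | h
      · exact absurd h haq
      · rwa [h] at hca
    by_cases hsmall : K' = {p, q}
    · -- `K' = {p, q}`
      have hpq' : G.Adj p q := by
        obtain ⟨b, hb, hbp, hpb⟩ := cn_nb hcu hpK' hqK' hpq
        have : b = p ∨ b = q := by
          have := hsmall ▸ hb
          simpa using this
        rcases this with h | h
        · exact absurd h hbp
        · rwa [h] at hpb
      have hmem : ∀ b ∈ R, b ≠ v → G.Adj u b → b = p ∨ b = q := by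
        intro b hb hbv hub
        have h1 : b ∈ K' := (memK' b).2 ⟨hub.ne', hbv, hb⟩
        rw [hsmall] at h1
        simpa using h1
      apply hnadj'
      rcases hmem w hw hwv huw with h1 | h1 <;> rcases hmem w' hw' hwv' huw' with h2 | h2
      · exact absurd (h1.trans h2.symm) hww
      · rw [h1] at huw
        rw [h2] at huw'
        exact ⟨huw, huw', hpq'⟩
      · rw [h1] at huw
        rw [h2] at huw'
        exact ⟨huw', huw, hpq'⟩
      · exact absurd (h1.trans h2.symm) hww
    · -- `K'` has a further vertex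
      have hthird : ∃ c ∈ K', c ≠ p ∧ c ≠ q := by
        by_contra hcon
        apply hsmall
        ext c
        rw [mem_insert, mem_singleton]
        constructor
        · intro hc
          by_contra h
          rw [not_or] at h
          exact hcon ⟨c, hc, h.1, h.2⟩
        · rintro (rfl | rfl)
          · exact hpK'
          · exact hqK'
      obtain ⟨c, hcK', hcp, hcq⟩ := hthird
      -- an end vertex has exactly one neighbour in `K'`, and it is adjacent to `u`
      have hend : ∀ a b : V, a ∈ K' → b ∈ K' → a ≠ b → G.Adj v a → (∀ w ∈ K', G.Adj v w → w = a ∨ w = b) →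
          c ≠ a → c ≠ b → Cn G (K'.erase a) →
          (∀ d ∈ K', Cn G (K'.erase d) → d = a ∨ d = b) → ¬ G.Adj a b ∧ G.Adj u a := by
        intro a b ha hb hab hva hNv hca hcb hcna hnc'
        have ha' := (memK' a).1 ha
        have hb' := (memK' b).1 hb
        have hbKa : b ∈ K'.erase a := mem_erase.2 ⟨hab.symm, hb⟩
        obtain ⟨z', hz', hzb, hcz⟩ := hcna.leaf_ne hbKa (by
          intro h
          have : c ∈ K'.erase a := mem_erase.2 ⟨hca, hcK'⟩
          rw [h, mem_singleton] at this
          exact hcb this)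
        obtain ⟨hza, hzK'⟩ := mem_erase.1 hz'
        have hzR := (memK' z').1 hzK'
        have honly : ∀ d ∈ K', G.Adj a d → d = z' := by
          intro d hd had
          by_contra hdz
          have h1 : d ∈ (K'.erase a).erase z' :=
            mem_erase.2 ⟨hdz, mem_erase.2 ⟨had.ne', hd⟩⟩
          have h2 := cn_insert hcz h1 had
          have h3 : insert a ((K'.erase a).erase z') = K'.erase z' := by
            ext e
            simp only [mem_insert, mem_erase, ne_eq]
            constructor
            · rintro (rfl | h)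
              · exact ⟨hza.symm, ha⟩
              · exact ⟨h.1, h.2.2⟩
            · rintro ⟨h4, h5⟩
              by_cases hea : e = a
              · exact Or.inl hea
              · exact Or.inr ⟨h4, hea, h5⟩
          rw [h3] at h2
          rcases hnc' z' hzK' h2 with h | h
          · exact hza h
          · exact hzb h
        have haz : G.Adj a z' := by
          obtain ⟨d, hd, hda, had⟩ := cn_nb hcu ha hb hab
          rwa [honly d hd had] at had
        have hnab : ¬ G.Adj a b := fun h => hzb (honly b hb h).symm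
        refine ⟨hnab, ?_⟩
        by_contra hua
        have hvz : ¬ G.Adj v z' := by
          intro h
          rcases hNv z' hzK' h with h1 | h1
          · exact hza h1
          · exact hzb h1
        refine hsup a ((memK a).2 ha'.2) v hv z' hzR.2.2 hzR.2.1.symm hvz ?_
        intro e he
        constructor
        · intro hae
          by_cases hev : e = v
          · exact Or.inl hev
          · right
            apply honly e _ hae
            rw [memK']
            refine ⟨?_, hev, he⟩
            rintro rfl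
            exact hua hae.symm
        · rintro (rfl | rfl)
          · exact hva.symm
          · exact haz
      have hNv : ∀ e ∈ K', G.Adj v e → e = p ∨ e = q := by
        intro e he hve
        have he' := (memK' e).1 he
        rcases hN' e he'.2.2 hve with h | h
        · exact absurd h he'.1
        · exact h
      obtain ⟨h1, h2⟩ := hend p q hpK' hqK' hpq hvp hNv hcp hcq hncp hnc
      obtain ⟨-, h3⟩ := hend q p hqK' hpK' hpq.symm hvq (fun e he h => (hNv e he h).symm) hcq hcp
        hncq (fun d hd h => (hnc d hd h).symm)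
      exact h1 (hdia hv hu hp hq hvu hvp hvq h2 h3 hpq)
  -- the only neighbour of a non-cut vertex
  have one : ∀ u p q : V, u ∈ R → p ∈ R → q ∈ R → G.Adj v u → G.Adj v p → G.Adj v q →
      u ≠ p → u ≠ q → p ≠ q → (∀ w ∈ R, G.Adj v w → w = u ∨ w = p ∨ w = q) →
      ¬ (G.Adj u p ∧ G.Adj u q ∧ G.Adj p q) → Cn G ((R.erase v).erase u) →
      (G.Adj u p ∧ ∀ w ∈ R, w ≠ v → G.Adj u w → w = p) ∨
      (G.Adj u q ∧ ∀ w ∈ R, w ≠ v → G.Adj u w → w = q) := by
    intro u p q hu hp hq hvu hvp hvq hup huq hpq hN' hnadj' hcu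
    have huniq := key u p q hu hp hq hvu hvp hvq hup huq hpq hN' hnadj' hcu
    have huK : u ∈ R.erase v := mem_erase.2 ⟨hvu.ne', hu⟩
    have hpK : p ∈ R.erase v := mem_erase.2 ⟨hvp.ne', hp⟩
    obtain ⟨w, hw, hwu, huw⟩ := cn_nb hcn huK hpK hup
    obtain ⟨hwv, hwR⟩ := mem_erase.1 hw
    have hvw : G.Adj v w := by
      by_contra hvw
      refine hsup u huK v hv w hwR hwv.symm hvw ?_
      intro e he
      constructor
      · intro hue
        by_cases hev : e = v
        · exact Or.inl hev
        · exact Or.inr (huniq e he hev w hwR hwv hue huw)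
      · rintro (rfl | rfl)
        · exact hvu.symm
        · exact huw
    rcases hN' w hwR hvw with h | h | h
    · exact absurd h hwu
    · subst h
      exact Or.inl ⟨huw, fun e he hev hue => huniq e he hev w hwR hwv hue huw⟩
    · subst h
      exact Or.inr ⟨huw, fun e he hev hue => huniq e he hev w hwR hwv hue huw⟩
  have o1 := one x y z hx hy hz hvx hvy hvz hxy hxz hyz hN hnadj hcx
  have o2 := one y x z hy hx hz hvy hvx hvz hxy.symm hyz hxz (fun w hw h => by
    rcases hN w hw h with h | h | h
    · exact Or.inr (Or.inl h)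
    · exact Or.inl h
    · exact Or.inr (Or.inr h)) (fun h => hnadj ⟨h.1.symm, h.2.2, h.2.1⟩) hcy
  -- if `x ~ y` only, then `{x, y}` is a component of `K`
  have hclosed : ¬ ((∀ w ∈ R, w ≠ v → G.Adj x w → w = y) ∧
      (∀ w ∈ R, w ≠ v → G.Adj y w → w = x)) := by
    rintro ⟨h1, h2⟩
    obtain ⟨a, ha, b, hb, hab⟩ := hcn.2 {x, y} (by
        intro a ha
        rw [mem_insert, mem_singleton] at ha
        rcases ha with rfl | rfl
        · exact mem_erase.2 ⟨hvx.ne', hx⟩
        · exact mem_erase.2 ⟨hvy.ne', hy⟩) ⟨x, by simp⟩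
      ⟨z, mem_sdiff.2 ⟨mem_erase.2 ⟨hvz.ne', hz⟩, by simp [hxz.symm, hyz.symm]⟩⟩
    obtain ⟨hb1, hb2⟩ := mem_sdiff.1 hb
    obtain ⟨hbv, hbR⟩ := mem_erase.1 hb1
    rw [mem_insert, mem_singleton, not_or] at hb2
    rw [mem_insert, mem_singleton] at ha
    rcases ha with rfl | rfl
    · exact hb2.2 (h1 b hbR hbv hab)
    · exact hb2.1 (h2 b hbR hbv hab)
  rcases o1 with ⟨a1, a2⟩ | ⟨a1, a2⟩
  · rcases o2 with ⟨b1, b2⟩ | ⟨b1, b2⟩
    · exact hclosed ⟨a2, b2⟩
    · exact hxz (b2 x hx hvx.ne' a1.symm)
  · rcases o2 with ⟨b1, b2⟩ | ⟨b1, b2⟩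
    · exact hyz (a2 y hy hvy.ne' b1.symm)
    · have hnxy : ¬ G.Adj x y := fun h => hyz (a2 y hy hvy.ne' h)
      exact hnxy (hdia hv hz hx hy hvz hvx hvy a1.symm b1.symm hxy)

/-- In a graph without the diamond as an induced topological minor, a vertex `v` such that `G - v`
is connected and that has two nonadjacent neighbours has degree two. -/
theorem diamond_core : ∀ (n : ℕ) (G : SimpleGraph V) (R : Finset V) (v a b c : V), R.card ≤ n →
    v ∈ R → Cn G (R.erase v) → Hyp G R v a b c → ITMon diamond G R := by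
  intro n
  induction n with
  | zero =>
    intro G R v a b c hn hv _ _
    rw [Nat.le_zero, card_eq_zero] at hn
    rw [hn] at hv
    exact absurd hv (notMem_empty _)
  | succ n ih =>
    intro G R v a b c hn hv hcn hyp
    by_contra hD
    have hdia : ∀ {p q s t : V}, p ∈ R → q ∈ R → s ∈ R → t ∈ R → G.Adj p q → G.Adj p s →
        G.Adj p t → G.Adj q s → G.Adj q t → s ≠ t → G.Adj s t := by
      intro p q s t h1 h2 h3 h4 h5 h6 h7 h8 h9 h10
      by_contra hn
      exact hD (diamond_of h1 h2 h3 h4 h5 h6 h7 h8 h9 h10 hn)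
    -- deletion
    have hdel : ∀ a b c : V, Hyp G R v a b c → ∀ u ∈ R.erase v, Cn G ((R.erase v).erase u) →
        u = a ∨ u = b ∨ u = c := by
      intro a b c h u hu hcu
      obtain ⟨huv, huR⟩ := mem_erase.1 hu
      by_contra hcon
      rw [not_or, not_or] at hcon
      apply hD
      obtain ⟨h1, h2, h3, h4⟩ := h
      refine (ih G (R.erase u) v a b c ?_ ?_ ?_ ⟨?_, ?_, ?_, h4⟩).mono (erase_subset _ _)
      · rw [card_erase_of_mem huR]
        omega
      · exact mem_erase.2 ⟨huv.symm, hv⟩
      · rwa [erase_right_comm]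
      · exact mem_erase.2 ⟨Ne.symm hcon.1, h1⟩
      · exact mem_erase.2 ⟨Ne.symm hcon.2.1, h2⟩
      · exact mem_erase.2 ⟨Ne.symm hcon.2.2, h3⟩
    -- suppression
    have hsup : ∀ u ∈ R.erase v, ∀ s ∈ R, ∀ t ∈ R, s ≠ t → ¬ G.Adj s t →
        ¬ (∀ w ∈ R, G.Adj u w ↔ w = s ∨ w = t) := by
      intro u hu s hs t ht hst hnst hd
      obtain ⟨huv, huR⟩ := mem_erase.1 hu
      have hus : G.Adj u s := (hd s hs).2 (Or.inl rfl)
      have hut : G.Adj u t := (hd t ht).2 (Or.inr rfl)
      -- the reduced problem
      have hred : ∀ a b c : V, Hyp (addE G s t) (R.erase u) v a b c → False := by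
        intro a b c h
        apply hD
        refine ITMon.suppress huR hs ht hst hnst hd (ih (addE G s t) (R.erase u) v a b c ?_ ?_ ?_ h)
        · rw [card_erase_of_mem huR]
          omega
        · exact mem_erase.2 ⟨huv.symm, hv⟩
        · rw [erase_right_comm]
          refine cn_erase hcn hu ?_ (fun x _ y _ h => le_addE h) ?_
          · by_cases hsv : s = v
            · exact ⟨t, mem_erase.2 ⟨hut.ne', mem_erase.2 ⟨fun h => hst (hsv.trans h.symm), ht⟩⟩⟩
            · exact ⟨s, mem_erase.2 ⟨hus.ne', mem_erase.2 ⟨hsv, hs⟩⟩⟩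
          · intro x hx y hy hux huy
            have hx' := mem_of_mem_erase (mem_of_mem_erase hx)
            have hy' := mem_of_mem_erase (mem_of_mem_erase hy)
            by_cases hxy : x = y
            · exact Or.inl hxy
            · refine Or.inr (Or.inr ⟨hxy, ?_⟩)
              rcases (hd x hx').1 hux with h1 | h1 <;> rcases (hd y hy').1 huy with h2 | h2
              · exact absurd (h1.trans h2.symm) hxy
              · exact Or.inl ⟨h1, h2⟩
              · exact Or.inr ⟨h1, h2⟩
              · exact absurd (h1.trans h2.symm) hxy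
      -- case 1: some triple avoids `u`
      have case1 : ∀ a b c : V, Hyp G R v a b c → u ≠ a → u ≠ b → u ≠ c → False := by
        intro a b c h hua hub huc
        obtain ⟨h1, h2, h3, h4, h5, h6, h7, h8, h9, h10⟩ := h
        have ma : a ∈ R.erase u := mem_erase.2 ⟨hua.symm, h1⟩
        have mb : b ∈ R.erase u := mem_erase.2 ⟨hub.symm, h2⟩
        have mc : c ∈ R.erase u := mem_erase.2 ⟨huc.symm, h3⟩
        by_cases hab : (addE G s t).Adj a b
        · rcases hab with hab | ⟨-, hab⟩
          · exact h10 hab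
          · -- `{a, b} = {s, t}`
            by_cases hca : G.Adj c a
            · by_cases hcb : G.Adj c b
              · exact h10 (hdia hv h3 h1 h2 h9 h7 h8 hca hcb h4)
              · refine hred b c a ⟨mb, mc, ma, h6, h4.symm, h5.symm, le_addE h8, le_addE h9,
                  le_addE h7, ?_⟩
                rintro (h | ⟨-, ⟨h, h'⟩ | ⟨h, h'⟩⟩)
                · exact hcb h.symm
                · rcases hab with ⟨e1, e2⟩ | ⟨e1, e2⟩
                  · exact h4 (e1.trans h.symm)
                  · exact h5 (e1.trans h'.symm)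
                · rcases hab with ⟨e1, e2⟩ | ⟨e1, e2⟩
                  · exact h5 (e1.trans h'.symm)
                  · exact h4 (e1.trans h.symm)
            · refine hred a c b ⟨ma, mc, mb, h5, h4, h6.symm, le_addE h7, le_addE h9,
                le_addE h8, ?_⟩
              rintro (h | ⟨-, ⟨h, h'⟩ | ⟨h, h'⟩⟩)
              · exact hca h.symm
              · rcases hab with ⟨e1, e2⟩ | ⟨e1, e2⟩
                · exact h6 (e2.trans h'.symm)
                · exact h4 (h.trans e2.symm)
              · rcases hab with ⟨e1, e2⟩ | ⟨e1, e2⟩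
                · exact h4 (h.trans e2.symm)
                · exact h6 (e2.trans h'.symm)
        · exact hred a b c ⟨ma, mb, mc, h4, h5, h6, le_addE h7, le_addE h8, le_addE h9, hab⟩
      -- case 2: `u` is a neighbour of `v`
      have case2 : ∀ p q r : V, G.Adj v u → p ∈ R → q ∈ R → r ∈ R → G.Adj v p → G.Adj v q →
          u ≠ p → u ≠ q → p ≠ q → r ≠ v → (∀ w ∈ R, G.Adj u w ↔ w = v ∨ w = r) →
          ¬ G.Adj v r → (addE G s t).Adj v r →
          (∀ x y : V, (addE G s t).Adj x y → ¬ G.Adj x y → (x = v ∧ y = r) ∨ (x = r ∧ y = v)) →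
          ¬ (G.Adj u p ∧ G.Adj u q ∧ G.Adj p q) → False := by
        intro p q r hvu hp hq hr hvp hvq hup huq hpq hrv hdu hvr hvr' hadd _
        have hur : G.Adj u r := (hdu r hr).2 (Or.inr rfl)
        have mp : p ∈ R.erase u := mem_erase.2 ⟨hup.symm, hp⟩
        have mq : q ∈ R.erase u := mem_erase.2 ⟨huq.symm, hq⟩
        have mr : r ∈ R.erase u := mem_erase.2 ⟨hur.ne', hr⟩
        have hrp : r ≠ p := by
          rintro rfl
          exact hvr hvp
        have hrq : r ≠ q := by
          rintro rfl
          exact hvr hvq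
        have hnew : ∀ x y : V, x ≠ v → y ≠ v → ¬ G.Adj x y → ¬ (addE G s t).Adj x y := by
          intro x y hx hy hxy h
          rcases hadd x y h hxy with ⟨h1, -⟩ | ⟨-, h1⟩
          · exact hx h1
          · exact hy h1
        by_cases h1 : G.Adj r p
        · by_cases h2 : G.Adj r q
          · by_cases h3 : G.Adj p q
            · exact hvr (hdia hp hq hv hr h3 hvp.symm h1.symm hvq.symm h2.symm hrv.symm)
            · exact hred p q r ⟨mp, mq, mr, hpq, hrp.symm, hrq.symm, le_addE hvp, le_addE hvq,
                hvr', hnew p q hvp.ne' hvq.ne' h3⟩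
          · exact hred r q p ⟨mr, mq, mp, hrq, hrp, hpq.symm, hvr', le_addE hvq,
              le_addE hvp, hnew r q hrv hvq.ne' h2⟩
        · exact hred r p q ⟨mr, mp, mq, hrp, hrq, hpq, hvr', le_addE hvp,
            le_addE hvq, hnew r p hrv hvp.ne' h1⟩
      -- which case
      have hcase2 : ∀ p q : V, G.Adj v u → p ∈ R → q ∈ R → G.Adj v p → G.Adj v q →
          u ≠ p → u ≠ q → p ≠ q → ¬ (G.Adj u p ∧ G.Adj u q ∧ G.Adj p q) → False := by
        intro p q hvu hp hq hvp hvq hup huq hpq hnad
        rcases (hd v hv).1 hvu.symm with hvs | hvt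
        · subst hvs
          exact case2 p q t hvu hp hq ht hvp hvq hup huq hpq hst.symm hd hnst
            (Or.inr ⟨hst, Or.inl ⟨rfl, rfl⟩⟩) (fun x y h hn => by
              rcases h with h | ⟨-, h⟩
              · exact absurd h hn
              · exact h) hnad
        · subst hvt
          exact case2 p q s hvu hp hq hs hvp hvq hup huq hpq hst
            (fun w hw => (hd w hw).trans or_comm) (fun h => hnst h.symm)
            (Or.inr ⟨hst.symm, Or.inr ⟨rfl, rfl⟩⟩) (fun x y h hn => by
              rcases h with h | ⟨-, h⟩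
              · exact absurd h hn
              · exact h.symm) hnad
      obtain ⟨h1, h2, h3, h4, h5, h6, h7, h8, h9, h10⟩ := hyp
      by_cases hua : u = a
      · subst hua
        exact hcase2 b c h7 h2 h3 h8 h9 h4 h5 h6 (fun h => h10 h.1)
      by_cases hub : u = b
      · subst hub
        exact hcase2 a c h8 h1 h3 h7 h9 h4.symm h6 h5 (fun h => h10 h.1.symm)
      by_cases huc : u = c
      · subst huc
        exact hcase2 a b h9 h1 h2 h7 h8 h5.symm h6.symm h4 (fun h => h10 h.2.2)
      exact case1 a b c ⟨h1, h2, h3, h4, h5, h6, h7, h8, h9, h10⟩ hua hub huc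
    obtain ⟨h1, h2, h3, h4, h5, h6, h7, h8, h9, h10⟩ := hyp
    have hyp : Hyp G R v a b c := ⟨h1, h2, h3, h4, h5, h6, h7, h8, h9, h10⟩
    -- two non-cut vertices
    have haK : a ∈ R.erase v := mem_erase.2 ⟨h7.ne', h1⟩
    have hbK : b ∈ R.erase v := mem_erase.2 ⟨h8.ne', h2⟩
    obtain ⟨x, hx, hxa, hcx⟩ := hcn.leaf_ne haK (by
      intro h
      rw [h, mem_singleton] at hbK
      exact h4 hbK.symm)
    obtain ⟨y, hy, hyx, hcy⟩ := hcn.leaf_ne hx (by
      intro h
      rw [h, mem_singleton] at haK
      exact hxa haK.symm)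
    have hxabc := hdel a b c hyp x hx hcx
    have hyabc := hdel a b c hyp y hy hcy
    -- `v` has no fourth neighbour
    have hN : ∀ w ∈ R, G.Adj v w → w = a ∨ w = b ∨ w = c := by
      intro d hd hvd
      by_contra hcon
      rw [not_or, not_or] at hcon
      obtain ⟨hda, hdb, hdc⟩ := hcon
      have hncc : ∀ u ∈ R.erase v, Cn G ((R.erase v).erase u) → u ≠ c := by
        rintro u hu hcu rfl
        have := hdel a b d ⟨h1, h2, hd, h4, Ne.symm hda, Ne.symm hdb, h7, h8, hvd, h10⟩ u hu hcu
        rcases this with h | h | h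
        · exact h5 h.symm
        · exact h6 h.symm
        · exact hdc h.symm
      -- `a` and `b` are both non-cut
      have hboth : Cn G ((R.erase v).erase a) ∧ Cn G ((R.erase v).erase b) := by
        rcases hxabc with rfl | rfl | rfl
        · exact absurd rfl hxa
        · rcases hyabc with rfl | rfl | rfl
          · exact ⟨hcy, hcx⟩
          · exact absurd rfl hyx
          · exact absurd rfl (hncc _ hy hcy)
        · exact absurd rfl (hncc _ hx hcx)
      obtain ⟨hca, hcb⟩ := hboth
      have hadj : ∀ p q r u : V, p ∈ R → q ∈ R → r ∈ R → p ≠ q → p ≠ r → q ≠ r → G.Adj v p →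
          G.Adj v q → G.Adj v r → u ∈ R.erase v → Cn G ((R.erase v).erase u) → u ≠ p → u ≠ q →
          u ≠ r → G.Adj p q := by
        intro p q r u hp hq hr hpq hpr hqr hvp hvq hvr hu hcu h1 h2 h3
        by_contra hn
        rcases hdel p q r ⟨hp, hq, hr, hpq, hpr, hqr, hvp, hvq, hvr, hn⟩ u hu hcu with h | h | h
        · exact h1 h
        · exact h2 h
        · exact h3 h
      have hbc : G.Adj b c := hadj b c d a h2 h3 hd h6 (Ne.symm hdb) (Ne.symm hdc) h8 h9 hvd
        (mem_erase.2 ⟨h7.ne', h1⟩) hca h4 h5 (Ne.symm hda)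
      have hac : G.Adj a c := hadj a c d b h1 h3 hd h5 (Ne.symm hda) (Ne.symm hdc) h7 h9 hvd
        (mem_erase.2 ⟨h8.ne', h2⟩) hcb h4.symm h6 (Ne.symm hdb)
      exact h10 (hdia hv h3 h1 h2 h9 h7 h8 hac.symm hbc.symm h4)
    have hdel' := hdel a b c hyp
    rcases hxabc with rfl | rfl | rfl
    · exact absurd rfl hxa
    · rcases hyabc with rfl | rfl | rfl
      · refine diamond_final (x := x) (y := y) (z := c) hv hcn hD h2 h1 h3 h8 h7 h9 h4.symm h6 h5
          (fun w hw h => ?_) (fun h => h10 h.1.symm) (fun u hu h => ?_) hsup hcx hcy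
        · rcases hN w hw h with h | h | h
          · exact Or.inr (Or.inl h)
          · exact Or.inl h
          · exact Or.inr (Or.inr h)
        · rcases hdel' u hu h with h | h | h
          · exact Or.inr (Or.inl h)
          · exact Or.inl h
          · exact Or.inr (Or.inr h)
      · exact absurd rfl hyx
      · refine diamond_final (x := x) (y := y) (z := a) hv hcn hD h2 h3 h1 h8 h9 h7 h6 h4.symm
          h5.symm (fun w hw h => ?_) (fun h => h10 h.2.1.symm) (fun u hu h => ?_) hsup hcx hcy
        · rcases hN w hw h with h | h | h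
          · exact Or.inr (Or.inr h)
          · exact Or.inl h
          · exact Or.inr (Or.inl h)
        · rcases hdel' u hu h with h | h | h
          · exact Or.inr (Or.inr h)
          · exact Or.inl h
          · exact Or.inr (Or.inl h)
    · rcases hyabc with rfl | rfl | rfl
      · refine diamond_final (x := x) (y := y) (z := b) hv hcn hD h3 h1 h2 h9 h7 h8 h5.symm
          h6.symm h4 (fun w hw h => ?_) (fun h => h10 h.2.2) (fun u hu h => ?_) hsup hcx hcy
        · rcases hN w hw h with h | h | h
          · exact Or.inr (Or.inl h)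
          · exact Or.inr (Or.inr h)
          · exact Or.inl h
        · rcases hdel' u hu h with h | h | h
          · exact Or.inr (Or.inl h)
          · exact Or.inr (Or.inr h)
          · exact Or.inl h
      · refine diamond_final (x := x) (y := y) (z := a) hv hcn hD h3 h2 h1 h9 h8 h7 h6.symm
          h5.symm h4.symm (fun w hw h => ?_) (fun h => h10 h.2.2.symm) (fun u hu h => ?_) hsup
          hcx hcy
        · rcases hN w hw h with h | h | h
          · exact Or.inr (Or.inr h)
          · exact Or.inr (Or.inl h)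
          · exact Or.inl h
        · rcases hdel' u hu h with h | h | h
          · exact Or.inr (Or.inr h)
          · exact Or.inr (Or.inl h)
          · exact Or.inl h
      · exact absurd rfl hyx

end

end Pool.Agent.R36.Itm
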