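import Pool.Agent.R36.Itm

/-!
# Graphs without an induced subdivision of the paw
-/

set_option autoImplicit false

namespace Pool.Agent.R36.Itm

open Finset Classical Pool.Agent.H175R2

/-- The paw: the triangle `0, 1, 2` with a pendant edge `03`. -/
def paw : SimpleGraph (Fin 4) :=
  SimpleGraph.fromRel (fun a b => (a.val < b.val ∧ b.val ≤ 2) ∨ (a.val = 0 ∧ b.val = 3))

/-- all degrees are at most two -/
def Deg2 {V : Type} (G : SimpleGraph V) (R : Finset V) : Prop :=
  ∀ x ∈ R, (R.filter (fun y => G.Adj x y)).card ≤ 2

/-- complete multipartite: nonadjacency is transitive -/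
def CM {V : Type} (G : SimpleGraph V) (R : Finset V) : Prop :=
  ∀ p ∈ R, ∀ q ∈ R, ∀ r ∈ R, ¬ G.Adj p q → ¬ G.Adj q r → ¬ G.Adj p r

section
variable {V : Type} {G : SimpleGraph V}

lemma paw_of {R : Finset V} {x y z w : V} (hx : x ∈ R) (hy : y ∈ R) (hz : z ∈ R) (hw : w ∈ R)
    (hxy : G.Adj x y) (hxz : G.Adj x z) (hyz : G.Adj y z) (hxw : G.Adj x w) (hyw : ¬ G.Adj y w)
    (hzw : ¬ G.Adj z w) : ITMon paw G R := by
  have n1 := hxy.ne
  have n2 := hxz.ne
  have n3 := hyz.ne
  have n4 := hxw.ne
  have n5 : y ≠ w := by
    rintro rfl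
    exact hzw hyz.symm
  have n6 : z ≠ w := by
    rintro rfl
    exact hyw hyz
  have inj : Function.Injective ![x, y, z, w] := by
    intro i j
    fin_cases i <;> fin_cases j <;>
      simp [n1, n2, n3, n4, n5, n6, n1.symm, n2.symm, n3.symm, n4.symm, n5.symm, n6.symm]
  refine ⟨Fin 4, paw, ⟨⟨![x, y, z, w], inj⟩, ?_⟩, Subdivision.iso SimpleGraph.Iso.refl, ?_⟩
  · intro i j
    have a1 := hxy.symm
    have a2 := hxz.symm
    have a3 := hyz.symm
    have a4 := hxw.symm
    have a5 : ¬ G.Adj w y := fun h => hyw h.symm
    have a6 : ¬ G.Adj w z := fun h => hzw h.symm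
    fin_cases i <;> fin_cases j <;>
      simp [paw, SimpleGraph.fromRel_adj, hxy, hxz, hyz, hxw, hyw, hzw, a1, a2, a3, a4, a5, a6]
  · intro i
    change ![x, y, z, w] i ∈ R
    fin_cases i <;> simp [hx, hy, hz, hw]

/-- the cycle `x y z w` with a pendant vertex `p` attached at `x` -/
lemma banner_of {R : Finset V} {x y z w p : V} (hx : x ∈ R) (hy : y ∈ R) (hz : z ∈ R) (hw : w ∈ R)
    (hp : p ∈ R) (hxy : G.Adj x y) (hyz : G.Adj y z) (hzw : G.Adj z w) (hwx : G.Adj w x)
    (hxz : ¬ G.Adj x z) (hyw : ¬ G.Adj y w) (hxp : G.Adj x p) (hyp : ¬ G.Adj y p)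
    (hzp : ¬ G.Adj z p) (hwp : ¬ G.Adj w p) (hyw' : y ≠ w) : ITMon paw G R := by
  have n1 := hxy.ne
  have n2 := hyz.ne
  have n3 := hzw.ne
  have n4 := hwx.ne
  have n5 := hxp.ne
  have n6 : x ≠ z := by
    rintro rfl
    exact hzp hxp
  have n7 : y ≠ p := by
    rintro rfl
    exact hzp hyz.symm
  have n8 : z ≠ p := by
    rintro rfl
    exact hyp hyz
  have n9 : w ≠ p := by
    rintro rfl
    exact hzp hzw
  set R0 : Finset V := {x, y, z, w, p} with hR0
  have mem : ∀ a, a ∈ R0 ↔ a = x ∨ a = y ∨ a = z ∨ a = w ∨ a = p := by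
    intro a
    simp [hR0]
  have hsub : R0 ⊆ R := by
    intro a ha
    rcases (mem a).1 ha with rfl | rfl | rfl | rfl | rfl
    · exact hx
    · exact hy
    · exact hz
    · exact hw
    · exact hp
  refine ITMon.mono ?_ hsub
  refine ITMon.suppress (u := z) (s := y) (t := w) ((mem _).2 (by simp)) ((mem _).2 (by simp))
    ((mem _).2 (by simp)) hyw' hyw ?_ ?_
  · intro a ha
    constructor
    · intro hza
      rcases (mem a).1 ha with rfl | rfl | rfl | rfl | rfl
      · exact absurd hza.symm hxz
      · exact Or.inl rfl
      · exact absurd rfl hza.ne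
      · exact Or.inr rfl
      · exact absurd hza hzp
    · rintro (rfl | rfl)
      · exact hyz.symm
      · exact hzw
  · refine paw_of (x := x) (y := y) (z := w) (w := p) ?_ ?_ ?_ ?_ (le_addE hxy)
      (le_addE hwx.symm) (Or.inr ⟨hyw', Or.inl ⟨rfl, rfl⟩⟩) (le_addE hxp) ?_ ?_
    · exact mem_erase.2 ⟨n6, (mem _).2 (by simp)⟩
    · exact mem_erase.2 ⟨n2, (mem _).2 (by simp)⟩
    · exact mem_erase.2 ⟨n3.symm, (mem _).2 (by simp)⟩
    · exact mem_erase.2 ⟨n8.symm, (mem _).2 (by simp)⟩
    · rintro (h | ⟨-, ⟨-, h⟩ | ⟨h, -⟩⟩)
      · exact hyp h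
      · exact n9 h.symm
      · exact hyw' h
    · rintro (h | ⟨-, ⟨h, -⟩ | ⟨-, h⟩⟩)
      · exact hwp h
      · exact hyw' h.symm
      · exact n7 h.symm

/-- the hypothesis that `R` contains a cycle through `v` -/
def Cyc (G : SimpleGraph V) (R : Finset V) (v a b : V) : Prop :=
  v ∈ R ∧ Cn G (R.erase v) ∧ a ∈ R ∧ b ∈ R ∧ a ≠ b ∧ G.Adj v a ∧ G.Adj v b

/-- a star has no cycle -/
lemma star_cyc {R : Finset V} {c v a b : V}
    (h : ∀ x ∈ R, ∀ y ∈ R, x ≠ c → y ≠ c → ¬ G.Adj x y) : ¬ Cyc G R v a b := by
  rintro ⟨hv, hcn, ha, hb, hab, hva, hvb⟩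
  have hvc : v = c := by
    by_contra hvc
    by_cases hac : a = c
    · exact h v hv b hb hvc (fun h' => hab (hac.trans h'.symm)) hvb
    · exact h v hv a ha hvc hac hva
  subst hvc
  obtain ⟨x, hx, hxa, hax⟩ := cn_nb hcn (mem_erase.2 ⟨hva.ne', ha⟩) (mem_erase.2 ⟨hvb.ne', hb⟩) hab
  exact h a ha x (mem_of_mem_erase hx) hva.ne' (ne_of_mem_erase hx) hax

/-- two symmetric halves of the analysis of a subdivided edge of a complete multipartite graph -/
lemma cmA {R : Finset V} {u s t v a b : V} (hu : u ∈ R) (hs : s ∈ R) (ht : t ∈ R) (hst : s ≠ t)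
    (hn : ¬ G.Adj s t) (hd : ∀ x ∈ R, G.Adj u x ↔ x = s ∨ x = t)
    (hcm : CM (addE G s t) (R.erase u)) (hcyc : Cyc (addE G s t) (R.erase u) v a b) :
    ITMon paw G R ∨ Deg2 G R ∨ CM G R := by
  by_contra hcon
  rw [not_or, not_or] at hcon
  obtain ⟨hI, hD2, hCM⟩ := hcon
  have hus : G.Adj u s := (hd s hs).2 (Or.inl rfl)
  have hut : G.Adj u t := (hd t ht).2 (Or.inr rfl)
  -- other vertices
  set X : Finset V := ((R.erase u).erase s).erase t with hX
  have memX : ∀ x, x ∈ X ↔ x ≠ t ∧ x ≠ s ∧ x ≠ u ∧ x ∈ R := fun x => by
    rw [hX, mem_erase, mem_erase, mem_erase]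
  clear_value X
  have hux : ∀ x ∈ X, ¬ G.Adj u x := by
    intro x hx h
    obtain ⟨h1, h2, -, h4⟩ := (memX x).1 hx
    rcases (hd x h4).1 h with h | h
    · exact h2 h
    · exact h1 h
  have hR' : ∀ x ∈ X, x ∈ R.erase u := fun x hx => by
    obtain ⟨-, -, h3, h4⟩ := (memX x).1 hx
    exact mem_erase.2 ⟨h3, h4⟩
  have hs' : s ∈ R.erase u := mem_erase.2 ⟨hus.ne', hs⟩
  have ht' : t ∈ R.erase u := mem_erase.2 ⟨hut.ne', ht⟩
  have same : ∀ x ∈ X, ∀ y, (addE G s t).Adj x y ↔ G.Adj x y := by
    intro x hx y
    obtain ⟨h1, h2, -, -⟩ := (memX x).1 hx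
    constructor
    · rintro (h | ⟨-, ⟨h, -⟩ | ⟨h, -⟩⟩)
      · exact h
      · exact absurd h h2
      · exact absurd h h1
    · exact le_addE
  have same' : ∀ x ∈ X, ∀ y, (addE G s t).Adj y x ↔ G.Adj y x := by
    intro x hx y
    rw [SimpleGraph.adj_comm, same x hx, SimpleGraph.adj_comm]
  have hst' : (addE G s t).Adj s t := Or.inr ⟨hst, Or.inl ⟨rfl, rfl⟩⟩
  -- every other vertex is adjacent to `s` or `t`
  have h1 : ∀ x ∈ X, G.Adj x s ∨ G.Adj x t := by
    intro x hx
    by_contra h
    rw [not_or] at h
    refine hcm s hs' x (hR' x hx) t ht' ?_ ?_ hst'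
    · rw [same' x hx, G.adj_comm]
      exact h.1
    · rw [same x hx]
      exact h.2
  -- transitivity for other vertices
  have tr : ∀ x ∈ X, ∀ y ∈ X, ∀ z ∈ R.erase u, ¬ G.Adj x y → ¬ G.Adj y z → ¬ G.Adj x z := by
    intro x hx y hy z hz h2 h3
    rw [← same x hx z]
    exact hcm x (hR' x hx) y (hR' y hy) z hz (by rwa [same x hx]) (by rwa [same y hy])
  have tr' : ∀ x ∈ X, ∀ y ∈ X, ∀ z ∈ R.erase u, ¬ G.Adj x z → ¬ G.Adj y z → ¬ G.Adj x y := by
    intro x hx y hy z hz h2 h3
    rw [← same x hx y]
    exact hcm x (hR' x hx) z hz y (hR' y hy) (by rwa [same x hx]) (by rwa [same' y hy, G.adj_comm])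
  have mX : ∀ x ∈ X, x ∈ R := fun x hx => mem_of_mem_erase (hR' x hx)
  -- no vertex adjacent to both together with a vertex adjacent to only one
  have hO1 : ∀ o ∈ X, ∀ x ∈ X, G.Adj o s → G.Adj o t → G.Adj x s ∧ G.Adj x t := by
    intro o ho x hx hos hot
    by_contra hne
    rcases h1 x hx with h2 | h2
    · -- `x ~ s` only
      have h3 : ¬ G.Adj x t := fun h => hne ⟨h2, h⟩
      have hox : G.Adj o x := by
        by_contra h
        exact tr o ho x hx t ht' h h3 hot
      exact hI (paw_of hs (mX o ho) (mX x hx) hu hos.symm h2.symm hox hus.symm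
        (fun h => hux o ho h.symm) (fun h => hux x hx h.symm))
    · have h3 : ¬ G.Adj x s := fun h => hne ⟨h, h2⟩
      have hox : G.Adj o x := by
        by_contra h
        exact tr o ho x hx s hs' h h3 hos
      exact hI (paw_of ht (mX o ho) (mX x hx) hu hot.symm h2.symm hox hut.symm
        (fun h => hux o ho h.symm) (fun h => hux x hx h.symm))
  have hO2 : ∀ o ∈ X, ∀ o' ∈ X, G.Adj o s → G.Adj o' s → G.Adj o t → ¬ G.Adj o o' := by
    intro o ho o' ho' h2 h3 _ h4
    exact hI (paw_of hs (mX o ho) (mX o' ho') hu h2.symm h3.symm h4 hus.symm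
        (fun h => hux o ho h.symm) (fun h => hux o' ho' h.symm))
  have cover : ∀ x ∈ R, x = u ∨ x = s ∨ x = t ∨ x ∈ X := by
    intro x hx
    by_cases e1 : x = u
    · exact Or.inl e1
    by_cases e2 : x = s
    · exact Or.inr (Or.inl e2)
    by_cases e3 : x = t
    · exact Or.inr (Or.inr (Or.inl e3))
    · exact Or.inr (Or.inr (Or.inr ((memX x).2 ⟨e3, e2, e1, hx⟩)))
  by_cases hO : ∃ o ∈ X, G.Adj o s ∧ G.Adj o t
  · -- complete bipartite
    obtain ⟨o, ho, hos, hot⟩ := hO
    have hall : ∀ x ∈ X, G.Adj x s ∧ G.Adj x t := fun x hx => hO1 o ho x hx hos hot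
    have hind : ∀ x ∈ X, ∀ y ∈ X, ¬ G.Adj x y := fun x hx y hy =>
      hO2 x hx y hy (hall x hx).1 (hall y hy).1 (hall x hx).2
    apply hCM
    have side : ∀ x ∈ R, ∀ y ∈ R, (G.Adj x y ↔ ¬ ((x = s ∨ x = t) ↔ (y = s ∨ y = t))) := by
      intro x hx y hy
      have hsX : ∀ z ∈ X, ¬ (z = s ∨ z = t) := fun z hz h => by
        obtain ⟨h1, h2, -, -⟩ := (memX z).1 hz
        rcases h with h | h
        · exact h2 h
        · exact h1 h
      have huS : ¬ (u = s ∨ u = t) := by
        rintro (h | h)
        · exact hus.ne h
        · exact hut.ne h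
      rcases cover x hx with rfl | rfl | rfl | hxX <;> rcases cover y hy with rfl | rfl | rfl | hyX
      · simp
      · simp [hus, huS]
      · simp [hut, huS]
      · simp [huS, hsX y hyX, hux y hyX]
      · simp [hus.symm, huS]
      · simp
      · simp [hn]
      · simp [hsX y hyX, (hall y hyX).1.symm]
      · simp [hut.symm, huS]
      · have hn' : ¬ G.Adj x y := fun h => hn h.symm
        simp [hn']
      · simp
      · simp [hsX y hyX, (hall y hyX).2.symm]
      · have hn' : ¬ G.Adj x y := fun h => hux x hxX h.symm
        simp [huS, hsX x hxX, hn']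
      · simp [hsX x hxX, (hall x hxX).1]
      · simp [hsX x hxX, (hall x hxX).2]
      · simp [hsX x hxX, hsX y hyX, hind x hxX y hyX]
    intro p hp q hq r hr hpq hqr
    rw [side p hp q hq, not_not] at hpq
    rw [side q hq r hr, not_not] at hqr
    rw [side p hp r hr, not_not]
    exact hpq.trans hqr
  · -- every other vertex is adjacent to exactly one of `s`, `t`
    have hone : ∀ x ∈ X, G.Adj x s → ¬ G.Adj x t := fun x hx h2 h3 => hO ⟨x, hx, h2, h3⟩
    -- at most one of each kind
    have hTone : ∀ x ∈ X, ∀ y ∈ X, ∀ z ∈ X, G.Adj x s → G.Adj y s → G.Adj z t → x = y := by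
      intro x hx y hy z hz h2 h3 h4
      by_contra hxy
      have g1 := hone x hx h2
      have g2 := hone y hy h3
      have g3 : ¬ G.Adj z s := fun h => hone z hz h h4
      have g4 : ¬ G.Adj x y := tr' x hx y hy t ht' g1 g2
      have g5 : G.Adj z x := by
        by_contra h
        exact tr z hz x hx t ht' h g1 h4
      have g6 : G.Adj z y := by
        by_contra h
        exact tr z hz y hy t ht' h g2 h4
      -- cycle `z x s y`, pendant `t` at `z`
      exact hI (banner_of (x := z) (y := x) (z := s) (w := y) (p := t) (mX z hz) (mX x hx) hs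
        (mX y hy) ht g5 h2 h3.symm g6.symm g3 g4 h4 g1 hn g2 hxy)
    have hSone : ∀ x ∈ X, ∀ y ∈ X, ∀ z ∈ X, G.Adj x t → G.Adj y t → G.Adj z s → x = y := by
      intro x hx y hy z hz h2 h3 h4
      by_contra hxy
      have g1 : ¬ G.Adj x s := fun h => hone x hx h h2
      have g2 : ¬ G.Adj y s := fun h => hone y hy h h3
      have g3 := hone z hz h4
      have g4 : ¬ G.Adj x y := tr' x hx y hy s hs' g1 g2
      have g5 : G.Adj z x := by
        by_contra h
        exact tr z hz x hx s hs' h g1 h4
      have g6 : G.Adj z y := by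
        by_contra h
        exact tr z hz y hy s hs' h g2 h4
      exact hI (banner_of (x := z) (y := x) (z := t) (w := y) (p := s) (mX z hz) (mX x hx) ht
        (mX y hy) hs g5 h2 h3.symm g6.symm g3 g4 h4 g1 (fun h => hn h.symm) g2 hxy)
    by_cases hT : ∃ x ∈ X, G.Adj x s
    · by_cases hS : ∃ y ∈ X, G.Adj y t
      · -- the 5-cycle
        obtain ⟨x, hx, hxs⟩ := hT
        obtain ⟨y, hy, hyt⟩ := hS
        apply hD2
        have hXeq : ∀ z ∈ X, z = x ∨ z = y := by
          intro z hz
          rcases h1 z hz with h | h
          · exact Or.inl (hTone z hz x hx y hy h hxs hyt)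
          · exact Or.inr (hSone z hz y hy x hx h hyt hxs)
        have hxt := hone x hx hxs
        have hys : ¬ G.Adj y s := fun h => hone y hy h hyt
        have two : ∀ c d e : V, (∀ z ∈ R, G.Adj c z → z = d ∨ z = e) →
            (R.filter (fun z => G.Adj c z)).card ≤ 2 := by
          intro c d e h
          refine (card_le_card (t := {d, e}) ?_).trans (card_le_two)
          intro z hz
          obtain ⟨h3, h4⟩ := mem_filter.1 hz
          simpa using h z h3 h4
        intro c hc
        rcases cover c hc with rfl | rfl | rfl | hcX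
        · exact two _ s t (fun z hz h => (hd z hz).1 h)
        · refine two _ u x (fun z hz h => ?_)
          rcases cover z hz with rfl | rfl | rfl | hzX
          · exact Or.inl rfl
          · exact absurd rfl h.ne
          · exact absurd h hn
          · rcases hXeq z hzX with rfl | rfl
            · exact Or.inr rfl
            · exact absurd h.symm hys
        · refine two _ u y (fun z hz h => ?_)
          rcases cover z hz with rfl | rfl | rfl | hzX
          · exact Or.inl rfl
          · exact absurd h.symm hn
          · exact absurd rfl h.ne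
          · rcases hXeq z hzX with rfl | rfl
            · exact absurd h.symm hxt
            · exact Or.inr rfl
        · rcases hXeq c hcX with rfl | rfl
          · refine two _ s y (fun z hz h => ?_)
            rcases cover z hz with rfl | rfl | rfl | hzX
            · exact absurd h.symm (hux _ hcX)
            · exact Or.inl rfl
            · exact absurd h hxt
            · rcases hXeq z hzX with rfl | rfl
              · exact absurd rfl h.ne
              · exact Or.inr rfl
          · refine two _ t x (fun z hz h => ?_)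
            rcases cover z hz with rfl | rfl | rfl | hzX
            · exact absurd h.symm (hux _ hcX)
            · exact absurd h hys
            · exact Or.inl rfl
            · rcases hXeq z hzX with rfl | rfl
              · exact Or.inr rfl
              · exact absurd rfl h.ne
      · -- star with centre `s`
        have hnt : ∀ z ∈ X, ¬ G.Adj z t := fun z hz h => hS ⟨z, hz, h⟩
        refine star_cyc (c := s) ?_ hcyc
        intro x hx y hy hxs hys hxy
        have cov' : ∀ z ∈ R.erase u, z ≠ s → z = t ∨ z ∈ X := by
          intro z hz hzs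
          obtain ⟨e1, e2⟩ := mem_erase.1 hz
          rcases cover z e2 with h | h | h | h
          · exact absurd h e1
          · exact absurd h hzs
          · exact Or.inl h
          · exact Or.inr h
        rcases cov' x hx hxs with rfl | hxX <;> rcases cov' y hy hys with rfl | hyX
        · exact absurd rfl hxy.ne
        · rw [same' y hyX] at hxy
          exact hnt y hyX hxy.symm
        · rw [same x hxX] at hxy
          exact hnt x hxX hxy
        · rw [same x hxX] at hxy
          exact tr' x hxX y hyX t ht' (hnt x hxX) (hnt y hyX) hxy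
    · -- star with centre `t`
      have hns : ∀ z ∈ X, ¬ G.Adj z s := fun z hz h => hT ⟨z, hz, h⟩
      refine star_cyc (c := t) ?_ hcyc
      intro x hx y hy hxs hys hxy
      have cov' : ∀ z ∈ R.erase u, z ≠ t → z = s ∨ z ∈ X := by
        intro z hz hzs
        obtain ⟨e1, e2⟩ := mem_erase.1 hz
        rcases cover z e2 with h | h | h | h
        · exact absurd h e1
        · exact Or.inl h
        · exact absurd h hzs
        · exact Or.inr h
      rcases cov' x hx hxs with rfl | hxX <;> rcases cov' y hy hys with rfl | hyX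
      · exact absurd rfl hxy.ne
      · rw [same' y hyX] at hxy
        exact hns y hyX hxy.symm
      · rw [same x hxX] at hxy
        exact hns x hxX hxy
      · rw [same x hxX] at hxy
        exact tr' x hxX y hyX s hs' (hns x hxX) (hns y hyX) hxy

/-- adding a vertex to a complete multipartite graph with a cycle -/
lemma cmB {R : Finset V} {u v a b z : V} (hu : u ∈ R) (hcm : CM G (R.erase u))
    (hcyc : Cyc G (R.erase u) v a b) (hz : z ∈ R.erase u) (huz : G.Adj u z) :
    ITMon paw G R ∨ CM G R := by
  by_contra hcon
  rw [not_or] at hcon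
  obtain ⟨hI, hCM⟩ := hcon
  have mR : ∀ x ∈ R.erase u, x ∈ R := fun x hx => mem_of_mem_erase hx
  -- every edge of `R.erase u` has an end adjacent to `u`
  have h1 : ∀ p ∈ R.erase u, ∀ r ∈ R.erase u, G.Adj p r → G.Adj u p ∨ G.Adj u r := by
    -- auxiliary: `z ~ p`, `z` not adjacent to `r`
    have aux : ∀ p ∈ R.erase u, ∀ r ∈ R.erase u, G.Adj p r → ¬ G.Adj u p → ¬ G.Adj u r →
        G.Adj z p → ¬ G.Adj z r → False := by
      intro p hp r hr hpr hup hur hzp hzr
      by_cases hthird : ∃ w ∈ R.erase u, G.Adj w z ∧ G.Adj w p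
      · obtain ⟨w, hw, hwz, hwp⟩ := hthird
        have hwr : G.Adj w r := by
          by_contra h
          exact hcm w hw r hr z hz h (fun h' => hzr h'.symm) hwz
        by_cases huw : G.Adj u w
        · exact hI (paw_of (mR w hw) (mR p hp) (mR r hr) hu hwp hwr hpr huw.symm
            (fun h => hup h.symm) (fun h => hur h.symm))
        · exact hI (paw_of (mR z hz) (mR w hw) (mR p hp) hu hwz.symm hzp hwp huz.symm
            (fun h => huw h.symm) (fun h => hup h.symm))
      · -- complete bipartite
        have hbip : ∀ w ∈ R.erase u, ¬ G.Adj w z ∨ ¬ G.Adj w p := by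
          intro w hw
          by_contra h
          rw [not_or, not_not, not_not] at h
          exact hthird ⟨w, hw, h⟩
        by_cases hp' : ∃ p' ∈ R.erase u, p' ≠ p ∧ G.Adj p' z
        · obtain ⟨p', hp'R, hpp, hp'z⟩ := hp'
          have hp'p : ¬ G.Adj p' p := by
            rcases hbip p' hp'R with h | h
            · exact absurd hp'z h
            · exact h
          have hp'r : G.Adj p' r := by
            by_contra h
            exact hcm p' hp'R r hr z hz h (fun h' => hzr h'.symm) hp'z
          by_cases hup' : G.Adj u p'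
          · exact hI (paw_of (mR z hz) hu (mR p' hp'R) (mR p hp) huz.symm hp'z.symm hup' hzp hup
              hp'p)
          · exact hI (banner_of (x := z) (y := p) (z := r) (w := p') (p := u) (mR z hz) (mR p hp)
              (mR r hr) (mR p' hp'R) hu hzp hpr hp'r.symm hp'z hzr (fun h => hp'p h.symm)
              huz.symm (fun h => hup h.symm) (fun h => hur h.symm) (fun h => hup' h.symm)
              hpp.symm)
        · -- star with centre `p`
          refine star_cyc (c := p) ?_ hcyc
          have hnz : ∀ w ∈ R.erase u, w ≠ p → ¬ G.Adj w z := fun w hw hwp h => hp' ⟨w, hw, hwp, h⟩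
          intro x hx y hy hxp hyp hxy
          exact hcm x hx z hz y hy (hnz x hx hxp) (fun h => hnz y hy hyp h.symm) hxy
    intro p hp r hr hpr
    by_contra h
    rw [not_or] at h
    obtain ⟨hup, hur⟩ := h
    by_cases hzp : G.Adj z p
    · by_cases hzr : G.Adj z r
      · exact hI (paw_of (mR z hz) (mR p hp) (mR r hr) hu hzp hzr hpr huz.symm
          (fun h => hup h.symm) (fun h => hur h.symm))
      · exact aux p hp r hr hpr hup hur hzp hzr
    · by_cases hzr : G.Adj z r
      · exact aux r hr p hp hpr.symm hur hup hzr hzp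
      · exact hcm p hp z hz r hr (fun h => hzp h.symm) hzr hpr
  -- nonadjacent vertices have the same adjacency to `u`
  have h2 : ∀ q ∈ R.erase u, ∀ r ∈ R.erase u, ¬ G.Adj q r → G.Adj u r → G.Adj u q := by
    intro q hq r hr hqr hur
    by_contra huq
    -- `q` has a neighbour
    have hnb : ∃ p ∈ R.erase u, G.Adj q p := by
      obtain ⟨hv, hcn, ha, hb, hab, hva, hvb⟩ := hcyc
      by_cases hqv : q = v
      · exact ⟨a, ha, hqv ▸ hva⟩
      · by_cases hqa : q = a
        · exact ⟨v, hv, hqa ▸ hva.symm⟩
        · obtain ⟨x, hx, -, hqx⟩ := cn_nb hcn (mem_erase.2 ⟨hqv, hq⟩)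
            (mem_erase.2 ⟨hva.ne', ha⟩) hqa
          exact ⟨x, mem_of_mem_erase hx, hqx⟩
    obtain ⟨p, hp, hqp⟩ := hnb
    have hup : G.Adj u p := (h1 q hq p hp hqp).resolve_left huq
    have hpr : G.Adj p r := by
      by_contra h
      exact hcm p hp r hr q hq h (fun h' => hqr h'.symm) hqp.symm
    exact hI (paw_of (mR p hp) hu (mR r hr) (mR q hq) hup.symm hpr hur hqp.symm huq
      (fun h => hqr h.symm))
  apply hCM
  intro p hp q hq r hr hpq hqr hpr
  by_cases hpu : p = u
  · subst hpu
    have hq' : q ≠ p := by
      rintro rfl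
      exact hqr hpr
    have hr' : r ≠ p := hpr.ne'
    exact hpq (h2 q (mem_erase.2 ⟨hq', hq⟩) r (mem_erase.2 ⟨hr', hr⟩) hqr hpr)
  · by_cases hru : r = u
    · subst hru
      have hq' : q ≠ r := by
        rintro rfl
        exact hpq hpr
      exact hqr (h2 q (mem_erase.2 ⟨hq', hq⟩) p (mem_erase.2 ⟨hpu, hp⟩) (fun h => hpq h.symm)
        hpr.symm).symm
    · by_cases hqu : q = u
      · subst hqu
        rcases h1 p (mem_erase.2 ⟨hpu, hp⟩) r (mem_erase.2 ⟨hru, hr⟩) hpr with h | h
        · exact hpq h.symm
        · exact hqr h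
      · exact hcm p (mem_erase.2 ⟨hpu, hp⟩) q (mem_erase.2 ⟨hqu, hq⟩) r (mem_erase.2 ⟨hru, hr⟩)
          hpq hqr hpr

/-- an end vertex of a path-like set has exactly one neighbour -/
lemma end_nb {K : Finset V} {a b c : V} (hK : Cn G K) (ha : a ∈ K) (hb : b ∈ K) (hab : a ≠ b)
    (hc : c ∈ K) (hca : c ≠ a) (hcb : c ≠ b) (hcna : Cn G (K.erase a))
    (hnc : ∀ d ∈ K, Cn G (K.erase d) → d = a ∨ d = b) :
    ∃ z ∈ K, z ≠ a ∧ z ≠ b ∧ G.Adj a z ∧ ∀ d ∈ K, G.Adj a d → d = z := by
  have hbKa : b ∈ K.erase a := mem_erase.2 ⟨hab.symm, hb⟩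
  obtain ⟨z', hz', hzb, hcz⟩ := hcna.leaf_ne hbKa (by
    intro h
    have : c ∈ K.erase a := mem_erase.2 ⟨hca, hc⟩
    rw [h, mem_singleton] at this
    exact hcb this)
  obtain ⟨hza, hzK'⟩ := mem_erase.1 hz'
  have honly : ∀ d ∈ K, G.Adj a d → d = z' := by
    intro d hd had
    by_contra hdz
    have h1 : d ∈ (K.erase a).erase z' := mem_erase.2 ⟨hdz, mem_erase.2 ⟨had.ne', hd⟩⟩
    have h2 := cn_insert hcz h1 had
    have h3 : insert a ((K.erase a).erase z') = K.erase z' := by
      ext e
      simp only [mem_insert, mem_erase, ne_eq]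
      constructor
      · rintro (rfl | h)
        · exact ⟨hza.symm, ha⟩
        · exact ⟨h.1, h.2.2⟩
      · rintro ⟨h4, h5⟩
        by_cases hea : e = a
        · exact Or.inl hea
        · exact Or.inr ⟨h4, hea, h5⟩
    rw [h3] at h2
    rcases hnc z' hzK' h2 with h | h
    · exact hza h
    · exact hzb h
  refine ⟨z', hzK', hza, hzb, ?_, honly⟩
  obtain ⟨d, hd, hda, had⟩ := cn_nb hK ha hb hab
  rwa [honly d hd had] at had

/-- a set closed under neighbours in a connected set is everything -/
lemma cn_closed {K S : Finset V} (hK : Cn G K) (hS : S ⊆ K) (hne : S.Nonempty)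
    (h : ∀ x ∈ S, ∀ y ∈ K, G.Adj x y → y ∈ S) : K = S := by
  by_contra hcon
  obtain ⟨x, hx, y, hy, hxy⟩ := hK.2 S hS hne (by
    rw [sdiff_nonempty]
    exact fun h' => hcon (subset_antisymm h' hS))
  obtain ⟨h1, h2⟩ := mem_sdiff.1 hy
  exact h2 (h x hx y h1 hxy)

/-- Structure of graphs without the paw as an induced topological minor. -/
theorem paw_core : ∀ (n : ℕ) (G : SimpleGraph V) (R : Finset V) (v a b : V), R.card ≤ n →
    Cyc G R v a b → ITMon paw G R ∨ Deg2 G R ∨ CM G R := by
  intro n
  induction n with
  | zero =>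
    intro G R v a b hn hyp
    rw [Nat.le_zero, card_eq_zero] at hn
    have := hyp.1
    rw [hn] at this
    exact absurd this (notMem_empty _)
  | succ n ih =>
    intro G R v a b hn hyp
    by_contra hcon
    rw [not_or, not_or] at hcon
    obtain ⟨hI, hD2, hCM⟩ := hcon
    obtain ⟨hv, hcn, ha, hb, hab, hva, hvb⟩ := hyp
    -- suppression
    have hsup : ∀ u ∈ R.erase v, ∀ s ∈ R, ∀ t ∈ R, s ≠ t → ¬ G.Adj s t →
        ¬ (∀ w ∈ R, G.Adj u w ↔ w = s ∨ w = t) := by
      intro u hu s hs t ht hst hnst hd
      obtain ⟨huv, huR⟩ := mem_erase.1 hu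
      have hus : G.Adj u s := (hd s hs).2 (Or.inl rfl)
      have hut : G.Adj u t := (hd t ht).2 (Or.inr rfl)
      have hcn' : Cn (addE G s t) ((R.erase u).erase v) := by
        rw [erase_right_comm]
        refine cn_erase hcn hu ?_ (fun x _ y _ h => le_addE h) ?_
        · by_cases hsv : s = v
          · exact ⟨t, mem_erase.2 ⟨hut.ne', mem_erase.2 ⟨fun h => hst (hsv.trans h.symm), ht⟩⟩⟩
          · exact ⟨s, mem_erase.2 ⟨hus.ne', mem_erase.2 ⟨hsv, hs⟩⟩⟩
        · intro x hx y hy hux huy
          have hx' := mem_of_mem_erase (mem_of_mem_erase hx)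
          have hy' := mem_of_mem_erase (mem_of_mem_erase hy)
          by_cases hxy : x = y
          · exact Or.inl hxy
          · refine Or.inr (Or.inr ⟨hxy, ?_⟩)
            rcases (hd x hx').1 hux with h1 | h1 <;> rcases (hd y hy').1 huy with h2 | h2
            · exact absurd (h1.trans h2.symm) hxy
            · exact Or.inl ⟨h1, h2⟩
            · exact Or.inr ⟨h1, h2⟩
            · exact absurd (h1.trans h2.symm) hxy
      -- two neighbours of `v` in the reduced graph
      have htwo : ∃ a' b', Cyc (addE G s t) (R.erase u) v a' b' := by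
        have hvR : v ∈ R.erase u := mem_erase.2 ⟨huv.symm, hv⟩
        -- the case that `u` is one of the neighbours
        have aux : ∀ p q : V, p ∈ R → q ∈ R → p ≠ q → G.Adj v p → G.Adj v q → u = p →
            ∃ a' b', Cyc (addE G s t) (R.erase u) v a' b' := by
          intro p q hp hq hpq hvp hvq hup
          subst hup
          rcases (hd v hv).1 hvp.symm with h | h
          · subst h
            refine ⟨t, q, hvR, hcn', mem_erase.2 ⟨hut.ne', ht⟩, mem_erase.2 ⟨hpq.symm, hq⟩, ?_,
              Or.inr ⟨hst, Or.inl ⟨rfl, rfl⟩⟩, le_addE hvq⟩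
            rintro rfl
            exact hnst hvq
          · subst h
            refine ⟨s, q, hvR, hcn', mem_erase.2 ⟨hus.ne', hs⟩, mem_erase.2 ⟨hpq.symm, hq⟩, ?_,
              Or.inr ⟨hst.symm, Or.inr ⟨rfl, rfl⟩⟩, le_addE hvq⟩
            rintro rfl
            exact hnst hvq.symm
        by_cases hua : u = a
        · exact aux a b ha hb hab hva hvb hua
        · by_cases hub : u = b
          · exact aux b a hb ha hab.symm hvb hva hub
          · exact ⟨a, b, hvR, hcn', mem_erase.2 ⟨Ne.symm hua, ha⟩, mem_erase.2 ⟨Ne.symm hub, hb⟩,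
              hab, le_addE hva, le_addE hvb⟩
      obtain ⟨a', b', hcyc⟩ := htwo
      rcases ih (addE G s t) (R.erase u) v a' b' (by
        rw [card_erase_of_mem huR]
        omega) hcyc with h | h | h
      · exact hI (h.suppress huR hs ht hst hnst hd)
      · apply hD2
        -- degrees
        have hdeg : ∀ p q : V, p ∈ R → q ∈ R → p ≠ q → ¬ G.Adj p q → (addE G s t).Adj p q → 
            p ≠ u → q ≠ u → (R.filter (fun y => G.Adj p y)).card ≤ 2 := by
          intro p q hp hq hpq hnpq hpq' hpu hqu
          have hsub : R.filter (fun y => G.Adj p y) ⊆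
              insert u ((((R.erase u)).filter (fun y => (addE G s t).Adj p y)).erase q) := by
            intro y hy
            obtain ⟨h1, h2⟩ := mem_filter.1 hy
            by_cases hyu : y = u
            · rw [hyu]
              exact mem_insert_self _ _
            · refine mem_insert_of_mem (mem_erase.2 ⟨?_, mem_filter.2 ⟨mem_erase.2 ⟨hyu, h1⟩,
                le_addE h2⟩⟩)
              rintro rfl
              exact hnpq h2
          have h3 := h p (mem_erase.2 ⟨hpu, hp⟩)
          have h4 : q ∈ (R.erase u).filter (fun y => (addE G s t).Adj p y) :=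
            mem_filter.2 ⟨mem_erase.2 ⟨hqu, hq⟩, hpq'⟩
          have h5 := (card_le_card hsub).trans (card_insert_le _ _)
          rw [card_erase_of_mem h4] at h5
          have h6 := card_pos.2 ⟨q, h4⟩
          omega
        intro x hx
        by_cases hxu : x = u
        · subst hxu
          refine (card_le_card (t := {s, t}) ?_).trans card_le_two
          intro z hz
          obtain ⟨h3, h4⟩ := mem_filter.1 hz
          simpa using (hd z h3).1 h4
        · by_cases hxs : x = s
          · subst hxs
            exact hdeg x t hs ht hst hnst (Or.inr ⟨hst, Or.inl ⟨rfl, rfl⟩⟩) hxu hut.ne'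
          · by_cases hxt : x = t
            · subst hxt
              exact hdeg x s ht hs hst.symm (fun h => hnst h.symm)
                (Or.inr ⟨hst.symm, Or.inr ⟨rfl, rfl⟩⟩) hxu hus.ne'
            · refine (card_le_card ?_).trans (h x (mem_erase.2 ⟨hxu, hx⟩))
              intro y hy
              obtain ⟨h1, h2⟩ := mem_filter.1 hy
              refine mem_filter.2 ⟨mem_erase.2 ⟨?_, h1⟩, le_addE h2⟩
              rintro rfl
              rcases (hd x hx).1 h2.symm with h | h
              · exact hxs h
              · exact hxt h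
      · rcases cmA huR hs ht hst hnst hd h hcyc with h | h | h
        · exact hI h
        · exact hD2 h
        · exact hCM h
    -- deletion
    have hdelcm : ∀ u ∈ R.erase v, ∀ a' b' : V, Cyc G (R.erase u) v a' b' →
        CM G (R.erase u) → False := by
      intro u hu a' b' hcyc hcm
      obtain ⟨huv, huR⟩ := mem_erase.1 hu
      -- `u` has a neighbour
      obtain ⟨hv', hcn', ha', hb', hab', hva', hvb'⟩ := hcyc
      obtain ⟨z, hz, hzu, huz⟩ := cn_nb hcn hu (mem_erase.2 ⟨hva'.ne', mem_of_mem_erase ha'⟩)
        (ne_of_mem_erase ha').symm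
      rcases cmB huR hcm ⟨hv', hcn', ha', hb', hab', hva', hvb'⟩
        (mem_erase.2 ⟨hzu, mem_of_mem_erase hz⟩) huz with h | h
      · exact hI h
      · exact hCM h
    have hdel : ∀ u ∈ R.erase v, Cn G ((R.erase v).erase u) → ∀ a' b' : V, a' ∈ R.erase u →
        b' ∈ R.erase u → a' ≠ b' → G.Adj v a' → G.Adj v b' → False := by
      intro u hu hcu a' b' ha' hb' hab' hva' hvb'
      obtain ⟨huv, huR⟩ := mem_erase.1 hu
      have hvR : v ∈ R.erase u := mem_erase.2 ⟨huv.symm, hv⟩
      have hcn1 : Cn G ((R.erase u).erase v) := by rwa [erase_right_comm]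
      have hcyc : Cyc G (R.erase u) v a' b' := ⟨hvR, hcn1, ha', hb', hab', hva', hvb'⟩
      rcases ih G (R.erase u) v a' b' (by
        rw [card_erase_of_mem huR]
        omega) hcyc with h | h | h
      · exact hI (h.mono (erase_subset _ _))
      · -- all degrees in `R.erase u` are at most two
        apply hdelcm u hu a' b' hcyc
        set R1 := R.erase u with hR1
        have hR1R : ∀ x ∈ R1, x ∈ R := fun x hx => mem_of_mem_erase hx
        have hR1u : ∀ x ∈ R1, x ≠ u := fun x hx => ne_of_mem_erase hx
        have hmk : ∀ x ∈ R, x ≠ u → x ∈ R1 := fun x hx hxu => mem_erase.2 ⟨hxu, hx⟩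
        clear_value R1
        -- neighbours of a vertex with two known neighbours
        have nb2 : ∀ x ∈ R1, ∀ y ∈ R1, ∀ z ∈ R1, y ≠ z → G.Adj x y → G.Adj x z →
            ∀ w ∈ R1, G.Adj x w → w = y ∨ w = z := by
          intro x hx y hy z hz hyz hxy hxz w hw hxw
          by_contra hcon
          rw [not_or] at hcon
          have h3 : ({w, y, z} : Finset V) ⊆ R1.filter (fun w => G.Adj x w) := by
            intro e he
            simp only [mem_insert, mem_singleton] at he
            rcases he with rfl | rfl | rfl
            · exact mem_filter.2 ⟨hw, hxw⟩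
            · exact mem_filter.2 ⟨hy, hxy⟩
            · exact mem_filter.2 ⟨hz, hxz⟩
          have h4 := (card_le_card h3).trans (h x hx)
          rw [card_eq_three.2 ⟨w, y, z, hcon.1, hcon.2, hyz, rfl⟩] at h4
          omega
        -- the next vertex
        have next : ∀ p q : V, p ∈ R1 → q ∈ R1 → p ≠ q → G.Adj v p → G.Adj v q →
            ∃ y ∈ R1, y ≠ v ∧ y ≠ p ∧ G.Adj p y ∧ ∀ w ∈ R1, G.Adj p w → w = v ∨ w = y := by
          intro p q hp hq hpq hvp hvq
          obtain ⟨y, hy, hyp, hpy⟩ := cn_nb hcn1 (mem_erase.2 ⟨hvp.ne', hp⟩)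
            (mem_erase.2 ⟨hvq.ne', hq⟩) hpq
          obtain ⟨hyv, hyR⟩ := mem_erase.1 hy
          exact ⟨y, hyR, hyv, hyp, hpy, nb2 p hp v hvR y hyR hyv.symm hvp.symm hpy⟩
        obtain ⟨y, hy, hyv, hyp, hpy, hNa⟩ := next a' b' ha' hb' hab' hva' hvb'
        obtain ⟨y', hy', hyv', hyp', hpy', hNb⟩ := next b' a' hb' ha' hab'.symm hvb' hva'
        have hNv := nb2 v hvR a' ha' b' hb' hab' hva' hvb'
        by_cases hyb : y = b'
        · -- triangle
          subst hyb
          have hy'a : y' = a' := by
            rcases hNb a' ha' hpy.symm with h' | h'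
            · exact absurd h' hva'.ne'
            · exact h'.symm
          subst hy'a
          have hK1 : R1.erase v = {y', y} := by
            apply cn_closed hcn1
            · intro x hx
              simp only [mem_insert, mem_singleton] at hx
              rcases hx with rfl | rfl
              · exact mem_erase.2 ⟨hva'.ne', ha'⟩
              · exact mem_erase.2 ⟨hyv, hy⟩
            · exact ⟨y', by simp⟩
            · intro x hx w hw hxw
              obtain ⟨hwv, hwR⟩ := mem_erase.1 hw
              simp only [mem_insert, mem_singleton] at hx ⊢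
              rcases hx with rfl | rfl
              · exact Or.inr ((hNa w hwR hxw).resolve_left hwv)
              · exact Or.inl ((hNb w hwR hxw).resolve_left hwv)
          have hR1' : ∀ x ∈ R1, x = v ∨ x = y' ∨ x = y := by
            intro x hx
            by_cases hxv : x = v
            · exact Or.inl hxv
            · have : x ∈ R1.erase v := mem_erase.2 ⟨hxv, hx⟩
              rw [hK1] at this
              simp only [mem_insert, mem_singleton] at this
              exact Or.inr this
          have hall : ∀ p ∈ R1, ∀ q ∈ R1, p ≠ q → G.Adj p q := by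
            intro p hp q hq hpq
            rcases hR1' p hp with rfl | rfl | rfl <;> rcases hR1' q hq with rfl | rfl | rfl
            · exact absurd rfl hpq
            · exact hva'
            · exact hvb'
            · exact hva'.symm
            · exact absurd rfl hpq
            · exact hpy
            · exact hvb'.symm
            · exact hpy.symm
            · exact absurd rfl hpq
          intro p hp q hq r hr hpq hqr
          have e1 : p = q := by
            by_contra h'
            exact hpq (hall p hp q hq h')
          rw [e1]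
          exact hqr
        · -- `a'` is not adjacent to `b'`
          have hab2 : ¬ G.Adj a' b' := by
            intro h'
            rcases hNa b' hb' h' with h'' | h''
            · exact hvb'.ne' h''
            · exact hyb h''.symm
          have hvy : ¬ G.Adj v y := by
            intro h'
            rcases hNv y hy h' with h'' | h''
            · exact hyp h''
            · exact hyb h''
          have hy'a : y' ≠ a' := by
            rintro rfl
            exact hab2 hpy'.symm
          have hvy' : ¬ G.Adj v y' := by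
            intro h'
            rcases hNv y' hy' h' with h'' | h''
            · exact hy'a h''
            · exact hyp' h''
          -- vertices other than `v` with two nonadjacent neighbours are adjacent to `u`
          have hsu : ∀ p ∈ R1, p ≠ v → ∀ s ∈ R1, ∀ t ∈ R1, s ≠ t → ¬ G.Adj s t → G.Adj p s →
              G.Adj p t → G.Adj u p := by
            intro p hp hpv s hs t ht hst hnst hps hpt
            by_contra hup
            refine hsup p (mem_erase.2 ⟨hpv, hR1R p hp⟩) s (hR1R s hs) t (hR1R t ht) hst hnst ?_
            intro w hw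
            constructor
            · intro hpw
              have hwu : w ≠ u := by
                rintro rfl
                exact hup hpw.symm
              exact nb2 p hp s hs t ht hst hps hpt w (hmk w hw hwu) hpw
            · rintro (rfl | rfl)
              · exact hps
              · exact hpt
          have hua : G.Adj u a' := hsu a' ha' hva'.ne' v hvR y hy hyv.symm hvy hva'.symm hpy
          have hub : G.Adj u b' := hsu b' hb' hvb'.ne' v hvR y' hy' hyv'.symm hvy' hvb'.symm hpy'
          -- `y` has another neighbour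
          have hy2 : ∃ y2 ∈ R1, y2 ≠ v ∧ y2 ≠ a' ∧ G.Adj y y2 := by
            by_contra hcon
            have hK1 : R1.erase v = {a', y} := by
              apply cn_closed hcn1
              · intro x hx
                simp only [mem_insert, mem_singleton] at hx
                rcases hx with rfl | rfl
                · exact mem_erase.2 ⟨hva'.ne', ha'⟩
                · exact mem_erase.2 ⟨hyv, hy⟩
              · exact ⟨a', by simp⟩
              · intro x hx w hw hxw
                obtain ⟨hwv, hwR⟩ := mem_erase.1 hw
                simp only [mem_insert, mem_singleton] at hx ⊢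
                rcases hx with rfl | rfl
                · exact Or.inr ((hNa w hwR hxw).resolve_left hwv)
                · by_contra hw'
                  rw [not_or] at hw'
                  exact hcon ⟨w, hwR, hwv, hw'.1, hxw⟩
            have : b' ∈ R1.erase v := mem_erase.2 ⟨hvb'.ne', hb'⟩
            rw [hK1] at this
            simp only [mem_insert, mem_singleton] at this
            rcases this with h' | h'
            · exact hab' h'.symm
            · exact hyb h'.symm
          obtain ⟨y2, hy2, hy2v, hy2a, hyy2⟩ := hy2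
          have hay2 : ¬ G.Adj a' y2 := by
            intro h'
            rcases hNa y2 hy2 h' with h'' | h''
            · exact hy2v h''
            · exact hyy2.ne h''.symm
          have huy : G.Adj u y := hsu y hy hyv a' ha' y2 hy2 hy2a.symm hay2 hpy.symm hyy2
          by_cases hyb2 : G.Adj y b'
          · -- the 4-cycle
            have hy'y : y' = y := by
              rcases hNb y hy hyb2.symm with h' | h'
              · exact absurd h' hyv
              · exact h'.symm
            have hNy := nb2 y hy a' ha' b' hb' hab' hpy.symm hyb2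
            have hK1 : R1.erase v = {a', y, b'} := by
              apply cn_closed hcn1
              · intro x hx
                simp only [mem_insert, mem_singleton] at hx
                rcases hx with rfl | rfl | rfl
                · exact mem_erase.2 ⟨hva'.ne', ha'⟩
                · exact mem_erase.2 ⟨hyv, hy⟩
                · exact mem_erase.2 ⟨hvb'.ne', hb'⟩
              · exact ⟨a', by simp⟩
              · intro x hx w hw hxw
                obtain ⟨hwv, hwR⟩ := mem_erase.1 hw
                simp only [mem_insert, mem_singleton] at hx ⊢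
                rcases hx with rfl | rfl | rfl
                · exact Or.inr (Or.inl ((hNa w hwR hxw).resolve_left hwv))
                · rcases hNy w hwR hxw with h' | h'
                  · exact Or.inl h'
                  · exact Or.inr (Or.inr h')
                · have := (hNb w hwR hxw).resolve_left hwv
                  exact Or.inr (Or.inl (this.trans hy'y))
            have hR1' : ∀ x ∈ R1, x = v ∨ x = a' ∨ x = y ∨ x = b' := by
              intro x hx
              by_cases hxv : x = v
              · exact Or.inl hxv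
              · have : x ∈ R1.erase v := mem_erase.2 ⟨hxv, hx⟩
                rw [hK1] at this
                simp only [mem_insert, mem_singleton] at this
                exact Or.inr this
            have side : ∀ p ∈ R1, ∀ q ∈ R1, (G.Adj p q ↔ ¬ ((p = v ∨ p = y) ↔ (q = v ∨ q = y))) := by
              have e1 : ¬ (a' = v ∨ a' = y) := by
                rintro (h' | h')
                · exact hva'.ne' h'
                · exact hpy.ne h'
              have e2 : ¬ (b' = v ∨ b' = y) := by
                rintro (h' | h')
                · exact hvb'.ne' h'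
                · exact hyb h'.symm
              have e3 : ¬ G.Adj y v := fun h' => hvy h'.symm
              have e4 : ¬ G.Adj b' a' := fun h' => hab2 h'.symm
              intro p hp q hq
              rcases hR1' p hp with rfl | rfl | rfl | rfl <;>
                rcases hR1' q hq with rfl | rfl | rfl | rfl <;>
                simp [hva', hvb', hpy, hyb2, hva'.symm, hvb'.symm, hpy.symm, hyb2.symm, e1, e2,
                  e3, e4, hvy, hab2]
            intro p hp q hq r hr hpq hqr
            rw [side p hp q hq, not_not] at hpq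
            rw [side q hq r hr, not_not] at hqr
            rw [side p hp r hr, not_not]
            exact hpq.trans hqr
          · exfalso
            exact hI (paw_of huR (hR1R a' ha') (hR1R y hy) (hR1R b' hb') hua huy hpy hub hab2
              hyb2)
      · exact hdelcm u hu a' b' hcyc h
    -- no vertex can be deleted
    have haK : a ∈ R.erase v := mem_erase.2 ⟨hva.ne', ha⟩
    have hbK : b ∈ R.erase v := mem_erase.2 ⟨hvb.ne', hb⟩
    have hnc : ∀ u ∈ R.erase v, Cn G ((R.erase v).erase u) → u = a ∨ u = b := by
      intro u hu hcu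
      by_contra hcon
      rw [not_or] at hcon
      exact hdel u hu hcu a b (mem_erase.2 ⟨Ne.symm hcon.1, ha⟩)
        (mem_erase.2 ⟨Ne.symm hcon.2, hb⟩) hab hva hvb
    have hcb : Cn G ((R.erase v).erase b) := by
      obtain ⟨u, hu, hua, hcu⟩ := hcn.leaf_ne haK (by
        intro h
        rw [h, mem_singleton] at hbK
        exact hab hbK.symm)
      rcases hnc u hu hcu with h | h
      · exact absurd h hua
      · rwa [h] at hcu
    have hca : Cn G ((R.erase v).erase a) := by
      obtain ⟨u, hu, hub, hcu⟩ := hcn.leaf_ne hbK (by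
        intro h
        rw [h, mem_singleton] at haK
        exact hab haK)
      rcases hnc u hu hcu with h | h
      · rwa [h] at hcu
      · exact absurd h hub
    have hNv : ∀ c ∈ R, G.Adj v c → c = a ∨ c = b := by
      intro c hc hvc
      by_contra hcon
      rw [not_or] at hcon
      exact hdel a haK hca b c (mem_erase.2 ⟨hab.symm, hb⟩) (mem_erase.2 ⟨hcon.1, hc⟩)
        (Ne.symm hcon.2) hvb hvc
    by_cases hthird : ∃ c ∈ R.erase v, c ≠ a ∧ c ≠ b
    · obtain ⟨c, hc, hca', hcb'⟩ := hthird
      obtain ⟨z, hz, hza, hzb, haz, honly⟩ := end_nb hcn haK hbK hab hc hca' hcb' hca hnc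
      obtain ⟨hzv, hzR⟩ := mem_erase.1 hz
      have hvz : ¬ G.Adj v z := by
        intro h
        rcases hNv z hzR h with h | h
        · exact hza h
        · exact hzb h
      refine hsup a haK v hv z hzR hzv.symm hvz ?_
      intro w hw
      constructor
      · intro haw
        by_cases hwv : w = v
        · exact Or.inl hwv
        · exact Or.inr (honly w (mem_erase.2 ⟨hwv, hw⟩) haw)
      · rintro (rfl | rfl)
        · exact hva.symm
        · exact haz
    · -- triangle
      have hK : ∀ c ∈ R.erase v, c = a ∨ c = b := by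
        intro c hc
        by_contra hcon
        rw [not_or] at hcon
        exact hthird ⟨c, hc, hcon⟩
      have hadj : G.Adj a b := by
        obtain ⟨x, hx, hxa, hax⟩ := cn_nb hcn haK hbK hab
        rcases hK x hx with h | h
        · exact absurd h hxa
        · rwa [h] at hax
      have hR' : ∀ x ∈ R, x = v ∨ x = a ∨ x = b := by
        intro x hx
        by_cases hxv : x = v
        · exact Or.inl hxv
        · exact Or.inr (hK x (mem_erase.2 ⟨hxv, hx⟩))
      apply hCM
      have hall : ∀ p ∈ R, ∀ q ∈ R, p ≠ q → G.Adj p q := by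
        intro p hp q hq hpq
        rcases hR' p hp with rfl | rfl | rfl <;> rcases hR' q hq with rfl | rfl | rfl
        · exact absurd rfl hpq
        · exact hva
        · exact hvb
        · exact hva.symm
        · exact absurd rfl hpq
        · exact hadj
        · exact hvb.symm
        · exact hadj.symm
        · exact absurd rfl hpq
      intro p hp q hq r hr hpq hqr
      have e1 : p = q := by
        by_contra h'
        exact hpq (hall p hp q hq h')
      rw [e1]
      exact hqr

end

end Pool.Agent.R36.Itm
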