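import Pool.Agent.H175R2.Blocks
import Pool.Agent.R36.ItmDiamond
import Pool.Agent.R36.ItmPaw

/-!
# Bounded clique-width for three classes defined by an excluded induced topological minor
-/

set_option autoImplicit false

namespace Pool.Agent.R36.Itm

open Finset Classical Pool.Agent.H175R2

/-- Reduction to 2-connected graphs, for hereditary classes (adapted from
`Pool.Agent.H175R2.dt_of_blocks`). -/
theorem dt_of_blocks_her (Pr : ∀ V : Type, SimpleGraph V → Prop)
    (her : ∀ (U V : Type) (e : U ↪ V) (G : SimpleGraph V), Pr V G → Pr U (G.comap e)) (K : ℕ)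
    (h2 : ∀ (V : Type) [Fintype V] (G : SimpleGraph V), TwoConn G → Pr V G → DT G K univ univ) :
    ∀ (n : ℕ) (V : Type) [Fintype V] (G : SimpleGraph V), Fintype.card V ≤ n → Cn G univ →
      Pr V G → DT G (K + 1) univ univ := by
  intro n
  induction n with
  | zero =>
    intro V _ G hn hc _
    obtain ⟨x, _⟩ := hc.1
    have := Fintype.card_pos_iff.2 ⟨x⟩
    omega
  | succ n ih =>
    intro V _ G hn hc hT
    obtain ⟨x0, _⟩ := hc.1
    by_cases h3 : 3 ≤ Fintype.card V
    · by_cases hcut : ∀ v, Cn G (univ.erase v)
      · exact (h2 V G ⟨h3, hc, hcut⟩ hT).mono (by omega)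
      push Not at hcut
      obtain ⟨c0, hc0⟩ := hcut
      -- choose a smallest leaf
      have hex : ((univ : Finset (V × V)).filter (fun p => p.2 ≠ p.1 ∧ ¬ Cn G (univ.erase p.1))).Nonempty := by
        have : 1 < Fintype.card V := by omega
        obtain ⟨y, hy⟩ := Fintype.exists_ne_of_one_lt_card this c0
        exact ⟨(c0, y), by simp [hy, hc0]⟩
      obtain ⟨⟨c, x⟩, hcx, hmin⟩ := exists_min_image _
        (fun p : V × V => (cpt G (univ.erase p.1) p.2).card) hex
      simp only [mem_filter, mem_univ, true_and] at hcx hmin
      obtain ⟨hxc, hcn⟩ := hcx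
      have hxE : x ∈ univ.erase c := mem_erase.2 ⟨hxc, mem_univ _⟩
      set D := cpt G (univ.erase c) x with hD
      have hDc : Cn G D := cn_cpt hxE
      have hcD : c ∉ D := fun h => notMem_erase c univ (cpt_subset h)
      have hDne : ∃ y, y ≠ c ∧ y ∉ D := by
        by_contra hcon
        push Not at hcon
        apply hcn
        apply cn_of_cpt_eq hxE
        apply subset_antisymm cpt_subset
        intro y hy
        exact hcon y (mem_erase.1 hy).1
      have hnb : ∀ a ∈ D, ∀ b, b ∉ D → G.Adj a b → b = c := by
        intro a ha b hb hab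
        by_contra hbc
        exact not_adj_cpt hxE ha (mem_erase.2 ⟨hbc, mem_univ _⟩) hb hab
      have hcD' : Tc G {c} D := by
        obtain ⟨a, ha, b, hb, hab⟩ := hc.2 D (subset_univ _) hDc.1 ⟨c, by simp [hcD]⟩
        have := hnb a ha b (mem_sdiff.1 hb).2 hab
        subst this
        exact ⟨b, by simp, a, ha, hab.symm⟩
      have hR1 : Cn G (D ∪ {c}) := hDc.union (Cn.singleton c) (Or.inl hcD'.symm)
      have hR2 : Cn G (univ \ D) := by
        have hcU : c ∈ univ \ D := by simp [hcD]
        apply cn_of_cpt_eq hcU
        apply subset_antisymm cpt_subset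
        intro y hy
        by_contra hyc
        -- the component of y in `univ \ D` avoids c
        have hyU : y ∈ univ \ D := hy
        have hc' : c ∉ cpt G (univ \ D) y := by
          intro h
          apply hyc
          have := cpt_eq_of_mem hyU h
          rw [this]; exact mem_cpt_self hyU
        obtain ⟨a, ha, b, hb, hab⟩ := hc.2 (cpt G (univ \ D) y) (subset_univ _)
          ⟨y, mem_cpt_self hyU⟩ ⟨c, by simp [hc']⟩
        have hbc := (mem_sdiff.1 hb).2
        by_cases hbD : b ∈ D
        · have haD : a ∉ D := by
            have := cpt_subset (G := G) ha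
            simpa using this
          have := hnb b hbD a haD hab.symm
          subst this; exact hc' ha
        · exact not_adj_cpt hyU ha (by simp [hbD]) hbc hab
      have hsep : Sep G (D ∪ {c}) (univ \ D) c := by
        refine ⟨fun y => ?_, by simp, by simp [hcD], fun y h1 h2 => ?_, fun a ha b hb hab => ?_⟩
        · simp only [mem_union, mem_singleton, mem_sdiff, mem_univ, true_and]; tauto
        · simp only [mem_union, mem_singleton, mem_sdiff, mem_univ, true_and] at h1 h2; tauto
        · simp only [mem_union, mem_singleton, mem_sdiff, mem_univ, true_and] at ha hb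
          rcases ha with ha | ha
          · right; exact hnb a ha b hb hab
          · left; exact ha
      have hcardR2 : (univ \ D).card ≤ n := by
        have : (univ \ D).card < (univ : Finset V).card := card_lt_card (by
          refine ⟨sdiff_subset, fun h => ?_⟩
          obtain ⟨d, hd⟩ := hDc.1
          exact (mem_sdiff.1 (h (mem_univ d))).2 hd)
        rw [card_univ] at this; omega
      have dtR2 : DT G (K + 1) (univ \ D) (univ \ D) := by
        have := ih (Sub (univ \ D)) (G.comap (emb _)) (by
          rw [card_sub]; exact hcardR2) (by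
            apply Cn.comap; rw [map_univ_sub]; exact hR2)
          (her _ _ _ G hT)
        have := this.map
        rwa [map_univ_sub] at this
      have dtR1 : DT G K (D ∪ {c}) (D ∪ {c}) := by
        by_cases hD1 : D.card ≤ 1
        · obtain ⟨d, hd⟩ := card_eq_one.1 (le_antisymm hD1 (card_pos.2 hDc.1))
          rw [hd]
          refine DT.node ?_ (DT.leaf d) (DT.leaf c) ?_
          · rw [disjoint_singleton]
            rintro rfl; exact hcD (by rw [hd]; simp)
          · rw [nt_closed]
            · exact Nat.zero_le _
            · intro a _ z hz hz' _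
              exact hz' hz
        · have hTwo : TwoConn (G.comap (emb (D ∪ {c}))) := by
            refine ⟨?_, ?_, ?_⟩
            · rw [card_sub, card_union_of_disjoint (by simpa using hcD)]
              simp; omega
            · apply Cn.comap; rw [map_univ_sub]; exact hR1
            · intro v'
              obtain ⟨v, hv, rfl⟩ : ∃ (v : V) (hv : v ∈ D ∪ {c}), v' = mkS v hv :=
                ⟨emb _ v', emb_mem v', rfl⟩
              apply Cn.comap
              have e : ((univ : Finset (Sub (D ∪ {c}))).erase (mkS v hv)).map
                  (emb (D ∪ {c})) = (D ∪ {c}).erase v := by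
                ext z
                rw [mem_map, mem_erase]
                constructor
                · rintro ⟨u, h1, rfl⟩
                  rw [mem_erase] at h1
                  exact ⟨fun h => h1.1 (Subtype.ext h), emb_mem u⟩
                · rintro ⟨h1, h2⟩
                  refine ⟨mkS z h2, ?_, rfl⟩
                  rw [mem_erase]
                  exact ⟨fun h => h1 (congrArg (emb _) h), mem_univ _⟩
              rw [e]
              by_cases hvc : v = c
              · subst hvc
                have : (D ∪ {v}).erase v = D := by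
                  ext z; simp only [mem_erase, mem_union, mem_singleton]
                  constructor
                  · tauto
                  · intro hz; exact ⟨by rintro rfl; exact hcD hz, Or.inl hz⟩
                rw [this]; exact hDc
              · have hvD : v ∈ D := by
                  rcases mem_union.1 hv with h | h
                  · exact h
                  · exact absurd (mem_singleton.1 h) hvc
                have hcR : c ∈ (D ∪ {c}).erase v := mem_erase.2 ⟨Ne.symm hvc, by simp⟩
                apply cn_of_cpt_eq hcR
                apply subset_antisymm cpt_subset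
                intro y hy
                by_contra hyc
                have hc' : c ∉ cpt G ((D ∪ {c}).erase v) y := by
                  intro h
                  apply hyc
                  have := cpt_eq_of_mem hy h
                  rw [this]; exact mem_cpt_self hy
                set D' := cpt G ((D ∪ {c}).erase v) y with hD'
                have hyv : y ≠ v := (mem_erase.1 hy).1
                have hD'sub : D' ⊆ D.erase v := by
                  intro z hz
                  have h1 := mem_erase.1 (cpt_subset hz)
                  refine mem_erase.2 ⟨h1.1, ?_⟩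
                  rcases mem_union.1 h1.2 with h | h
                  · exact h
                  · rw [mem_singleton] at h; subst h; exact absurd hz hc'
                have hclosed : cpt G (univ.erase v) y ⊆ D' := by
                  by_contra hns
                  have hyE : y ∈ univ.erase v := mem_erase.2 ⟨hyv, mem_univ _⟩
                  have hDs : D' ⊆ cpt G (univ.erase v) y := by
                    apply subset_cpt _ (cn_cpt hy) (mem_cpt_self hy)
                    intro z hz
                    exact mem_erase.2 ⟨(mem_erase.1 (hD'sub hz)).1, mem_univ _⟩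
                  obtain ⟨a, ha, b, hb, hab⟩ := (cn_cpt hyE).2 D' hDs ⟨y, mem_cpt_self hy⟩ (by
                    rw [sdiff_nonempty]; exact hns)
                  obtain ⟨hb1, hb2⟩ := mem_sdiff.1 hb
                  have hbv : b ≠ v := (mem_erase.1 (cpt_subset hb1)).1
                  have haD := (mem_erase.1 (hD'sub ha)).2
                  have hbR : b ∈ D ∪ {c} := by
                    by_cases hbD : b ∈ D
                    · exact mem_union_left _ hbD
                    · have := hnb a haD b hbD hab
                      subst this; simp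
                  exact not_adj_cpt hy ha (mem_erase.2 ⟨hbv, hbR⟩) hb2 hab
                have := hmin (v, y) ⟨hyv, fun hcnv => by
                  have hyE : y ∈ univ.erase v := mem_erase.2 ⟨hyv, mem_univ _⟩
                  have h5 := hcnv.cpt_eq hyE
                  have h6 : c ∈ cpt G (univ.erase v) y := by
                    rw [h5]; exact mem_erase.2 ⟨Ne.symm hvc, mem_univ _⟩
                  exact hc' (hclosed h6)⟩
                simp only at this
                have h7 := (card_le_card hclosed).trans (card_le_card hD'sub)
                have h8 : (D.erase v).card < D.card := by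
                  rw [card_erase_of_mem hvD]
                  have := card_pos.2 ⟨v, hvD⟩
                  omega
                omega
          have := (h2 _ _ hTwo (her _ _ _ G hT)).map
          rwa [map_univ_sub] at this
      have h5 := hsep.dt2 (hsep.dt1 dtR1) dtR2 (Subset.refl _)
      rw [if_pos (by simp [hcD])] at h5
      have e : univ \ D ∪ (D ∪ {c}) = (univ : Finset V) := by
        ext z; simp only [mem_union, mem_sdiff, mem_univ, true_and, mem_singleton, iff_true]; tauto
      rwa [e] at h5
    · -- at most two vertices
      by_cases h1 : Fintype.card V ≤ 1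
      · have : (univ : Finset V) = {x0} := by
          apply (Finset.eq_singleton_iff_unique_mem).2 ⟨mem_univ _, fun y _ => ?_⟩
          exact Fintype.card_le_one_iff.1 h1 y x0
        rw [this]; exact DT.leaf x0
      · have h22 : (univ : Finset V).card = 2 := by rw [card_univ]; omega
        obtain ⟨a, b, hab, he⟩ := card_eq_two.1 h22
        have e : (univ : Finset V) = {a} ∪ {b} := by rw [he]; rfl
        have : DT G (K + 1) univ ({a} ∪ {b}) := by
          refine DT.node (by simpa using hab) (DT.leaf a) (DT.leaf b) ?_
          rw [← e, nt_closed]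
          · exact Nat.zero_le _
          · intro a _ z hz hz' _
            exact hz' hz
        rw [← e] at this; exact this


/-- from connected graphs to all graphs of a hereditary class -/
theorem dt_of_conn_her (Pr : ∀ V : Type, SimpleGraph V → Prop)
    (her : ∀ (U V : Type) (e : U ↪ V) (G : SimpleGraph V), Pr V G → Pr U (G.comap e)) (K : ℕ)
    (h : ∀ (V : Type) [Fintype V] (G : SimpleGraph V), Cn G univ → Pr V G → DT G K univ univ)
    (V : Type) [Fintype V] [Nonempty V] (G : SimpleGraph V) (hP : Pr V G) : DT G K univ univ := by
  apply dt_of_components univ_nonempty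
  intro x hx
  have h1 : DT G K (cpt G univ x) (cpt G univ x) := by
    have := (h (H175R2.Sub (cpt G univ x)) (G.comap (emb _)) (by
      apply Cn.comap
      rw [map_univ_sub]
      exact cn_cpt hx) (her _ _ _ G hP)).map
    rwa [map_univ_sub] at this
  refine h1.transfer fun B hB hn => ?_
  have : nt G univ B = nt G (cpt G univ x) B := by
    unfold nt
    congr 2
    apply image_congr
    intro y hy
    ext z
    simp only [mem_on]
    constructor
    · rintro ⟨⟨h1, h2⟩, h3⟩
      refine ⟨⟨?_, h2⟩, h3⟩
      by_contra hz
      exact not_adj_cpt hx (hB hy) h1 hz h3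
    · rintro ⟨⟨h1, h2⟩, h3⟩
      exact ⟨⟨cpt_subset h1, h2⟩, h3⟩
  rw [this]
  exact hn

/-- `ITM`-free graphs form a hereditary class. -/
lemma itm_her {W : Type} (H : SimpleGraph W) (U V : Type) (e : U ↪ V) (G : SimpleGraph V)
    (h : ¬ ITM H G) : ¬ ITM H (G.comap e) :=
  fun h' => h (h'.of_emb (SimpleGraph.Embedding.comap e G))

lemma twoConn_regions {V : Type} [Fintype V] {G : SimpleGraph V} (h : TwoConn G)
    (h' : Deg2 G univ ∨ P4Free G univ) : DT G 2 univ univ := by
  apply dt_regions h.conn.1
  intro x hx
  rw [h.conn.cpt_eq hx]
  rcases h' with h' | h'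
  · exact Or.inl fun y hy => h' y hy
  · exact Or.inr h'

lemma cm_p4free {V : Type} {G : SimpleGraph V} {R : Finset V} (h : CM G R) : P4Free G R := by
  intro a ha b hb c hc d hd hac had hbd hab hbc hcd
  by_contra hcon
  rw [not_or, not_or] at hcon
  exact h a ha d hd b hb hcon.2.1 (fun h' => hcon.2.2 h'.symm) hab

/-- in a 2-connected graph every vertex has two neighbours -/
lemma twoConn_nb {V : Type} [Fintype V] {G : SimpleGraph V} (h : TwoConn G) (v : V) :
    ∃ a b, a ≠ b ∧ G.Adj v a ∧ G.Adj v b := by
  have hc : 1 < Fintype.card V := by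
    have := h.card
    omega
  obtain ⟨w, hw⟩ := Fintype.exists_ne_of_one_lt_card hc v
  obtain ⟨a, -, ha, hva⟩ := cn_nb h.conn (mem_univ v) (mem_univ w) hw.symm
  obtain ⟨c, hcv, hca⟩ : ∃ c, c ≠ v ∧ c ≠ a := by
    by_contra hcon
    have : (univ : Finset V) ⊆ {v, a} := by
      intro c _
      by_contra h'
      simp only [mem_insert, mem_singleton, not_or] at h'
      exact hcon ⟨c, h'⟩
    have h1 := card_le_card this
    rw [card_univ] at h1
    have h2 := h.card
    have h3 : ({v, a} : Finset V).card ≤ 2 := card_le_two
    omega
  obtain ⟨b, hb, -, hvb⟩ := cn_nb (h.del a) (mem_erase.2 ⟨ha.symm, mem_univ v⟩)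
    (mem_erase.2 ⟨hca, mem_univ c⟩) hcv.symm
  exact ⟨a, b, (ne_of_mem_erase hb).symm, hva, hvb⟩

theorem paw_dt (V : Type) [Fintype V] (G : SimpleGraph V) (h : TwoConn G) (hI : ¬ ITM paw G) :
    DT G 2 univ univ := by
  apply twoConn_regions h
  obtain ⟨v, -⟩ := h.conn.1
  obtain ⟨a, b, hab, hva, hvb⟩ := twoConn_nb h v
  rcases paw_core _ G univ v a b le_rfl ⟨mem_univ _, h.del v, mem_univ _, mem_univ _, hab, hva,
    hvb⟩ with h' | h' | h'
  · exact absurd h'.itm hI
  · exact Or.inl h'
  · exact Or.inr (cm_p4free h')

theorem diamond_dt (V : Type) [Fintype V] (G : SimpleGraph V) (h : TwoConn G)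
    (hI : ¬ ITM diamond G) : DT G 2 univ univ := by
  apply twoConn_regions h
  by_cases hD : Deg2 G univ
  · exact Or.inl hD
  right
  unfold Deg2 at hD
  rw [not_forall] at hD
  obtain ⟨v, hD⟩ := hD
  rw [Classical.not_imp, not_le] at hD
  obtain ⟨-, hD⟩ := hD
  -- three neighbours of a vertex, two of them not adjacent
  have key : ∀ w a b c : V, a ≠ b → a ≠ c → b ≠ c → G.Adj w a → G.Adj w b → G.Adj w c →
      G.Adj a b := by
    intro w a b c hab hac hbc hwa hwb hwc
    by_contra hn
    exact hI (diamond_core _ G univ w a b c le_rfl (mem_univ _) (h.del w)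
      ⟨mem_univ _, mem_univ _, mem_univ _, hab, hac, hbc, hwa, hwb, hwc, hn⟩).itm
  -- the neighbours of `v` form a clique
  have hN : ∀ a b : V, a ≠ b → G.Adj v a → G.Adj v b → G.Adj a b := by
    intro a b hab hva hvb
    obtain ⟨c, hc⟩ : ∃ c, c ∈ univ.filter (fun y => G.Adj v y) ∧ c ≠ a ∧ c ≠ b := by
      by_contra hcon
      have : univ.filter (fun y => G.Adj v y) ⊆ {a, b} := by
        intro c hc
        by_contra h'
        simp only [mem_insert, mem_singleton, not_or] at h'
        exact hcon ⟨c, hc, h'⟩
      have h1 := card_le_card this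
      have h3 : ({a, b} : Finset V).card ≤ 2 := card_le_two
      omega
    exact key v a b c hab hc.2.1.symm hc.2.2.symm hva hvb (mem_filter.1 hc.1).2
  -- every vertex is adjacent or equal to `v`
  have hdom : ∀ x : V, x = v ∨ G.Adj v x := by
    by_contra hcon
    rw [not_forall] at hcon
    obtain ⟨y0, hy0⟩ := hcon
    rw [not_or] at hy0
    obtain ⟨x, hx, y, hy, hxy⟩ := h.conn.2 (univ.filter (fun x => x = v ∨ G.Adj v x))
      (subset_univ _) ⟨v, by simp⟩ ⟨y0, by simp [hy0.1, hy0.2]⟩
    have hx' : x = v ∨ G.Adj v x := (mem_filter.1 hx).2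
    have hy' : ¬ (y = v ∨ G.Adj v y) := by
      intro h'
      exact (mem_sdiff.1 hy).2 (mem_filter.2 ⟨mem_univ _, h'⟩)
    rw [not_or] at hy'
    rcases hx' with rfl | hvx
    · exact hy'.2 hxy
    · obtain ⟨c, hc⟩ : ∃ c, c ∈ univ.filter (fun y => G.Adj v y) ∧ c ≠ x := by
        by_contra hcon
        have : univ.filter (fun y => G.Adj v y) ⊆ {x} := by
          intro c hc
          by_contra h'
          simp only [mem_singleton] at h'
          exact hcon ⟨c, hc, h'⟩
        have h1 := card_le_card this
        rw [card_singleton] at h1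
        omega
      have hvc : G.Adj v c := (mem_filter.1 hc.1).2
      have hxc : G.Adj x c := hN x c hc.2.symm hvx hvc
      have hcy : c ≠ y := by
        rintro rfl
        exact hy'.2 hvc
      exact hy'.2 (key x v y c (Ne.symm hy'.1) hvc.ne hcy.symm hvx.symm hxy hxc)
  intro a _ b _ c _ d _ hac _ _ _ _ _
  left
  rcases hdom a with rfl | ha
  · rcases hdom c with rfl | hc
    · exact absurd rfl hac
    · exact hc
  · rcases hdom c with rfl | hc
    · exact ha.symm
    · exact hN a c hac ha hc

lemma built_nonempty {k : ℕ} {V : Type} {G : SimpleGraph V} {l : V → Fin k}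
    (h : CwBuilt k V G l) : Nonempty V := by
  induction h with
  | single => exact ⟨()⟩
  | union V W G H l m _ _ h1 h2 => exact ⟨Sum.inl h1.some⟩
  | join _ _ _ _ _ _ _ h => exact h
  | relabel _ _ _ _ _ _ h => exact h

lemma cliqueWidth_empty {V : Type} [IsEmpty V] (G : SimpleGraph V) (c : ℕ) :
    cliqueWidth G ≤ c := by
  have : {k | CwLE G k} = ∅ := by
    ext k
    simp only [Set.mem_ofPred_eq, Set.mem_empty_iff_false, iff_false]
    rintro ⟨W, G', l, hb, ⟨e⟩⟩
    obtain ⟨w⟩ := built_nonempty hb
    exact IsEmpty.false (e.symm w)
  unfold cliqueWidth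
  rw [this, Nat.sInf_empty]
  exact Nat.zero_le _

lemma bdd_of_dt {W : Type} {H : SimpleGraph W} {K : ℕ}
    (h : ∀ (V : Type) [Fintype V] [Nonempty V] (G : SimpleGraph V), ¬ ITM H G →
      DT G K univ univ) : Bdd H := by
  refine ⟨3 * (K + 1), fun V _ G hG => ?_⟩
  have : Fintype V := Fintype.ofFinite V
  rcases isEmpty_or_nonempty V with hV | hV
  · exact cliqueWidth_empty G _
  · exact cliqueWidth_le_of_dt (h V G hG)

theorem paw_bdd : Bdd paw := by
  apply bdd_of_dt (K := 3)
  intro V _ _ G hG
  exact dt_of_conn_her (fun V G => ¬ ITM paw G) (itm_her paw) 3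
    (fun V _ G hc h => dt_of_blocks_her (fun V G => ¬ ITM paw G) (itm_her paw) 2 paw_dt _ V G
      le_rfl hc h) V G hG

theorem diamond_bdd : Bdd diamond := by
  apply bdd_of_dt (K := 3)
  intro V _ _ G hG
  exact dt_of_conn_her (fun V G => ¬ ITM diamond G) (itm_her diamond) 3
    (fun V _ G hc h => dt_of_blocks_her (fun V G => ¬ ITM diamond G) (itm_her diamond) 2
      diamond_dt _ V G le_rfl hc h) V G hG

/-- the path on four vertices -/
def P4 : SimpleGraph (Fin 4) := SimpleGraph.fromRel (fun a b => a.val + 1 = b.val)

theorem p4_bdd : Bdd P4 := by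
  apply bdd_of_dt (K := 1)
  intro V _ _ G hG
  have hP : P4Free G univ := by
    intro a _ b _ c _ d _ hac had hbd hab hbc hcd
    by_contra hcon
    rw [not_or, not_or] at hcon
    obtain ⟨h1, h2, h3⟩ := hcon
    apply hG
    have n1 := hab.ne
    have n2 := hbc.ne
    have n3 := hcd.ne
    have inj : Function.Injective ![a, b, c, d] := by
      intro i j
      fin_cases i <;> fin_cases j <;>
        simp [n1, n2, n3, hac, had, hbd, n1.symm, n2.symm, n3.symm, hac.symm, had.symm, hbd.symm]
    refine ⟨Fin 4, P4, Subdivision.iso SimpleGraph.Iso.refl, ⟨⟨⟨![a, b, c, d], inj⟩, ?_⟩⟩⟩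
    intro i j
    have a1 := hab.symm
    have a2 := hbc.symm
    have a3 := hcd.symm
    have a4 : ¬ G.Adj c a := fun h => h1 h.symm
    have a5 : ¬ G.Adj d a := fun h => h2 h.symm
    have a6 : ¬ G.Adj d b := fun h => h3 h.symm
    fin_cases i <;> fin_cases j <;>
      simp [P4, SimpleGraph.fromRel_adj, hab, hbc, hcd, h1, h2, h3, a1, a2, a3, a4, a5, a6]
  refine dt_cograph _ univ univ le_rfl univ_nonempty (Subset.refl _) hP ?_
  intro y _ z _ w _ hw
  exact absurd (mem_univ w) hw

end Pool.Agent.R36.Itm
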