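import Pool.Agent.R36.ItmLower
import Pool.Agent.R36.ItmUpper

/-!
# The finite part of the classification
-/

set_option autoImplicit false

namespace Pool.Agent.R36.Itm

/-- symmetric matrix from ten entries -/
def mat5 (b0 b1 b2 b3 b4 b5 b6 b7 b8 b9 : Bool) : Fin 5 → Fin 5 → Bool :=
  ![![false, b0, b1, b2, b3], ![b0, false, b4, b5, b6], ![b1, b4, false, b7, b8],
    ![b2, b5, b7, false, b9], ![b3, b6, b8, b9, false]]

def C1 {n : ℕ} (A : Fin n → Fin n → Bool) : Prop :=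
  ∃ x y z, x < y ∧ y < z ∧ A x y = false ∧ A x z = false ∧ A y z = false

def C2 (A : Fin 5 → Fin 5 → Bool) : Prop := ∃ x : Fin 5, ∀ i : Fin 4, A x (x.succAbove i) = true

def C3 (A : Fin 5 → Fin 5 → Bool) : Prop := ∃ w : Fin 5, ∀ i j : Fin 4, i < j →
  A (w.succAbove i) (w.succAbove j) = true

def C4 {n : ℕ} (A : Fin n → Fin n → Bool) : Prop :=
  ∃ a b, A a b = true ∧ ∃ c, A b c = true ∧ a ≠ c ∧ A a c = false ∧
    ∃ d, A c d = true ∧ A d a = true ∧ b ≠ d ∧ A b d = false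

def C4' {n : ℕ} (A : Fin n → Fin n → Bool) : Prop :=
  (∀ x, ∃ y z, y < z ∧ A x y = true ∧ A x z = true) ∧
  (∀ x y, A x y = true → ∀ z, A y z = true → A x z = false)

def C5 {n : ℕ} (A : Fin n → Fin n → Bool) : Prop :=
  ∃ a b, A a b = true ∧ ∃ c, A a c = false ∧ A b c = false ∧
    ∃ d, A c d = true ∧ A a d = false ∧ A b d = false

def C6 {n : ℕ} (A : Fin n → Fin n → Bool) : Prop :=
  ∃ x y, A x y = true ∧ ∃ z, A y z = true ∧ A x z = true ∧
    ∃ p, A p x = false ∧ A p y = false ∧ A p z = false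

instance {n : ℕ} (A : Fin n → Fin n → Bool) : Decidable (C1 A) := by unfold C1; infer_instance
instance (A : Fin 5 → Fin 5 → Bool) : Decidable (C2 A) := by unfold C2; infer_instance
instance (A : Fin 5 → Fin 5 → Bool) : Decidable (C3 A) := by unfold C3; infer_instance
instance {n : ℕ} (A : Fin n → Fin n → Bool) : Decidable (C4 A) := by unfold C4; infer_instance
instance {n : ℕ} (A : Fin n → Fin n → Bool) : Decidable (C4' A) := by unfold C4'; infer_instance
instance {n : ℕ} (A : Fin n → Fin n → Bool) : Decidable (C5 A) := by unfold C5; infer_instance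
instance {n : ℕ} (A : Fin n → Fin n → Bool) : Decidable (C6 A) := by unfold C6; infer_instance

theorem five : ∀ b0 b1 b2 b3 b4 b5 b6 b7 b8 b9 : Bool,
    C1 (mat5 b0 b1 b2 b3 b4 b5 b6 b7 b8 b9) ∨ C2 (mat5 b0 b1 b2 b3 b4 b5 b6 b7 b8 b9) ∨
    C3 (mat5 b0 b1 b2 b3 b4 b5 b6 b7 b8 b9) ∨ C5 (mat5 b0 b1 b2 b3 b4 b5 b6 b7 b8 b9) ∨
    C4 (mat5 b0 b1 b2 b3 b4 b5 b6 b7 b8 b9) ∨ C6 (mat5 b0 b1 b2 b3 b4 b5 b6 b7 b8 b9) ∨
    C4' (mat5 b0 b1 b2 b3 b4 b5 b6 b7 b8 b9) := by
  decide +kernel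

def mat4 (b0 b1 b2 b3 b4 b5 : Bool) : Fin 4 → Fin 4 → Bool :=
  ![![false, b0, b1, b2], ![b0, false, b3, b4], ![b1, b3, false, b5], ![b2, b4, b5, false]]

def mat3 (b0 b1 b2 : Bool) : Fin 3 → Fin 3 → Bool :=
  ![![false, b0, b1], ![b0, false, b2], ![b1, b2, false]]

def mat2 (b0 : Bool) : Fin 2 → Fin 2 → Bool := ![![false, b0], ![b0, false]]

/-- adjacency matrices of `P4`, the paw and the diamond -/
def p4m : Fin 4 → Fin 4 → Bool := mat4 true false false true false true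
def pawm : Fin 4 → Fin 4 → Bool := mat4 true true true true false false
def diam : Fin 4 → Fin 4 → Bool := mat4 true true true true true false

theorem p4m_adj : ∀ i j : Fin 4, P4.Adj i j ↔ p4m i j = true := by
  intro i j
  simp only [P4, SimpleGraph.fromRel_adj]
  revert i j
  decide

theorem pawm_adj : ∀ i j : Fin 4, paw.Adj i j ↔ pawm i j = true := by
  intro i j
  simp only [paw, SimpleGraph.fromRel_adj]
  revert i j
  decide

theorem diam_adj : ∀ i j : Fin 4, diamond.Adj i j ↔ diam i j = true := by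
  intro i j
  simp only [diamond, SimpleGraph.fromRel_adj]
  revert i j
  decide

def E4 (A B : Fin 4 → Fin 4 → Bool) : Prop :=
  ∃ s0 s1 : Fin 4, s0 ≠ s1 ∧ A 0 1 = B s0 s1 ∧
    ∃ s2 : Fin 4, s0 ≠ s2 ∧ s1 ≠ s2 ∧ A 0 2 = B s0 s2 ∧ A 1 2 = B s1 s2 ∧
      ∃ s3 : Fin 4, s0 ≠ s3 ∧ s1 ≠ s3 ∧ s2 ≠ s3 ∧ A 0 3 = B s0 s3 ∧ A 1 3 = B s1 s3 ∧
        A 2 3 = B s2 s3

def E3 (A : Fin 3 → Fin 3 → Bool) (B : Fin 4 → Fin 4 → Bool) : Prop :=
  ∃ s0 s1 : Fin 4, s0 ≠ s1 ∧ A 0 1 = B s0 s1 ∧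
    ∃ s2 : Fin 4, s0 ≠ s2 ∧ s1 ≠ s2 ∧ A 0 2 = B s0 s2 ∧ A 1 2 = B s1 s2

def E2 (A : Fin 2 → Fin 2 → Bool) (B : Fin 4 → Fin 4 → Bool) : Prop :=
  ∃ s0 s1 : Fin 4, s0 ≠ s1 ∧ A 0 1 = B s0 s1

instance (A B : Fin 4 → Fin 4 → Bool) : Decidable (E4 A B) := by unfold E4; infer_instance
instance (A : Fin 3 → Fin 3 → Bool) (B : Fin 4 → Fin 4 → Bool) : Decidable (E3 A B) := by
  unfold E3; infer_instance
instance (A : Fin 2 → Fin 2 → Bool) (B : Fin 4 → Fin 4 → Bool) : Decidable (E2 A B) := by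
  unfold E2; infer_instance

/-- all vertices are adjacent -/
def K4 (A : Fin 4 → Fin 4 → Bool) : Prop := ∀ i j : Fin 4, i < j → A i j = true

instance (A : Fin 4 → Fin 4 → Bool) : Decidable (K4 A) := by unfold K4; infer_instance

theorem four : ∀ b0 b1 b2 b3 b4 b5 : Bool,
    C1 (mat4 b0 b1 b2 b3 b4 b5) ∨ K4 (mat4 b0 b1 b2 b3 b4 b5) ∨ C5 (mat4 b0 b1 b2 b3 b4 b5) ∨
    C4 (mat4 b0 b1 b2 b3 b4 b5) ∨ C6 (mat4 b0 b1 b2 b3 b4 b5) ∨
    E4 (mat4 b0 b1 b2 b3 b4 b5) p4m ∨ E4 (mat4 b0 b1 b2 b3 b4 b5) pawm ∨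
    E4 (mat4 b0 b1 b2 b3 b4 b5) diam := by
  decide +kernel

theorem three : ∀ b0 b1 b2 : Bool, C1 (mat3 b0 b1 b2) ∨ E3 (mat3 b0 b1 b2) p4m ∨
    E3 (mat3 b0 b1 b2) pawm := by
  decide +kernel

theorem two : ∀ b0 : Bool, E2 (mat2 b0) p4m := by
  decide +kernel

/-! ### from matrices to graphs -/

section
variable {W : Type} {H : SimpleGraph W}

/-- `A` is the adjacency matrix of `H` restricted to the vertices `g i` -/
def Rep {n : ℕ} (H : SimpleGraph W) (g : Fin n → W) (A : Fin n → Fin n → Bool) : Prop :=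
  Function.Injective g ∧ ∀ i j, (H.Adj (g i) (g j) ↔ A i j = true)

lemma Rep.not {n : ℕ} {g : Fin n → W} {A : Fin n → Fin n → Bool} (h : Rep H g A) {i j : Fin n}
    (h' : A i j = false) : ¬ H.Adj (g i) (g j) := by
  rw [h.2, h']
  exact Bool.false_ne_true

lemma Rep.yes {n : ℕ} {g : Fin n → W} {A : Fin n → Fin n → Bool} (h : Rep H g A) {i j : Fin n}
    (h' : A i j = true) : H.Adj (g i) (g j) := (h.2 i j).2 h'

lemma q1_of {n : ℕ} {g : Fin n → W} {A : Fin n → Fin n → Bool} (h : Rep H g A) (hc : C1 A) :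
    Q1 H := by
  obtain ⟨x, y, z, h1, h2, h3, h4, h5⟩ := hc
  exact ⟨g x, g y, g z, fun e => h1.ne (h.1 e), fun e => (h1.trans h2).ne (h.1 e),
    fun e => h2.ne (h.1 e), h.not h3, h.not h4, h.not h5⟩

lemma q2_of {g : Fin 5 → W} {A : Fin 5 → Fin 5 → Bool} (h : Rep H g A) (hc : C2 A) : Q2 H := by
  obtain ⟨x, hx⟩ := hc
  exact ⟨g x, fun i => g (x.succAbove i), fun i j e => Fin.succAbove_right_injective (h.1 e),
    fun i => h.yes (hx i)⟩

lemma q3_of {b : Fin 4 → W} (hb : Function.Injective b)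
    (hadj : ∀ i j : Fin 4, i < j → H.Adj (b i) (b j)) : Q3 H := by
  have hadj' : ∀ i j : Fin 4, i ≠ j → H.Adj (b i) (b j) := by
    intro i j hij
    rcases lt_or_gt_of_ne hij with h | h
    · exact hadj i j h
    · exact (hadj j i h).symm
  exact ⟨b, fun _ j => b j, hb, hadj', fun i j k _ _ hjk e => hjk (hb e),
    fun i j k _ _ _ _ => ⟨rfl, rfl⟩⟩

lemma q4_of {n : ℕ} {g : Fin n → W} {A : Fin n → Fin n → Bool} (h : Rep H g A) (hc : C4 A) :
    Q4 H := by
  obtain ⟨a, b, hab, c, hbc, hac, hac', d, hcd, hda, hbd, hbd'⟩ := hc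
  have e1 := h.yes hab
  have e2 := h.yes hbc
  have e3 := h.yes hcd
  have e4 := h.yes hda
  have e5 := h.not hac'
  have e6 := h.not hbd'
  have e5' : ¬ H.Adj (g c) (g a) := fun h => e5 h.symm
  have e6' : ¬ H.Adj (g d) (g b) := fun h => e6 h.symm
  have n1 : g a ≠ g c := fun e => hac (h.1 e)
  have n2 : g b ≠ g d := fun e => hbd (h.1 e)
  refine ⟨{g a, g b, g c, g d}, ⟨⟨g a, by simp⟩, ?_⟩, ?_⟩
  · rintro x (rfl | rfl | rfl | rfl)
    · exact ⟨g b, by simp, g d, by simp, n2, e1, e4.symm⟩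
    · exact ⟨g a, by simp, g c, by simp, n1, e1.symm, e2⟩
    · exact ⟨g b, by simp, g d, by simp, n2, e2.symm, e3⟩
    · exact ⟨g a, by simp, g c, by simp, n1, e4, e3.symm⟩
  · rintro x (rfl | rfl | rfl | rfl) y (rfl | rfl | rfl | rfl) z (rfl | rfl | rfl | rfl) h1 h2 h3 <;>
      first
        | exact absurd rfl h1.ne
        | exact absurd rfl h2.ne
        | exact absurd rfl h3.ne
        | exact e5 h1
        | exact e5' h1
        | exact e6 h1
        | exact e6' h1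
        | exact e5 h2
        | exact e5' h2
        | exact e6 h2
        | exact e6' h2
        | exact e5 h3
        | exact e5' h3
        | exact e6 h3
        | exact e6' h3

lemma q4_of' {n : ℕ} {g : Fin (n + 1) → W} {A : Fin (n + 1) → Fin (n + 1) → Bool}
    (h : Rep H g A) (hc : C4' A) : Q4 H := by
  obtain ⟨h1, h2⟩ := hc
  refine ⟨Set.range g, ⟨⟨g 0, 0, rfl⟩, ?_⟩, ?_⟩
  · rintro _ ⟨x, rfl⟩
    obtain ⟨y, z, hyz, hy, hz⟩ := h1 x
    exact ⟨g y, ⟨y, rfl⟩, g z, ⟨z, rfl⟩, fun e => hyz.ne (h.1 e), h.yes hy, h.yes hz⟩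
  · rintro _ ⟨x, rfl⟩ _ ⟨y, rfl⟩ _ ⟨z, rfl⟩ hxy hyz
    exact h.not (h2 x y ((h.2 x y).1 hxy) z ((h.2 y z).1 hyz))

lemma q5_of {n : ℕ} {g : Fin n → W} {A : Fin n → Fin n → Bool} (h : Rep H g A) (hc : C5 A) :
    Q5 H := by
  obtain ⟨a, b, hab, c, hac, hbc, d, hcd, had, hbd⟩ := hc
  exact ⟨g a, g b, g c, g d, h.yes hab, h.yes hcd, h.not hac, h.not had, h.not hbc, h.not hbd⟩

lemma q6_of {n : ℕ} {g : Fin n → W} {A : Fin n → Fin n → Bool} (h : Rep H g A) (hc : C6 A) :
    Q6 H := by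
  obtain ⟨x, y, hxy, z, hyz, hxz, p, hpx, hpy, hpz⟩ := hc
  have e1 := h.yes hxy
  have e2 := h.yes hyz
  have e3 := h.yes hxz
  have f1 := h.not hpx
  have f2 := h.not hpy
  have f3 := h.not hpz
  refine ⟨g p, {g x, g y, g z}, ?_, ?_, ⟨g x, by simp⟩, ?_⟩
  · rintro (h' | h' | h')
    · rw [h'] at f2
      exact f2 e1
    · rw [h'] at f1
      exact f1 e1.symm
    · rw [h'] at f1
      exact f1 e3.symm
  · rintro w (rfl | rfl | rfl)
    · exact f1
    · exact f2
    · exact f3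
  · rintro w (rfl | rfl | rfl)
    · exact ⟨g y, by simp, g z, by simp, e2.ne, e1, e3⟩
    · exact ⟨g x, by simp, g z, by simp, e3.ne, e1.symm, e2⟩
    · exact ⟨g x, by simp, g y, by simp, e1.ne, e3.symm, e2.symm⟩

open Classical in
/-- entries of the adjacency matrix -/
noncomputable def bit (H : SimpleGraph W) (x y : W) : Bool := decide (H.Adj x y)

lemma bit_iff (x y : W) : bit H x y = true ↔ H.Adj x y := by simp [bit]

lemma rep5 {g : Fin 5 → W} (hg : Function.Injective g) : Rep H g (mat5 (bit H (g 0) (g 1))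
    (bit H (g 0) (g 2)) (bit H (g 0) (g 3)) (bit H (g 0) (g 4)) (bit H (g 1) (g 2))
    (bit H (g 1) (g 3)) (bit H (g 1) (g 4)) (bit H (g 2) (g 3)) (bit H (g 2) (g 4))
    (bit H (g 3) (g 4))) := by
  refine ⟨hg, ?_⟩
  intro i j
  fin_cases i <;> fin_cases j <;> simp [mat5, bit_iff] <;> exact H.adj_comm _ _

lemma rep4 {g : Fin 4 → W} (hg : Function.Injective g) : Rep H g (mat4 (bit H (g 0) (g 1))
    (bit H (g 0) (g 2)) (bit H (g 0) (g 3)) (bit H (g 1) (g 2))
    (bit H (g 1) (g 3)) (bit H (g 2) (g 3))) := by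
  refine ⟨hg, ?_⟩
  intro i j
  fin_cases i <;> fin_cases j <;> simp [mat4, bit_iff] <;> exact H.adj_comm _ _

lemma rep3 {g : Fin 3 → W} (hg : Function.Injective g) : Rep H g (mat3 (bit H (g 0) (g 1))
    (bit H (g 0) (g 2)) (bit H (g 1) (g 2))) := by
  refine ⟨hg, ?_⟩
  intro i j
  fin_cases i <;> fin_cases j <;> simp [mat3, bit_iff] <;> exact H.adj_comm _ _

lemma rep2 {g : Fin 2 → W} (hg : Function.Injective g) :
    Rep H g (mat2 (bit H (g 0) (g 1))) := by
  refine ⟨hg, ?_⟩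
  intro i j
  fin_cases i <;> fin_cases j <;> simp [mat2, bit_iff] <;> exact H.adj_comm _ _

/-- the embedding given by a map of indices -/
lemma emb_of {n : ℕ} {B : SimpleGraph (Fin 4)} {Bm : Fin 4 → Fin 4 → Bool}
    (hB : ∀ i j : Fin 4, B.Adj i j ↔ Bm i j = true) (e : W ≃ Fin n) {A : Fin n → Fin n → Bool}
    (hA : Rep H e.symm A) (σ : Fin n → Fin 4) (hσ : Function.Injective σ)
    (h : ∀ i j, i < j → A i j = Bm (σ i) (σ j)) : H.IsIndContained B := by
  refine ⟨⟨⟨fun x => σ (e x), fun x y hxy => e.injective (hσ hxy)⟩, ?_⟩⟩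
  intro x y
  change B.Adj (σ (e x)) (σ (e y)) ↔ H.Adj x y
  have key : ∀ i j : Fin n, i < j → (B.Adj (σ i) (σ j) ↔ H.Adj (e.symm i) (e.symm j)) := by
    intro i j hij
    rw [hB, hA.2, h i j hij]
  have hx : e.symm (e x) = x := e.symm_apply_apply x
  have hy : e.symm (e y) = y := e.symm_apply_apply y
  rcases lt_trichotomy (e x) (e y) with h1 | h1 | h1
  · have := key _ _ h1
    rwa [hx, hy] at this
  · have hxy : x = y := e.injective h1
    subst hxy
    simp
  · have := key _ _ h1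
    rw [hx, hy] at this
    rw [B.adj_comm, H.adj_comm]
    exact this

end

/-- The finite classification. -/
theorem classify {W : Type} [Finite W] (H : SimpleGraph W) (h1 : ¬ Q1 H) (h2 : ¬ Q2 H)
    (h3 : ¬ Q3 H) (h4 : ¬ Q4 H) (h5 : ¬ Q5 H) (h6 : ¬ Q6 H) :
    H.IsIndContained P4 ∨ H.IsIndContained paw ∨ H.IsIndContained diamond := by
  have : Fintype W := Fintype.ofFinite W
  obtain ⟨n, hn⟩ : ∃ n, Fintype.card W = n := ⟨_, rfl⟩
  have e : W ≃ Fin n := Fintype.equivFinOfCardEq hn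
  by_cases h : 5 ≤ n
  · exfalso
    let g : Fin 5 → W := fun i => e.symm (Fin.castLE h i)
    have hg : Function.Injective g := fun i j hij => Fin.castLE_injective h (e.symm.injective hij)
    have hr := rep5 (H := H) hg
    rcases five _ _ _ _ _ _ _ _ _ _ with c | c | c | c | c | c | c
    · exact h1 (q1_of hr c)
    · exact h2 (q2_of hr c)
    · obtain ⟨w, hw⟩ := c
      exact h3 (q3_of (b := fun i => g (w.succAbove i))
        (fun i j e => Fin.succAbove_right_injective (hg e)) (fun i j hij => hr.yes (hw i j hij)))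
    · exact h5 (q5_of hr c)
    · exact h4 (q4_of hr c)
    · exact h6 (q6_of hr c)
    · exact h4 (q4_of' hr c)
  · have h' : n = 0 ∨ n = 1 ∨ n = 2 ∨ n = 3 ∨ n = 4 := by omega
    rcases h' with rfl | rfl | rfl | rfl | rfl
    · left
      have := e.isEmpty
      exact ⟨⟨⟨fun x => (IsEmpty.false x).elim, fun x => (IsEmpty.false x).elim⟩,
        fun {x} => (IsEmpty.false x).elim⟩⟩
    · left
      have hs : Subsingleton W := e.subsingleton
      refine ⟨⟨⟨fun _ => 0, fun x y _ => hs.elim x y⟩, ?_⟩⟩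
      intro x y
      have := hs.elim x y
      subst this
      change P4.Adj 0 0 ↔ _
      simp
    · left
      have hr := rep2 (H := H) (g := e.symm) e.symm.injective
      obtain ⟨s0, s1, k1, k2⟩ := two (bit H (e.symm 0) (e.symm 1))
      refine emb_of p4m_adj e hr ![s0, s1] ?_ ?_
      · intro i j
        fin_cases i <;> fin_cases j <;> simp [k1, k1.symm]
      · intro i j hij
        fin_cases i <;> fin_cases j <;> simp_all
    · have hr := rep3 (H := H) (g := e.symm) e.symm.injective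
      rcases three _ _ _ with c | c | c
      · exact absurd (q1_of hr c) h1
      · left
        obtain ⟨s0, s1, k1, k2, s2, k3, k4, k5, k6⟩ := c
        refine emb_of p4m_adj e hr ![s0, s1, s2] ?_ ?_
        · intro i j
          fin_cases i <;> fin_cases j <;> simp [k1, k1.symm, k3, k3.symm, k4, k4.symm]
        · intro i j hij
          fin_cases i <;> fin_cases j <;> simp_all
      · right
        left
        obtain ⟨s0, s1, k1, k2, s2, k3, k4, k5, k6⟩ := c
        refine emb_of pawm_adj e hr ![s0, s1, s2] ?_ ?_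
        · intro i j
          fin_cases i <;> fin_cases j <;> simp [k1, k1.symm, k3, k3.symm, k4, k4.symm]
        · intro i j hij
          fin_cases i <;> fin_cases j <;> simp_all
    · have hr := rep4 (H := H) (g := e.symm) e.symm.injective
      rcases four _ _ _ _ _ _ with c | c | c | c | c | c | c | c
      · exact absurd (q1_of hr c) h1
      · exact absurd (q3_of e.symm.injective (fun i j hij => hr.yes (c i j hij))) h3
      · exact absurd (q5_of hr c) h5
      · exact absurd (q4_of hr c) h4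
      · exact absurd (q6_of hr c) h6
      · left
        obtain ⟨s0, s1, k1, k2, s2, k3, k4, k5, k6, s3, k7, k8, k9, k10, k11, k12⟩ := c
        refine emb_of p4m_adj e hr ![s0, s1, s2, s3] ?_ ?_
        · intro i j
          fin_cases i <;> fin_cases j <;>
            simp [k1, k1.symm, k3, k3.symm, k4, k4.symm, k7, k8, k9, k7.symm, k8.symm, k9.symm]
        · intro i j hij
          fin_cases i <;> fin_cases j <;> simp_all
      · right
        left
        obtain ⟨s0, s1, k1, k2, s2, k3, k4, k5, k6, s3, k7, k8, k9, k10, k11, k12⟩ := c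
        refine emb_of pawm_adj e hr ![s0, s1, s2, s3] ?_ ?_
        · intro i j
          fin_cases i <;> fin_cases j <;>
            simp [k1, k1.symm, k3, k3.symm, k4, k4.symm, k7, k8, k9, k7.symm, k8.symm, k9.symm]
        · intro i j hij
          fin_cases i <;> fin_cases j <;> simp_all
      · right
        right
        obtain ⟨s0, s1, k1, k2, s2, k3, k4, k5, k6, s3, k7, k8, k9, k10, k11, k12⟩ := c
        refine emb_of diam_adj e hr ![s0, s1, s2, s3] ?_ ?_
        · intro i j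
          fin_cases i <;> fin_cases j <;>
            simp [k1, k1.symm, k3, k3.symm, k4, k4.symm, k7, k8, k9, k7.symm, k8.symm, k9.symm]
        · intro i j hij
          fin_cases i <;> fin_cases j <;> simp_all

/-- excluding a smaller graph gives a smaller class -/
lemma bdd_mono {W W' : Type} {H : SimpleGraph W} {H' : SimpleGraph W'} (h : H.IsIndContained H')
    (hB : Bdd H') : Bdd H := by
  obtain ⟨ι⟩ := h
  obtain ⟨c, hc⟩ := hB
  exact ⟨c, fun V _ G hG => hc V G (fun h => hG (h.restrict ι))⟩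

/-- The classification. -/
theorem bdd_iff {W : Type} [Finite W] (H : SimpleGraph W) : Bdd H ↔
    (H.IsIndContained P4 ∨ H.IsIndContained paw ∨ H.IsIndContained diamond) := by
  constructor
  · intro h
    exact classify H (not_q1_of_bdd h) (not_q2_of_bdd h) (not_q3_of_bdd h) (not_q4_of_bdd h)
      (not_q5_of_bdd h) (not_q6_of_bdd h)
  · rintro (h | h | h)
    · exact bdd_mono h p4_bdd
    · exact bdd_mono h paw_bdd
    · exact bdd_mono h diamond_bdd

end Pool.Agent.R36.Itm
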