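import Pool.Agent.H175R2.Cut
import Pool.Agent.R36.CwBase

/-!
# The truncated grids: subcubic graphs of unbounded clique-width

`famT n` is obtained from the `n × n` grid by replacing every vertex by two triangles joined by an
edge, one triangle being attached to the edges to the left and up, the other one to the edges to the
right and down. The vertex `(i, j, r)`, `r < 6`, belongs to the cell `(i, j)`; the triangles are
`{0, 1, 2}` and `{3, 4, 5}`.
-/

set_option autoImplicit false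

namespace Pool.Agent.R36.Itm

open Finset Pool.Agent.H175R2

/-- the edges outside the triangles -/
def M0 {n : ℕ} (x y : Fin n × Fin n × Fin 6) : Prop :=
  (x.1 = y.1 ∧ x.2.1 = y.2.1 ∧ x.2.2 = 2 ∧ y.2.2 = 3) ∨
  (x.1 = y.1 ∧ x.2.1.val + 1 = y.2.1.val ∧ x.2.2 = 5 ∧ y.2.2 = 0) ∨
  (x.1.val + 1 = y.1.val ∧ x.2.1 = y.2.1 ∧ x.2.2 = 4 ∧ y.2.2 = 1)

/-- being in the same triangle -/
def Tr {n : ℕ} (x y : Fin n × Fin n × Fin 6) : Prop :=
  x.1 = y.1 ∧ x.2.1 = y.2.1 ∧ x.2.2.val / 3 = y.2.2.val / 3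

/-- the truncated grid -/
def famT (n : ℕ) : SimpleGraph (Fin n × Fin n × Fin 6) :=
  SimpleGraph.fromRel (fun x y => Tr x y ∨ M0 x y)

section
variable {n : ℕ}

lemma Tr.symm {x y : Fin n × Fin n × Fin 6} (h : Tr x y) : Tr y x := ⟨h.1.symm, h.2.1.symm, h.2.2.symm⟩

lemma Tr.trans {x y z : Fin n × Fin n × Fin 6} (h : Tr x y) (h' : Tr y z) : Tr x z :=
  ⟨h.1.trans h'.1, h.2.1.trans h'.2.1, h.2.2.trans h'.2.2⟩

lemma famT_adj {x y : Fin n × Fin n × Fin 6} : (famT n).Adj x y ↔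
    x ≠ y ∧ (Tr x y ∨ M0 x y ∨ M0 y x) := by
  simp only [famT, SimpleGraph.fromRel_adj]
  constructor
  · rintro ⟨h, (h1 | h1) | (h1 | h1)⟩
    · exact ⟨h, Or.inl h1⟩
    · exact ⟨h, Or.inr (Or.inl h1)⟩
    · exact ⟨h, Or.inl h1.symm⟩
    · exact ⟨h, Or.inr (Or.inr h1)⟩
  · rintro ⟨h, h1 | h1 | h1⟩
    · exact ⟨h, Or.inl (Or.inl h1)⟩
    · exact ⟨h, Or.inl (Or.inr h1)⟩
    · exact ⟨h, Or.inr (Or.inr h1)⟩

/-- four different vertices are never in the same triangle -/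
lemma tr_four {x y z w : Fin n × Fin n × Fin 6} (hxy : x ≠ y) (hxz : x ≠ z) (hxw : x ≠ w)
    (hyz : y ≠ z) (hyw : y ≠ w) (hzw : z ≠ w) (h1 : Tr x y) (h2 : Tr x z) (h3 : Tr x w) :
    False := by
  obtain ⟨x1, x2, x3⟩ := x
  obtain ⟨y1, y2, y3⟩ := y
  obtain ⟨z1, z2, z3⟩ := z
  obtain ⟨w1, w2, w3⟩ := w
  obtain ⟨rfl, rfl, h1⟩ := h1
  obtain ⟨rfl, rfl, h2⟩ := h2
  obtain ⟨rfl, rfl, h3⟩ := h3
  have key : ∀ a b c d : Fin 6, a ≠ b → a ≠ c → a ≠ d → b ≠ c → b ≠ d → c ≠ d →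
      a.val / 3 = b.val / 3 → a.val / 3 = c.val / 3 → a.val / 3 = d.val / 3 → False := by
    decide +kernel
  refine key x3 y3 z3 w3 ?_ ?_ ?_ ?_ ?_ ?_ h1 h2 h3
  · rintro rfl
    exact hxy rfl
  · rintro rfl
    exact hxz rfl
  · rintro rfl
    exact hxw rfl
  · rintro rfl
    exact hyz rfl
  · rintro rfl
    exact hyw rfl
  · rintro rfl
    exact hzw rfl

/-- at most one neighbour is outside the triangle -/
lemma partner_unique {x y z : Fin n × Fin n × Fin 6} (h1 : M0 x y ∨ M0 y x) (h2 : M0 x z ∨ M0 z x) :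
    y = z := by
  obtain ⟨x1, x2, x3⟩ := x
  obtain ⟨y1, y2, y3⟩ := y
  obtain ⟨z1, z2, z3⟩ := z
  simp only [M0] at h1 h2
  rcases h1 with (⟨a1, a2, a3, a4⟩ | ⟨a1, a2, a3, a4⟩ | ⟨a1, a2, a3, a4⟩) |
      (⟨a1, a2, a3, a4⟩ | ⟨a1, a2, a3, a4⟩ | ⟨a1, a2, a3, a4⟩) <;>
    rcases h2 with (⟨b1, b2, b3, b4⟩ | ⟨b1, b2, b3, b4⟩ | ⟨b1, b2, b3, b4⟩) |
      (⟨b1, b2, b3, b4⟩ | ⟨b1, b2, b3, b4⟩ | ⟨b1, b2, b3, b4⟩) <;>
    simp only [Prod.mk.injEq, Fin.ext_iff] at * <;> omega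

lemma famT_partner {x y z : Fin n × Fin n × Fin 6} (h1 : (famT n).Adj x y) (h2 : (famT n).Adj x z)
    (hyz : y ≠ z) (h1' : ¬ Tr x y) : Tr x z := by
  by_contra h2'
  rw [famT_adj] at h1 h2
  exact hyz (partner_unique (h1.2.resolve_left h1') (h2.2.resolve_left h2'))

/-! ### clique-width -/

/-- row index of adjacent vertices -/
lemma row_adj {x y : Fin n × Fin n × Fin 6} (h : (famT n).Adj x y) : x.1.val ≤ y.1.val + 1 := by
  rw [famT_adj] at h
  rcases h.2 with h | (h | h | h) | (h | h | h)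
  · rw [h.1]
    omega
  · rw [h.1]
    omega
  · rw [h.1]
    omega
  · omega
  · rw [h.1]
    omega
  · rw [h.1]
    omega
  · omega

/-- swapping rows and columns -/
def sw : Fin 6 → Fin 6 := ![1, 0, 2, 3, 5, 4]

lemma sw_sw : ∀ r, sw (sw r) = r := by decide

lemma M0_sw {a b a' b' : Fin n} {c c' : Fin 6} :
    M0 (b, a, sw c) (b', a', sw c') ↔ M0 (a, b, c) (a', b', c') := by
  have e2 : ∀ c : Fin 6, sw c = 2 ↔ c = 2 := by decide
  have e3 : ∀ c : Fin 6, sw c = 3 ↔ c = 3 := by decide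
  have e4 : ∀ c : Fin 6, sw c = 5 ↔ c = 4 := by decide
  have e5 : ∀ c : Fin 6, sw c = 4 ↔ c = 5 := by decide
  have e6 : ∀ c : Fin 6, sw c = 0 ↔ c = 1 := by decide
  have e7 : ∀ c : Fin 6, sw c = 1 ↔ c = 0 := by decide
  simp only [M0, e2, e3, e4, e5, e6, e7]
  constructor
  · rintro (⟨h1, h2, h3, h4⟩ | ⟨h1, h2, h3, h4⟩ | ⟨h1, h2, h3, h4⟩)
    · exact Or.inl ⟨h2, h1, h3, h4⟩
    · exact Or.inr (Or.inr ⟨h2, h1, h3, h4⟩)
    · exact Or.inr (Or.inl ⟨h2, h1, h3, h4⟩)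
  · rintro (⟨h1, h2, h3, h4⟩ | ⟨h1, h2, h3, h4⟩ | ⟨h1, h2, h3, h4⟩)
    · exact Or.inl ⟨h2, h1, h3, h4⟩
    · exact Or.inr (Or.inr ⟨h2, h1, h3, h4⟩)
    · exact Or.inr (Or.inl ⟨h2, h1, h3, h4⟩)

lemma Tr_sw {a b a' b' : Fin n} {c c' : Fin 6} :
    Tr (b, a, sw c) (b', a', sw c') ↔ Tr (a, b, c) (a', b', c') := by
  have e1 : ∀ c c' : Fin 6, ((sw c).val / 3 = (sw c').val / 3 ↔ c.val / 3 = c'.val / 3) := by decide
  simp only [Tr, e1]
  constructor
  · rintro ⟨h1, h2, h3⟩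
    exact ⟨h2, h1, h3⟩
  · rintro ⟨h1, h2, h3⟩
    exact ⟨h2, h1, h3⟩

def swapT (n : ℕ) : famT n ≃g famT n where
  toFun x := (x.2.1, x.1, sw x.2.2)
  invFun x := (x.2.1, x.1, sw x.2.2)
  left_inv x := by
    obtain ⟨a, b, c⟩ := x
    simp [sw_sw]
  right_inv x := by
    obtain ⟨a, b, c⟩ := x
    simp [sw_sw]
  map_rel_iff' := by
    rintro ⟨a, b, c⟩ ⟨a', b', c'⟩
    change (famT n).Adj (b, a, sw c) (b', a', sw c') ↔ (famT n).Adj (a, b, c) (a', b', c')
    rw [famT_adj, famT_adj, M0_sw, M0_sw, Tr_sw]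
    have e0 : ∀ c c' : Fin 6, sw c = sw c' ↔ c = c' := by decide
    have e1 : ((b, a, sw c) ≠ (b', a', sw c')) ↔ ((a, b, c) ≠ (a', b', c')) := by
      rw [Ne, Ne, Prod.mk.injEq, Prod.mk.injEq, Prod.mk.injEq, Prod.mk.injEq, e0]
      constructor
      · exact fun h h' => h ⟨h'.2.1, h'.1, h'.2.2⟩
      · exact fun h h' => h ⟨h'.2.1, h'.1, h'.2.2⟩
    rw [e1]

open Classical in
/-- mixed rows -/
noncomputable def mixedT (A : Set (Fin n × Fin n × Fin 6)) : Finset (Fin n) :=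
  Finset.univ.filter (fun i => (∃ p, (i, p) ∈ A) ∧ ∃ p, (i, p) ∉ A)

lemma row_step (A : Set (Fin n × Fin n × Fin 6)) {i : Fin n} (h1 : ∃ p, (i, p) ∈ A)
    (h2 : ∃ p, (i, p) ∉ A) : ∃ a b : Fin n × Fin 6, (i, a) ∈ A ∧ (i, b) ∉ A ∧
      (famT n).Adj (i, a) (i, b) := by
  have hn : 0 < n := i.pos
  -- the position `p` of the row
  have hdiv : ∀ p : Fin (n * 6), p.val / 6 < n := fun p => Nat.div_lt_of_lt_mul (by
    have := p.2
    omega)
  let pt : Fin (n * 6) → Fin n × Fin 6 := fun p => (⟨p.val / 6, hdiv p⟩, ⟨p.val % 6, by omega⟩)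
  have hsurj : ∀ q : Fin n × Fin 6, ∃ p, pt p = q := by
    rintro ⟨⟨a, ha⟩, ⟨b, hb⟩⟩
    refine ⟨⟨a * 6 + b, by omega⟩, ?_⟩
    simp only [pt, Prod.mk.injEq, Fin.mk.injEq]
    omega
  obtain ⟨a, b, ha, hb, hab⟩ := CutAux.step_exists (fun p => (i, pt p) ∈ A)
    (by
      obtain ⟨q, hq⟩ := h1
      obtain ⟨p, hp⟩ := hsurj q
      exact ⟨p, by rw [hp]; exact hq⟩)
    (by
      obtain ⟨q, hq⟩ := h2
      obtain ⟨p, hp⟩ := hsurj q
      exact ⟨p, by rw [hp]; exact hq⟩)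
  have hadj : ∀ a b : Fin (n * 6), a.val + 1 = b.val → (famT n).Adj (i, pt a) (i, pt b) := by
    intro a b hab
    rw [famT_adj]
    refine ⟨?_, ?_⟩
    · intro h
      simp only [pt, Prod.mk.injEq, Fin.mk.injEq, true_and] at h
      omega
    · by_cases h5 : a.val % 6 = 5
      · refine Or.inr (Or.inl (Or.inr (Or.inl ⟨rfl, ?_, ?_, ?_⟩)))
        · change a.val / 6 + 1 = b.val / 6
          omega
        · exact Fin.ext h5
        · refine Fin.ext ?_
          change b.val % 6 = 0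
          omega
      · by_cases h2 : a.val % 6 = 2
        · refine Or.inr (Or.inl (Or.inl ⟨rfl, ?_, ?_, ?_⟩))
          · refine Fin.ext ?_
            change a.val / 6 = b.val / 6
            omega
          · exact Fin.ext h2
          · refine Fin.ext ?_
            change b.val % 6 = 3
            omega
        · refine Or.inl ⟨rfl, ?_, ?_⟩
          · refine Fin.ext ?_
            change a.val / 6 = b.val / 6
            omega
          · change a.val % 6 / 3 = b.val % 6 / 3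
            have h6 : a.val % 6 < 6 := Nat.mod_lt _ (by omega)
            have h7 : b.val % 6 = a.val % 6 + 1 := by omega
            rw [h7]
            generalize a.val % 6 = r at *
            interval_cases r <;> first | rfl | exact absurd rfl h2 | exact absurd rfl h5
  refine ⟨pt a, pt b, ha, hb, ?_⟩
  rcases hab with h | h
  · exact hadj a b h
  · exact (hadj b a h).symm

theorem mixedT_le {k : ℕ} (A : Set (Fin n × Fin n × Fin 6)) (h : Types (famT n) A k) :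
    (mixedT A).card ≤ 2 * k := by
  classical
  obtain ⟨l, hl⟩ := h
  have hch : ∀ i : Fin n, i ∈ mixedT A → ∃ a b : Fin n × Fin 6, (i, a) ∈ A ∧ (i, b) ∉ A ∧
      (famT n).Adj (i, a) (i, b) := by
    intro i hi
    simp only [mixedT, Finset.mem_filter, Finset.mem_univ, true_and] at hi
    exact row_step A hi.1 hi.2
  by_cases hn : n = 0
  · subst hn
    have : mixedT A = ∅ := by
      ext i
      exact i.elim0
    rw [this]
    simp
  have hne : Nonempty (Fin n × Fin 6) := ⟨⟨⟨0, by omega⟩, 0⟩⟩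
  choose! a b ha hb hab using hch
  by_contra hcon
  push Not at hcon
  have hcard : (Finset.univ : Finset (Fin k)).card * 2 < (mixedT A).card := by
    simp; omega
  obtain ⟨t, _, ht⟩ := Finset.exists_lt_card_fiber_of_mul_lt_card_of_maps_to
    (f := fun i => l (i, a i)) (s := mixedT A) (t := Finset.univ) (fun _ _ => Finset.mem_univ _) hcard
  rw [Finset.two_lt_card] at ht
  obtain ⟨x, hx, y, hy, z, hz, hxy, hxz, hyz⟩ := ht
  simp only [Finset.mem_filter] at hx hy hz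
  have key : ∀ x y : Fin n, x ∈ mixedT A → y ∈ mixedT A → l (x, a x) = l (y, a y) →
      x.val ≤ y.val + 1 := by
    intro x y hx hy hxy
    have h2 := (hl _ (ha x hx) _ (ha y hy) hxy _ (hb x hx)).1 (hab x hx)
    exact row_adj h2.symm
  have k1 := key x y hx.1 hy.1 (hx.2.trans hy.2.symm)
  have k2 := key y x hy.1 hx.1 (hy.2.trans hx.2.symm)
  have k3 := key x z hx.1 hz.1 (hx.2.trans hz.2.symm)
  have k4 := key z x hz.1 hx.1 (hz.2.trans hx.2.symm)
  have k5 := key y z hy.1 hz.1 (hy.2.trans hz.2.symm)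
  have k6 := key z y hz.1 hy.1 (hz.2.trans hy.2.symm)
  have n1 : x.val ≠ y.val := fun h => hxy (Fin.ext h)
  have n2 : x.val ≠ z.val := fun h => hxz (Fin.ext h)
  have n3 : y.val ≠ z.val := fun h => hyz (Fin.ext h)
  omega

theorem card_le_mixedT (A : Set (Fin n × Fin n × Fin 6)) (h : ∀ i, (∃ p, (i, p) ∈ A) → i ∈ mixedT A) :
    A.ncard ≤ (mixedT A).card * (n * 6) := by
  have h1 : A ⊆ ((mixedT A ×ˢ (Finset.univ : Finset (Fin n × Fin 6)) : Finset _) :
      Set (Fin n × Fin n × Fin 6)) := by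
    rintro ⟨i, p⟩ hip
    simp only [Finset.coe_product, Finset.coe_univ, Set.mem_prod, Finset.mem_coe, Set.mem_univ,
      and_true]
    exact h i ⟨p, hip⟩
  have h2 := Set.ncard_le_ncard h1 (Finset.finite_toSet _)
  rw [Set.ncard_coe_finset, Finset.card_product] at h2
  simpa using h2

theorem mixedT_compl (A : Set (Fin n × Fin n × Fin 6)) : mixedT Aᶜ = mixedT A := by
  ext i
  simp only [mixedT, Finset.mem_filter, Finset.mem_univ, true_and, Set.mem_compl_iff, not_not]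
  tauto

end

theorem famT_unbounded : ∀ c N : ℕ, ∃ n ≥ N, ∀ k ≤ c, ¬ CwLE (famT n) k := by
  intro c N
  refine ⟨N + 6 * c + 2, by omega, ?_⟩
  intro k hk hcw
  set n := N + 6 * c + 2 with hn
  have hcard : (Set.univ : Set (Fin n × Fin n × Fin 6)).ncard = n * (n * 6) := by
    rw [Set.ncard_univ]; simp
  obtain ⟨A, hT, h1, h2⟩ := balanced_cut (famT n) k hcw Set.univ (by rw [hcard]; nlinarith)
  rw [Set.inter_univ, hcard] at h1 h2
  have hcompl : A.ncard + Aᶜ.ncard = n * (n * 6) := by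
    rw [Set.ncard_add_ncard_compl]; simp
  have hm := mixedT_le A hT
  have hbig : n ≤ 3 * (mixedT A).card → False := by
    intro h; omega
  by_cases hfull : ∃ i, ∀ p, (i, p) ∈ A
  · by_cases hempty : ∃ i, ∀ p, (i, p) ∉ A
    · obtain ⟨i, hi⟩ := hfull
      obtain ⟨i', hi'⟩ := hempty
      have hT' : Types (famT n) (swapT n ⁻¹' A) k := Types.iso _ hT
      have hm' := mixedT_le _ hT'
      have : mixedT (swapT n ⁻¹' A) = Finset.univ := by
        ext j
        simp only [mixedT, Finset.mem_filter, Finset.mem_univ, true_and, iff_true]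
        exact ⟨⟨(i, 0), hi (j, sw 0)⟩, ⟨(i', 0), hi' (j, sw 0)⟩⟩
      rw [this] at hm'
      simp at hm'
      omega
    · push Not at hempty
      have h3 : Aᶜ.ncard ≤ (mixedT Aᶜ).card * (n * 6) := by
        apply card_le_mixedT
        rintro i ⟨j, hj⟩
        rw [mixedT_compl]
        simp only [mixedT, Finset.mem_filter, Finset.mem_univ, true_and]
        exact ⟨hempty i, j, hj⟩
      rw [mixedT_compl] at h3
      apply hbig
      have : n * (n * 6) ≤ 3 * ((mixedT A).card * (n * 6)) := by omega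
      have : n * (n * 6) ≤ (3 * (mixedT A).card) * (n * 6) := by linarith
      exact Nat.le_of_mul_le_mul_right this (by omega)
  · push Not at hfull
    have h3 : A.ncard ≤ (mixedT A).card * (n * 6) := by
      apply card_le_mixedT
      rintro i ⟨j, hj⟩
      simp only [mixedT, Finset.mem_filter, Finset.mem_univ, true_and]
      exact ⟨⟨j, hj⟩, hfull i⟩
    apply hbig
    have : n * (n * 6) ≤ (3 * (mixedT A).card) * (n * 6) := by linarith
    exact Nat.le_of_mul_le_mul_right this (by omega)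

end Pool.Agent.R36.Itm
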