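import Pool.Agent.H175R2.Fam
import Pool.Agent.R36.ItmTrunc
import Pool.Agent.R36.Itm

/-!
# Properties of graphs preserved under subdivision, and families of unbounded clique-width
-/

set_option autoImplicit false

namespace Pool.Agent.R36.Itm

open Pool.Agent.H175R2

/-- transfer of a property along induced topological minors -/
theorem itm_prop (Q : ∀ {V : Type}, SimpleGraph V → Prop)
    (hemb : ∀ {V V' : Type} {G : SimpleGraph V} {G' : SimpleGraph V'}, (G ↪g G') → Q G → Q G')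
    (hstep : ∀ {V V' : Type} {G : SimpleGraph V} {G' : SimpleGraph V'}, SubdividesEdge G G' →
      Q G → Q G')
    {W V : Type} {H : SimpleGraph W} {G : SimpleGraph V} (h : ITM H G) (hQ : Q H) : Q G := by
  obtain ⟨X, S, hS, ⟨φ⟩⟩ := h
  refine hemb φ ?_
  clear φ
  induction hS with
  | iso e => exact hemb e.symm.toEmbedding hQ
  | step _ h ih => exact hstep h ih

/-! ### three pairwise nonadjacent vertices -/

def Q1 {V : Type} (G : SimpleGraph V) : Prop :=
  ∃ x y z, x ≠ y ∧ x ≠ z ∧ y ≠ z ∧ ¬ G.Adj x y ∧ ¬ G.Adj x z ∧ ¬ G.Adj y z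

lemma q1_emb {V V' : Type} {G : SimpleGraph V} {G' : SimpleGraph V'} (φ : G ↪g G') (h : Q1 G) :
    Q1 G' := by
  obtain ⟨x, y, z, h1, h2, h3, h4, h5, h6⟩ := h
  refine ⟨φ x, φ y, φ z, fun h => h1 (φ.injective h), fun h => h2 (φ.injective h),
    fun h => h3 (φ.injective h), ?_, ?_, ?_⟩
  · rwa [φ.map_adj_iff]
  · rwa [φ.map_adj_iff]
  · rwa [φ.map_adj_iff]

lemma q1_step {V V' : Type} {G : SimpleGraph V} {G' : SimpleGraph V'} (hs : SubdividesEdge G G')
    (h : Q1 G) : Q1 G' := by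
  obtain ⟨u, v, f, w, huv, hw, hcov, hf, hwf⟩ := hs
  obtain ⟨x, y, z, h1, h2, h3, h4, h5, h6⟩ := h
  refine ⟨f x, f y, f z, fun h => h1 (f.injective h), fun h => h2 (f.injective h),
    fun h => h3 (f.injective h), ?_, ?_, ?_⟩
  · rw [hf]
    exact fun h => h4 h.1
  · rw [hf]
    exact fun h => h5 h.1
  · rw [hf]
    exact fun h => h6 h.1

/-! ### a vertex with four neighbours -/

def Q2 {V : Type} (G : SimpleGraph V) : Prop :=
  ∃ (x : V) (g : Fin 4 → V), Function.Injective g ∧ ∀ i, G.Adj x (g i)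

lemma q2_emb {V V' : Type} {G : SimpleGraph V} {G' : SimpleGraph V'} (φ : G ↪g G') (h : Q2 G) :
    Q2 G' := by
  obtain ⟨x, g, h1, h2⟩ := h
  exact ⟨φ x, fun i => φ (g i), fun i j hij => h1 (φ.injective hij),
    fun i => φ.map_adj_iff.2 (h2 i)⟩

lemma q2_step {V V' : Type} {G : SimpleGraph V} {G' : SimpleGraph V'} (hs : SubdividesEdge G G')
    (h : Q2 G) : Q2 G' := by
  classical
  obtain ⟨u, v, f, w, huv, hw, hcov, hf, hwf⟩ := hs
  obtain ⟨x, g, h1, h2⟩ := h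
  refine ⟨f x, fun i => if s(x, g i) = s(u, v) then w else f (g i), ?_, ?_⟩
  · intro i j hij
    dsimp only at hij
    by_cases hi : s(x, g i) = s(u, v)
    · by_cases hj : s(x, g j) = s(u, v)
      · apply h1
        have := hi.trans hj.symm
        rwa [Sym2.congr_right] at this
      · rw [if_pos hi, if_neg hj] at hij
        exact absurd ⟨g j, hij.symm⟩ hw
    · by_cases hj : s(x, g j) = s(u, v)
      · rw [if_neg hi, if_pos hj] at hij
        exact absurd ⟨g i, hij⟩ hw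
      · rw [if_neg hi, if_neg hj] at hij
        exact h1 (f.injective hij)
  · intro i
    dsimp only
    by_cases hi : s(x, g i) = s(u, v)
    · rw [if_pos hi, SimpleGraph.adj_comm, hwf]
      rw [Sym2.eq_iff] at hi
      rcases hi with h | h
      · exact Or.inl h.1
      · exact Or.inr h.1
    · rw [if_neg hi, hf]
      exact ⟨h2 i, hi⟩

/-! ### subdivisions of the complete graph on four vertices -/

def Q3 {V : Type} (G : SimpleGraph V) : Prop :=
  ∃ (b : Fin 4 → V) (m : Fin 4 → Fin 4 → V), Function.Injective b ∧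
    (∀ i j, i ≠ j → G.Adj (b i) (m i j)) ∧
    (∀ i j k, i ≠ j → i ≠ k → j ≠ k → m i j ≠ m i k) ∧
    (∀ i j k, i ≠ j → i ≠ k → j ≠ k → G.Adj (m i j) (m i k) → m i j = b j ∧ m i k = b k)

lemma q3_emb {V V' : Type} {G : SimpleGraph V} {G' : SimpleGraph V'} (φ : G ↪g G') (h : Q3 G) :
    Q3 G' := by
  obtain ⟨b, m, h1, h2, h3, h4⟩ := h
  refine ⟨fun i => φ (b i), fun i j => φ (m i j), fun i j hij => h1 (φ.injective hij),
    fun i j hij => φ.map_adj_iff.2 (h2 i j hij), fun i j k a b c h => h3 i j k a b c (φ.injective h),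
    fun i j k a b c h => ?_⟩
  obtain ⟨e1, e2⟩ := h4 i j k a b c (φ.map_adj_iff.1 h)
  exact ⟨congrArg φ e1, congrArg φ e2⟩

lemma q3_step {V V' : Type} {G : SimpleGraph V} {G' : SimpleGraph V'} (hs : SubdividesEdge G G')
    (h : Q3 G) : Q3 G' := by
  classical
  obtain ⟨u, v, f, w, huv, hw, hcov, hf, hwf⟩ := hs
  obtain ⟨b, m, h1, h2, h3, h4⟩ := h
  have hpos : ∀ i j, s(b i, m i j) = s(u, v) →
      (if s(b i, m i j) = s(u, v) then w else f (m i j)) = w := fun i j h => if_pos h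
  have hneg : ∀ i j, s(b i, m i j) ≠ s(u, v) →
      (if s(b i, m i j) = s(u, v) then w else f (m i j)) = f (m i j) := fun i j h => if_neg h
  refine ⟨fun i => f (b i), fun i j => if s(b i, m i j) = s(u, v) then w else f (m i j),
    fun i j hij => h1 (f.injective hij), ?_, ?_, ?_⟩
  · intro i j hij
    dsimp only
    by_cases hi : s(b i, m i j) = s(u, v)
    · rw [hpos i j hi, SimpleGraph.adj_comm, hwf]
      rw [Sym2.eq_iff] at hi
      rcases hi with h | h
      · exact Or.inl h.1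
      · exact Or.inr h.1
    · rw [hneg i j hi, hf]
      exact ⟨h2 i j hij, hi⟩
  · intro i j k hij hik hjk
    dsimp only
    by_cases hi : s(b i, m i j) = s(u, v)
    · by_cases hj : s(b i, m i k) = s(u, v)
      · intro _
        apply h3 i j k hij hik hjk
        have := hi.trans hj.symm
        rwa [Sym2.congr_right] at this
      · rw [hpos i j hi, hneg i k hj]
        exact fun h => hw ⟨m i k, h.symm⟩
    · by_cases hj : s(b i, m i k) = s(u, v)
      · rw [hneg i j hi, hpos i k hj]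
        exact fun h => hw ⟨m i j, h⟩
      · rw [hneg i j hi, hneg i k hj]
        exact fun h => h3 i j k hij hik hjk (f.injective h)
  · intro i j k hij hik hjk
    dsimp only
    -- the new vertex is adjacent to none of the other neighbours
    have aux : ∀ j k : Fin 4, i ≠ j → i ≠ k → j ≠ k → s(b i, m i j) = s(u, v) →
        ¬ G'.Adj w (f (m i k)) := by
      intro j k hij hik hjk hi hadj
      rw [hwf] at hadj
      rw [Sym2.eq_iff] at hi
      have e1 : m i k ≠ b i := (h2 i k hik).ne'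
      have e2 : m i k ≠ m i j := fun h => h3 i j k hij hik hjk h.symm
      rcases hi with ⟨g1, g2⟩ | ⟨g1, g2⟩
      · rcases hadj with h | h
        · exact e1 (h.trans g1.symm)
        · exact e2 (h.trans g2.symm)
      · rcases hadj with h | h
        · exact e2 (h.trans g2.symm)
        · exact e1 (h.trans g1.symm)
    by_cases hi : s(b i, m i j) = s(u, v)
    · by_cases hj : s(b i, m i k) = s(u, v)
      · rw [hpos i j hi, hpos i k hj]
        exact fun h => absurd rfl h.ne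
      · rw [hpos i j hi, hneg i k hj]
        exact fun h => absurd h (aux j k hij hik hjk hi)
    · by_cases hj : s(b i, m i k) = s(u, v)
      · rw [hneg i j hi, hpos i k hj]
        exact fun h => absurd h.symm (aux k j hik hij hjk.symm hj)
      · rw [hneg i j hi, hneg i k hj, hf]
        intro h
        obtain ⟨e1, e2⟩ := h4 i j k hij hik hjk h.1
        exact ⟨congrArg f e1, congrArg f e2⟩

/-! ### triangle-free sets of minimum degree two, and 2K_2 -/

/-- every vertex of `X` has two neighbours in `X` -/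
def MinTwo {V : Type} (G : SimpleGraph V) (X : Set V) : Prop :=
  X.Nonempty ∧ ∀ x ∈ X, ∃ y ∈ X, ∃ z ∈ X, y ≠ z ∧ G.Adj x y ∧ G.Adj x z

def Q4 {V : Type} (G : SimpleGraph V) : Prop :=
  ∃ X : Set V, MinTwo G X ∧
    ∀ x ∈ X, ∀ y ∈ X, ∀ z ∈ X, G.Adj x y → G.Adj y z → ¬ G.Adj x z

/-- the image of a set after subdividing an edge -/
def img {V V' : Type} (f : V ↪ V') (w : V') (u v : V) (X : Set V) : Set V' :=
  {p | (∃ x ∈ X, f x = p) ∨ (p = w ∧ u ∈ X ∧ v ∈ X)}

lemma minTwo_emb {V V' : Type} {G : SimpleGraph V} {G' : SimpleGraph V'} (φ : G ↪g G') {X : Set V}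
    (h : MinTwo G X) : MinTwo G' (φ '' X) := by
  obtain ⟨⟨x, hx⟩, h⟩ := h
  refine ⟨⟨φ x, x, hx, rfl⟩, ?_⟩
  rintro _ ⟨x, hx, rfl⟩
  obtain ⟨y, hy, z, hz, hyz, h1, h2⟩ := h x hx
  exact ⟨φ y, ⟨y, hy, rfl⟩, φ z, ⟨z, hz, rfl⟩, fun h => hyz (φ.injective h),
    φ.map_adj_iff.2 h1, φ.map_adj_iff.2 h2⟩

lemma minTwo_step {V V' : Type} {G : SimpleGraph V} {G' : SimpleGraph V'} {u v : V} {f : V ↪ V'}
    {w : V'} (huv : G.Adj u v) (hw : w ∉ Set.range f)
    (hf : ∀ x y, G'.Adj (f x) (f y) ↔ G.Adj x y ∧ s(x, y) ≠ s(u, v))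
    (hwf : ∀ x, G'.Adj w (f x) ↔ x = u ∨ x = v) {X : Set V} (h : MinTwo G X) :
    MinTwo G' (img f w u v X) := by
  classical
  obtain ⟨⟨x, hx⟩, h⟩ := h
  refine ⟨⟨f x, Or.inl ⟨x, hx, rfl⟩⟩, ?_⟩
  rintro p (⟨x, hx, rfl⟩ | ⟨rfl, hu, hv⟩)
  · obtain ⟨y, hy, z, hz, hyz, h1, h2⟩ := h x hx
    have key : ∀ y ∈ X, G.Adj x y →
        (if s(x, y) = s(u, v) then w else f y) ∈ img f w u v X ∧
        G'.Adj (f x) (if s(x, y) = s(u, v) then w else f y) := by
      intro y hy hxy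
      by_cases he : s(x, y) = s(u, v)
      · rw [if_pos he, SimpleGraph.adj_comm, hwf]
        rw [Sym2.eq_iff] at he
        rcases he with ⟨g1, g2⟩ | ⟨g1, g2⟩
        · exact ⟨Or.inr ⟨rfl, g1 ▸ hx, g2 ▸ hy⟩, Or.inl g1⟩
        · exact ⟨Or.inr ⟨rfl, g2 ▸ hy, g1 ▸ hx⟩, Or.inr g1⟩
      · rw [if_neg he, hf]
        exact ⟨Or.inl ⟨y, hy, rfl⟩, hxy, he⟩
    refine ⟨_, (key y hy h1).1, _, (key z hz h2).1, ?_, (key y hy h1).2, (key z hz h2).2⟩
    by_cases hi : s(x, y) = s(u, v)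
    · by_cases hj : s(x, z) = s(u, v)
      · intro _
        apply hyz
        have := hi.trans hj.symm
        rwa [Sym2.congr_right] at this
      · rw [if_pos hi, if_neg hj]
        exact fun h => hw ⟨z, h.symm⟩
    · by_cases hj : s(x, z) = s(u, v)
      · rw [if_neg hi, if_pos hj]
        exact fun h => hw ⟨y, h⟩
      · rw [if_neg hi, if_neg hj]
        exact fun h => hyz (f.injective h)
  · exact ⟨f u, Or.inl ⟨u, hu, rfl⟩, f v, Or.inl ⟨v, hv, rfl⟩, fun h => huv.ne (f.injective h),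
      (hwf u).2 (Or.inl rfl), (hwf v).2 (Or.inr rfl)⟩

lemma q4_emb {V V' : Type} {G : SimpleGraph V} {G' : SimpleGraph V'} (φ : G ↪g G') (h : Q4 G) :
    Q4 G' := by
  obtain ⟨X, h1, h2⟩ := h
  refine ⟨φ '' X, minTwo_emb φ h1, ?_⟩
  rintro _ ⟨x, hx, rfl⟩ _ ⟨y, hy, rfl⟩ _ ⟨z, hz, rfl⟩
  rw [φ.map_adj_iff, φ.map_adj_iff, φ.map_adj_iff]
  exact h2 x hx y hy z hz

lemma q4_step {V V' : Type} {G : SimpleGraph V} {G' : SimpleGraph V'} (hs : SubdividesEdge G G')
    (h : Q4 G) : Q4 G' := by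
  obtain ⟨u, v, f, w, huv, hw, hcov, hf, hwf⟩ := hs
  obtain ⟨X, h1, h2⟩ := h
  refine ⟨img f w u v X, minTwo_step huv hw hf hwf h1, ?_⟩
  -- no triangle through `w`
  have key : ∀ x y, G'.Adj w (f x) → G'.Adj w (f y) → ¬ G'.Adj (f x) (f y) := by
    intro x y hx hy hxy
    rw [hwf] at hx hy
    rw [hf] at hxy
    apply hxy.2
    have hne := hxy.1.ne
    rcases hx with rfl | rfl <;> rcases hy with rfl | rfl
    · exact absurd rfl hne
    · rfl
    · exact Sym2.eq_swap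
    · exact absurd rfl hne
  rintro p (⟨x, hx, rfl⟩ | ⟨rfl, -, -⟩) q (⟨y, hy, rfl⟩ | ⟨rfl, -, -⟩) r (⟨z, hz, rfl⟩ | ⟨rfl, -, -⟩)
      a1 a2 a3
  · rw [hf] at a1 a2 a3
    exact h2 x hx y hy z hz a1.1 a2.1 a3.1
  · exact key x y a3.symm a2.symm a1
  · exact key x z a1.symm a2 a3
  · exact absurd rfl a2.ne
  · exact key y z a1 a3 a2
  · exact absurd rfl a3.ne
  · exact absurd rfl a1.ne
  · exact absurd rfl a1.ne

def Q5 {V : Type} (G : SimpleGraph V) : Prop :=
  ∃ a b c d, G.Adj a b ∧ G.Adj c d ∧ ¬ G.Adj a c ∧ ¬ G.Adj a d ∧ ¬ G.Adj b c ∧ ¬ G.Adj b d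

lemma q5_emb {V V' : Type} {G : SimpleGraph V} {G' : SimpleGraph V'} (φ : G ↪g G') (h : Q5 G) :
    Q5 G' := by
  obtain ⟨a, b, c, d, h⟩ := h
  refine ⟨φ a, φ b, φ c, φ d, ?_⟩
  simp only [φ.map_adj_iff]
  exact h

lemma q5_step {V V' : Type} {G : SimpleGraph V} {G' : SimpleGraph V'} (hs : SubdividesEdge G G')
    (h : Q5 G) : Q5 G' := by
  obtain ⟨u, v, f, w, huv, hw, hcov, hf, hwf⟩ := hs
  -- the case that the first edge is subdivided
  have key : ∀ a b c d, G.Adj a b → G.Adj c d → ¬ G.Adj a c → ¬ G.Adj a d → ¬ G.Adj b c →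
      ¬ G.Adj b d → s(a, b) = s(u, v) → Q5 G' := by
    intro a b c d h1 h2 h3 h4 h5 h6 he
    have hca : c ≠ a := by
      rintro rfl
      exact h5 h1.symm
    have hcb : c ≠ b := by
      rintro rfl
      exact h3 h1
    have hda : d ≠ a := by
      rintro rfl
      exact h6 h1.symm
    have hdb : d ≠ b := by
      rintro rfl
      exact h4 h1
    have hmem : ∀ e, e ≠ a → e ≠ b → ¬ (e = u ∨ e = v) := by
      intro e hea heb h
      rw [Sym2.eq_iff] at he
      rcases he with ⟨g1, g2⟩ | ⟨g1, g2⟩ <;> rcases h with h | h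
      · exact hea (h.trans g1.symm)
      · exact heb (h.trans g2.symm)
      · exact heb (h.trans g2.symm)
      · exact hea (h.trans g1.symm)
    have ha : a = u ∨ a = v := by
      rw [Sym2.eq_iff] at he
      rcases he with ⟨g1, g2⟩ | ⟨g1, g2⟩
      · exact Or.inl g1
      · exact Or.inr g1
    refine ⟨f a, w, f c, f d, ?_, ?_, ?_, ?_, ?_, ?_⟩
    · rw [SimpleGraph.adj_comm, hwf]
      exact ha
    · rw [hf]
      refine ⟨h2, fun h => ?_⟩
      rw [← he, Sym2.eq_iff] at h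
      rcases h with ⟨g1, -⟩ | ⟨g1, -⟩
      · exact hca g1
      · exact hcb g1
    · rw [hf]
      exact fun h => h3 h.1
    · rw [hf]
      exact fun h => h4 h.1
    · rw [hwf]
      exact hmem c hca hcb
    · rw [hwf]
      exact hmem d hda hdb
  obtain ⟨a, b, c, d, h1, h2, h3, h4, h5, h6⟩ := h
  by_cases e1 : s(a, b) = s(u, v)
  · exact key a b c d h1 h2 h3 h4 h5 h6 e1
  by_cases e2 : s(c, d) = s(u, v)
  · exact key c d a b h2 h1 (fun h => h3 h.symm) (fun h => h5 h.symm) (fun h => h4 h.symm)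
      (fun h => h6 h.symm) e2
  refine ⟨f a, f b, f c, f d, ?_⟩
  simp only [hf]
  exact ⟨⟨h1, e1⟩, ⟨h2, e2⟩, fun h => h3 h.1, fun h => h4 h.1, fun h => h5 h.1, fun h => h6 h.1⟩

def Q6 {V : Type} (G : SimpleGraph V) : Prop :=
  ∃ (p : V) (X : Set V), p ∉ X ∧ (∀ x ∈ X, ¬ G.Adj p x) ∧ MinTwo G X

lemma q6_emb {V V' : Type} {G : SimpleGraph V} {G' : SimpleGraph V'} (φ : G ↪g G') (h : Q6 G) :
    Q6 G' := by
  obtain ⟨p, X, h1, h2, h3⟩ := h
  refine ⟨φ p, φ '' X, ?_, ?_, minTwo_emb φ h3⟩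
  · rintro ⟨x, hx, hxp⟩
    exact h1 ((φ.injective hxp) ▸ hx)
  · rintro _ ⟨x, hx, rfl⟩
    rw [φ.map_adj_iff]
    exact h2 x hx

lemma q6_step {V V' : Type} {G : SimpleGraph V} {G' : SimpleGraph V'} (hs : SubdividesEdge G G')
    (h : Q6 G) : Q6 G' := by
  obtain ⟨u, v, f, w, huv, hw, hcov, hf, hwf⟩ := hs
  obtain ⟨p, X, h1, h2, h3⟩ := h
  refine ⟨f p, img f w u v X, ?_, ?_, minTwo_step huv hw hf hwf h3⟩
  · rintro (⟨x, hx, hxp⟩ | ⟨hp, -, -⟩)
    · exact h1 ((f.injective hxp) ▸ hx)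
    · exact hw ⟨p, hp⟩
  · rintro q (⟨x, hx, rfl⟩ | ⟨rfl, hu, hv⟩)
    · rw [hf]
      exact fun h => h2 x hx h.1
    · rw [SimpleGraph.adj_comm, hwf]
      rintro (rfl | rfl)
      · exact h1 hu
      · exact h1 hv

/-! ### the families do not have the properties -/

lemma not_q1_cobip (n : ℕ) : ¬ Q1 (famCobip n) := by
  have hl : ∀ a b : Fin n, a ≠ b → (famCobip n).Adj (.inl a) (.inl b) := by
    intro a b hab
    simp [famCobip, SimpleGraph.fromRel_adj, hab]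
  have hr : ∀ a b : Fin n × Fin n, a ≠ b → (famCobip n).Adj (.inr a) (.inr b) := by
    intro a b hab
    simp only [famCobip, SimpleGraph.fromRel_adj]
    exact ⟨fun h => hab (Sum.inr.inj h), Or.inl (Or.inr (Or.inl ⟨a, b, rfl, rfl⟩))⟩
  rintro ⟨x, y, z, h1, h2, h3, h4, h5, h6⟩
  rcases x with x | x <;> rcases y with y | y <;> rcases z with z | z
  · exact h4 (hl _ _ fun h => h1 (by rw [h]))
  · exact h4 (hl _ _ fun h => h1 (by rw [h]))
  · exact h5 (hl _ _ fun h => h2 (by rw [h]))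
  · exact h6 (hr _ _ fun h => h3 (by rw [h]))
  · exact h6 (hl _ _ fun h => h3 (by rw [h]))
  · exact h5 (hr _ _ fun h => h2 (by rw [h]))
  · exact h4 (hr _ _ fun h => h1 (by rw [h]))
  · exact h4 (hr _ _ fun h => h1 (by rw [h]))

lemma split_ll {n : ℕ} (a b : Fin n) : (famSplit n).Adj (.inl a) (.inl b) ↔ a ≠ b := by
  simp only [famSplit, SimpleGraph.fromRel_adj]
  constructor
  · intro h h'
    exact h.1 (by rw [h'])
  · intro h
    exact ⟨fun h' => h (Sum.inl.inj h'), Or.inl (Or.inl ⟨a, b, rfl, rfl⟩)⟩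

lemma split_rr {n : ℕ} (a b : Fin n × Fin n) : ¬ (famSplit n).Adj (.inr a) (.inr b) := by
  simp only [famSplit, SimpleGraph.fromRel_adj]
  rintro ⟨-, (⟨_, _, h, -⟩ | ⟨_, _, h, -⟩) | (⟨_, _, h, -⟩ | ⟨_, _, h, -⟩)⟩ <;>
    exact absurd h (by simp)

lemma not_q4_split (n : ℕ) : ¬ Q4 (famSplit n) := by
  rintro ⟨X, ⟨⟨x0, hx0⟩, hX⟩, htri⟩
  -- two different left vertices adjacent to a common vertex form a triangle
  have hno : ∀ x ∈ X, ∀ a b : Fin n, Sum.inl a ∈ X → Sum.inl b ∈ X → a ≠ b →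
      (famSplit n).Adj x (.inl a) → (famSplit n).Adj x (.inl b) → False := by
    intro x hx a b ha hb hab h1 h2
    exact htri x hx _ ha _ hb h1 ((split_ll a b).2 hab) h2
  have hright : ∀ p : Fin n × Fin n, Sum.inr p ∉ X := by
    intro p hp
    obtain ⟨y, hy, z, hz, hyz, h1, h2⟩ := hX _ hp
    rcases y with a | q
    · rcases z with b | q
      · exact hno _ hp a b hy hz (fun h => hyz (by rw [h])) h1 h2
      · exact split_rr _ _ h2
    · exact split_rr _ _ h1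
  obtain ⟨y, hy, z, hz, hyz, h1, h2⟩ := hX _ hx0
  rcases y with a | q
  · rcases z with b | q
    · exact hno _ hx0 a b hy hz (fun h => hyz (by rw [h])) h1 h2
    · exact hright q hz
  · exact hright q hy

lemma not_q5_split (n : ℕ) : ¬ Q5 (famSplit n) := by
  rintro ⟨a, b, c, d, h1, h2, h3, h4, h5, h6⟩
  -- each edge has a left end
  have hl : ∀ x y, (famSplit n).Adj x y → (∃ i, x = .inl i) ∨ ∃ i, y = .inl i := by
    rintro (x | x) (y | y) h
    · exact Or.inl ⟨x, rfl⟩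
    · exact Or.inl ⟨x, rfl⟩
    · exact Or.inr ⟨y, rfl⟩
    · exact absurd h (split_rr _ _)
  have hadj : ∀ i j : Fin n, ¬ (famSplit n).Adj (.inl i) (.inl j) → i = j := by
    intro i j h
    by_contra hne
    exact h ((split_ll i j).2 hne)
  rcases hl a b h1 with ⟨i, rfl⟩ | ⟨i, rfl⟩ <;> rcases hl c d h2 with ⟨j, rfl⟩ | ⟨j, rfl⟩
  · rw [hadj i j h3] at h1
    exact h5 h1.symm
  · rw [hadj i j h4] at h1
    exact h6 h1.symm
  · rw [hadj i j h5] at h1
    exact h3 h1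
  · rw [hadj i j h6] at h1
    exact h4 h1

lemma not_q6_trunc (n : ℕ) : ¬ Q6 (famTrunc n) := by
  rintro ⟨p, X, hp, hnp, ⟨x0, hx0⟩, hX⟩
  have hadj : ∀ x y : {p : Fin n × Fin n // p.1 ≠ p.2}, (famTrunc n).Adj x y ↔
      x ≠ y ∧ ¬ (x.1.1 = y.1.1 ∨ (x.1.1 = y.1.2 ∧ x.1.2 = y.1.1)) := by
    intro x y
    simp only [famTrunc, SimpleGraph.fromRel_adj]
    constructor
    · rintro ⟨h, h' | h'⟩
      · exact ⟨h, h'⟩
      · exact ⟨h, fun h'' => h' (by
          rcases h'' with h'' | ⟨g1, g2⟩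
          · exact Or.inl h''.symm
          · exact Or.inr ⟨g2.symm, g1.symm⟩)⟩
    · rintro ⟨h, h'⟩
      exact ⟨h, Or.inl h'⟩
  -- elements of `X`
  have hXp : ∀ x ∈ X, p.1.1 = x.1.1 ∨ (p.1.1 = x.1.2 ∧ p.1.2 = x.1.1) := by
    intro x hx
    by_contra h
    exact hnp x hx ((hadj p x).2 ⟨fun h' => hp (h' ▸ hx), h⟩)
  -- two leaves are not adjacent
  have hleaf : ∀ x ∈ X, ∀ y ∈ X, p.1.1 = x.1.1 → p.1.1 = y.1.1 → ¬ (famTrunc n).Adj x y := by
    intro x _ y _ h1 h2 h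
    exact ((hadj x y).1 h).2 (Or.inl (h1.symm.trans h2))
  -- the centre is unique
  have hcen : ∀ x y : {p : Fin n × Fin n // p.1 ≠ p.2}, (p.1.1 = x.1.2 ∧ p.1.2 = x.1.1) →
      (p.1.1 = y.1.2 ∧ p.1.2 = y.1.1) → x = y := by
    rintro x y ⟨h1, h2⟩ ⟨h3, h4⟩
    exact Subtype.ext (Prod.ext (h2.symm.trans h4) (h1.symm.trans h3))
  -- a leaf has at most one neighbour in `X`
  have hone : ∀ x ∈ X, p.1.1 ≠ x.1.1 := by
    intro x hx h
    obtain ⟨y, hy, z, hz, hyz, h1, h2⟩ := hX x hx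
    have hy' := (hXp y hy).resolve_left (fun h' => hleaf x hx y hy h h' h1)
    have hz' := (hXp z hz).resolve_left (fun h' => hleaf x hx z hz h h' h2)
    exact hyz (hcen y z hy' hz')
  obtain ⟨y, hy, z, hz, hyz, h1, h2⟩ := hX x0 hx0
  exact hyz (hcen y z ((hXp y hy).resolve_left (hone y hy)) ((hXp z hz).resolve_left (hone z hz)))

lemma not_q2_trunc (n : ℕ) : ¬ Q2 (famT n) := by
  rintro ⟨x, g, hg, hadj⟩
  have hne : ∀ i j : Fin 4, i ≠ j → g i ≠ g j := fun i j hij h => hij (hg h)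
  -- at most one neighbour is not in the triangle
  have key : ∀ i j : Fin 4, i ≠ j → ¬ Tr x (g i) → Tr x (g j) := fun i j hij h =>
    famT_partner (hadj i) (hadj j) (hne i j hij) h
  have three : ∀ i j k : Fin 4, i ≠ j → i ≠ k → j ≠ k → Tr x (g i) → Tr x (g j) → Tr x (g k) →
      False := by
    intro i j k hij hik hjk h1 h2 h3
    exact tr_four (hadj i).ne (hadj j).ne (hadj k).ne (hne i j hij) (hne i k hik) (hne j k hjk)
      h1 h2 h3
  by_cases h0 : Tr x (g 0)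
  · by_cases h1 : Tr x (g 1)
    · by_cases h2 : Tr x (g 2)
      · exact three 0 1 2 (by decide) (by decide) (by decide) h0 h1 h2
      · exact three 0 1 3 (by decide) (by decide) (by decide) h0 h1 (key 2 3 (by decide) h2)
    · exact three 0 2 3 (by decide) (by decide) (by decide) h0 (key 1 2 (by decide) h1)
        (key 1 3 (by decide) h1)
  · exact three 1 2 3 (by decide) (by decide) (by decide) (key 0 1 (by decide) h0)
      (key 0 2 (by decide) h0) (key 0 3 (by decide) h0)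

lemma not_q3_trunc (n : ℕ) : ¬ Q3 (famT n) := by
  rintro ⟨b, m, hb, hadj, hne, hmm⟩
  -- for each `i` there are two other branch vertices in its triangle
  have two : ∀ i : Fin 4, ∃ j k : Fin 4, i ≠ j ∧ i ≠ k ∧ j ≠ k ∧ Tr (b i) (b j) ∧
      Tr (b i) (b k) := by
    intro i
    -- two of the three neighbours are in the triangle, hence adjacent
    have done : ∀ j k : Fin 4, i ≠ j → i ≠ k → j ≠ k → Tr (b i) (m i j) → Tr (b i) (m i k) →
        ∃ j k : Fin 4, i ≠ j ∧ i ≠ k ∧ j ≠ k ∧ Tr (b i) (b j) ∧ Tr (b i) (b k) := by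
      intro j k hij hik hjk h1 h2
      have h3 : (famT n).Adj (m i j) (m i k) := by
        rw [famT_adj]
        exact ⟨hne i j k hij hik hjk, Or.inl (h1.symm.trans h2)⟩
      obtain ⟨e1, e2⟩ := hmm i j k hij hik hjk h3
      rw [e1] at h1
      rw [e2] at h2
      exact ⟨j, k, hij, hik, hjk, h1, h2⟩
    obtain ⟨j, k, l, hij, hik, hil, hjk, hjl, hkl⟩ : ∃ j k l : Fin 4, i ≠ j ∧ i ≠ k ∧ i ≠ l ∧
        j ≠ k ∧ j ≠ l ∧ k ≠ l := by
      have h : ∀ i : Fin 4, ∃ j k l : Fin 4, i ≠ j ∧ i ≠ k ∧ i ≠ l ∧ j ≠ k ∧ j ≠ l ∧ k ≠ l := by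
        decide
      exact h i
    have key : ∀ j k : Fin 4, i ≠ j → i ≠ k → j ≠ k → ¬ Tr (b i) (m i j) → Tr (b i) (m i k) :=
      fun j k hij hik hjk h => famT_partner (hadj i j hij) (hadj i k hik) (hne i j k hij hik hjk) h
    by_cases h1 : Tr (b i) (m i j)
    · by_cases h2 : Tr (b i) (m i k)
      · exact done j k hij hik hjk h1 h2
      · exact done j l hij hil hjl h1 (key k l hik hil hkl h2)
    · exact done k l hik hil hkl (key j k hij hik hjk h1) (key j l hij hil hjl h1)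
  have hbne : ∀ i j : Fin 4, i ≠ j → b i ≠ b j := fun i j hij h => hij (hb h)
  obtain ⟨j, k, h0j, h0k, hjk, t1, t2⟩ := two 0
  obtain ⟨l, hl0, hlj, hlk⟩ : ∃ l : Fin 4, 0 ≠ l ∧ j ≠ l ∧ k ≠ l := by
    have h : ∀ j k : Fin 4, ∃ l : Fin 4, 0 ≠ l ∧ j ≠ l ∧ k ≠ l := by decide
    exact h j k
  obtain ⟨p, q, hlp, hlq, hpq, t3, t4⟩ := two l
  -- `p` is one of `0, j, k`
  have hp : p = 0 ∨ p = j ∨ p = k := by
    have h : ∀ j k l p : Fin 4, 0 ≠ j → 0 ≠ k → j ≠ k → 0 ≠ l → j ≠ l → k ≠ l → l ≠ p →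
        p = 0 ∨ p = j ∨ p = k := by decide
    exact h j k l p h0j h0k hjk hl0 hlj hlk hlp
  have t5 : Tr (b 0) (b l) := by
    rcases hp with rfl | rfl | rfl
    · exact t3.symm
    · exact t1.trans t3.symm
    · exact t2.trans t3.symm
  exact tr_four (hbne 0 j h0j) (hbne 0 k h0k) (hbne 0 l hl0) (hbne j k hjk) (hbne j l hlj)
    (hbne k l hlk) t1 t2 t5

/-- a family of unbounded clique-width avoiding a property -/
lemma bdd_not (Q : ∀ {V : Type}, SimpleGraph V → Prop)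
    (hemb : ∀ {V V' : Type} {G : SimpleGraph V} {G' : SimpleGraph V'}, (G ↪g G') → Q G → Q G')
    (hstep : ∀ {V V' : Type} {G : SimpleGraph V} {G' : SimpleGraph V'}, SubdividesEdge G G' →
      Q G → Q G')
    {F : ℕ → Type} (fam : ∀ n, SimpleGraph (F n)) (hfin : ∀ n, Finite (F n))
    (hne : ∀ n, 2 ≤ n → Nonempty (F n))
    (hunb : ∀ c N : ℕ, ∃ n ≥ N, ∀ k ≤ c, ¬ CwLE (fam n) k) (hQ : ∀ n, ¬ Q (fam n))
    {W : Type} {H : SimpleGraph W} (hB : Bdd H) : ¬ Q H := by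
  intro hH
  obtain ⟨c, hc⟩ := hB
  obtain ⟨n, hn, hk⟩ := hunb c 2
  have := hfin n
  have := hne n hn
  exact hk _ (hc (F n) (fam n) (fun h => hQ n (itm_prop Q hemb hstep h hH)))
    (cwLE_cliqueWidth (fam n))

section
variable {W : Type} {H : SimpleGraph W}

theorem not_q1_of_bdd (h : Bdd H) : ¬ Q1 H :=
  bdd_not Q1 q1_emb q1_step famCobip (fun _ => inferInstance)
    (fun n hn => ⟨Sum.inl ⟨0, by omega⟩⟩) famCobip_unbounded not_q1_cobip h

theorem not_q2_of_bdd (h : Bdd H) : ¬ Q2 H :=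
  bdd_not Q2 q2_emb q2_step famT (fun _ => inferInstance)
    (fun n hn => ⟨(⟨0, by omega⟩, ⟨0, by omega⟩, 0)⟩) famT_unbounded not_q2_trunc h

theorem not_q3_of_bdd (h : Bdd H) : ¬ Q3 H :=
  bdd_not Q3 q3_emb q3_step famT (fun _ => inferInstance)
    (fun n hn => ⟨(⟨0, by omega⟩, ⟨0, by omega⟩, 0)⟩) famT_unbounded not_q3_trunc h

theorem not_q4_of_bdd (h : Bdd H) : ¬ Q4 H :=
  bdd_not Q4 q4_emb q4_step famSplit (fun _ => inferInstance)
    (fun n hn => ⟨Sum.inl ⟨0, by omega⟩⟩) famSplit_unbounded not_q4_split h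

theorem not_q5_of_bdd (h : Bdd H) : ¬ Q5 H :=
  bdd_not Q5 q5_emb q5_step famSplit (fun _ => inferInstance)
    (fun n hn => ⟨Sum.inl ⟨0, by omega⟩⟩) famSplit_unbounded not_q5_split h

theorem not_q6_of_bdd (h : Bdd H) : ¬ Q6 H :=
  bdd_not Q6 q6_emb q6_step famTrunc (fun _ => inferInstance)
    (fun n hn => ⟨⟨(⟨0, by omega⟩, ⟨1, by omega⟩), by simp⟩⟩) famTrunc_unbounded not_q6_trunc h

end

end Pool.Agent.R36.Itm
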