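import Mathlib
import Pool.Agent.Y27.EP.Fin

/-!
# Lexicographic products of the `3 x 3` rook's graph with Berge graphs

The graph `lexRook H` is obtained from the `3 x 3` rook's graph by substituting a copy of `H` for
every vertex. It is Berge and has no even pair when `H` is, its complement is `lexRook Hᶜ`, and it
has no odd pair of maximal cliques.
-/

set_option autoImplicit false

namespace Pool.Agent.R36.Lex

open SimpleGraph Pool.Agent.H171R2.EP Pool.Agent.H171R2.Hole Pool.Agent.Y27.EP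

/-- The `3 x 3` rook's graph with a copy of `H` substituted for every vertex. -/
def lexRook {V : Type} (H : SimpleGraph V) : SimpleGraph (Fin 9 × V) where
  Adj p q := rook.Adj p.1 q.1 ∨ (p.1 = q.1 ∧ H.Adj p.2 q.2)
  symm := by
    constructor
    rintro p q (h | ⟨h, h'⟩)
    · exact Or.inl h.symm
    · exact Or.inr ⟨h.symm, h'.symm⟩
  loopless := by
    constructor
    rintro p (h | ⟨-, h⟩)
    · exact h.ne rfl
    · exact h.ne rfl

theorem lex_adj {V : Type} (H : SimpleGraph V) (p q : Fin 9 × V) :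
    (lexRook H).Adj p q ↔ rook.Adj p.1 q.1 ∨ (p.1 = q.1 ∧ H.Adj p.2 q.2) := Iff.rfl

/-- the embedding of the rook's graph given by a choice of a vertex in every fibre -/
def secEmb {V : Type} (H : SimpleGraph V) (s : Fin 9 → V) : rook ↪g lexRook H where
  toFun i := (i, s i)
  inj' := fun i j h => congrArg Prod.fst h
  map_rel_iff' := by
    intro i j
    change rook.Adj i j ∨ (i = j ∧ H.Adj (s i) (s j)) ↔ _
    constructor
    · rintro (h | ⟨rfl, h⟩)
      · exact h
      · exact absurd rfl h.ne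
    · exact Or.inl

/-- the embedding of `H` as a fibre -/
def fibEmb {V : Type} (H : SimpleGraph V) (i : Fin 9) : H ↪g lexRook H where
  toFun x := (i, x)
  inj' := fun x y h => congrArg Prod.snd h
  map_rel_iff' := by
    intro x y
    change rook.Adj i i ∨ (i = i ∧ H.Adj x y) ↔ _
    constructor
    · rintro (h | ⟨-, h⟩)
      · exact absurd rfl h.ne
      · exact h
    · exact fun h => Or.inr ⟨rfl, h⟩

theorem lex_epf {V : Type} (H : SimpleGraph V) (hH : EvenPairFree H) :
    EvenPairFree (lexRook H) := by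
  rintro ⟨p, x⟩ ⟨q, y⟩ hev
  have hne := hev.1
  by_cases hpq : p = q
  · subst hpq
    exact not_evenPair_map (fibEmb H p) hH (u := x) (v := y) (fun h => hne (by rw [h])) hev
  · have key := not_evenPair_map (secEmb H (fun i => if i = p then x else y)) rook_epf hpq
    apply key
    have h1 : (secEmb H (fun i => if i = p then x else y)) p = (p, x) := by
      change ((p, if p = p then x else y) : Fin 9 × V) = _
      rw [if_pos rfl]
    have h2 : (secEmb H (fun i => if i = p then x else y)) q = (q, y) := by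
      change ((q, if q = p then x else y) : Fin 9 × V) = _
      rw [if_neg (fun h => hpq h.symm)]
    rw [h1, h2]
    exact hev

/-- A homogeneous set of a cycle with at least five vertices is everything or has at most one
element. -/
theorem cycle_module {n : ℕ} (hn : 5 ≤ n) (Q : Fin n → Prop)
    (hQ : ∀ i j k : Fin n, Q i → Q j → ¬ Q k → ((cycleGraph n).Adj k i ↔ (cycleGraph n).Adj k j)) :
    (∀ i, Q i) ∨ (∀ i j, Q i → Q j → i = j) := by
  by_contra hcon
  rw [not_or, not_forall, not_forall] at hcon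
  obtain ⟨⟨w0, hw0⟩, i0, hi0'⟩ := hcon
  rw [not_forall] at hi0'
  obtain ⟨j0, hj0'⟩ := hi0'
  have hi0 : Q i0 := by
    by_contra h
    exact hj0' (fun h' => absurd h' h)
  have hj0 : Q j0 := by
    by_contra h
    exact hj0' (fun _ h' => absurd h' h)
  have hij0 : i0 ≠ j0 := fun h => hj0' (fun _ _ => h)
  set P : ℕ → Prop := fun k => ∃ hk : k < n, Q ⟨k, hk⟩ with hP
  set E : ℕ → ℕ → Prop := fun i j =>
    (i + 1 = j ∨ j + 1 = i) ∨ (i = 0 ∧ j + 1 = n) ∨ (j = 0 ∧ i + 1 = n) with hE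
  have key : ∀ i j k : ℕ, k < n → P i → P j → ¬ P k → (E k i ↔ E k j) := by
    rintro i j k hk ⟨hi, hih⟩ ⟨hj, hjh⟩ hPk
    have := hQ ⟨i, hi⟩ ⟨j, hj⟩ ⟨k, hk⟩ hih hjh (fun h => hPk ⟨hk, h⟩)
    rwa [cyc_adj (by omega), cyc_adj (by omega)] at this
  have hex : ∃ k, k + 1 < n ∧ ¬ (P k ↔ P (k + 1)) := by
    by_contra hcon
    rw [not_exists] at hcon
    have hstep : ∀ k, k < n → (P k ↔ P 0) := by
      intro k
      induction k with
      | zero => intro _; rfl
      | succ k ih =>
        intro hk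
        rw [← ih (by omega)]
        by_contra hc
        exact hcon k ⟨hk, fun h => hc h.symm⟩
    have h1 := hstep i0 i0.2
    have h2 := hstep w0 w0.2
    have h3 : P i0 := ⟨i0.2, hi0⟩
    have h4 : ¬ P w0 := by
      rintro ⟨_, h⟩
      exact hw0 h
    exact h4 (h2.2 (h1.1 h3))
  have hex2 : ∃ a w : ℕ, a < n ∧ w < n ∧ (a + 1 = w ∨ w + 1 = a) ∧ P a ∧ ¬ P w := by
    obtain ⟨k, hk, hkk⟩ := hex
    by_cases hPk : P k
    · exact ⟨k, k + 1, by omega, hk, Or.inl rfl, hPk, fun h => hkk ⟨fun _ => h, fun _ => hPk⟩⟩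
    · refine ⟨k + 1, k, hk, by omega, Or.inr rfl, ?_, hPk⟩
      by_contra h
      exact hkk ⟨fun h' => absurd h' hPk, fun h' => absurd h' h⟩
  obtain ⟨a, w, ha, hw, haw, hPa, hPw⟩ := hex2
  obtain ⟨b, hb, hba, hPb⟩ : ∃ b, b < n ∧ b ≠ a ∧ P b := by
    by_cases h : (i0 : ℕ) = a
    · exact ⟨j0, j0.2, fun h' => hij0 (Fin.ext (h.trans h'.symm)), j0.2, hj0⟩
    · exact ⟨i0, i0.2, h, i0.2, hi0⟩
  obtain ⟨c, hc, hcw, hac⟩ : ∃ c, c < n ∧ c ≠ w ∧ E a c := by
    rcases haw with haw | haw
    · by_cases h0 : a = 0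
      · exact ⟨n - 1, by omega, by omega, Or.inr (Or.inl ⟨h0, by omega⟩)⟩
      · exact ⟨a - 1, by omega, by omega, Or.inl (Or.inr (by omega))⟩
    · by_cases h0 : a + 1 = n
      · exact ⟨0, by omega, by omega, Or.inr (Or.inr ⟨rfl, h0⟩)⟩
      · exact ⟨a + 1, by omega, by omega, Or.inl (Or.inl rfl)⟩
  have hwa : E w a := by
    simp only [hE]
    omega
  have hwb : E w b := (key a b w hw hPa hPb hPw).1 hwa
  by_cases hPc : P c
  · have hwc : E w c := (key a c w hw hPa hPc hPw).1 hwa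
    simp only [hE] at hac hwa hwc
    omega
  · have hca : E c a := by
      simp only [hE] at hac ⊢
      omega
    have hcb : E c b := (key a b c hc hPa hPb hPc).1 hca
    simp only [hE] at hwa hwb hca hcb
    omega

theorem lex_no_odd_hole {V : Type} (H : SimpleGraph V)
    (hH : ∀ n : ℕ, 4 ≤ n → Odd n → ¬ Nonempty (cycleGraph n ↪g H)) (n : ℕ) (hn : 4 ≤ n)
    (hodd : Odd n) : ¬ Nonempty (cycleGraph n ↪g lexRook H) := by
  rintro ⟨g⟩
  have hn5 : 5 ≤ n := by
    rcases hodd with ⟨k, rfl⟩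
    omega
  have hmod : ∀ r : Fin 9, (∀ i, (g i).1 = r) ∨ (∀ i j, (g i).1 = r → (g j).1 = r → i = j) := by
    intro r
    refine cycle_module hn5 (fun i => (g i).1 = r) ?_
    intro i j k hi hj hk
    rw [← g.map_adj_iff, ← g.map_adj_iff, lex_adj, lex_adj, hi, hj]
    constructor
    · rintro (h | ⟨h, -⟩)
      · exact Or.inl h
      · exact absurd h hk
    · rintro (h | ⟨h, -⟩)
      · exact Or.inl h
      · exact absurd h hk
  by_cases hall : ∃ r : Fin 9, ∀ i, (g i).1 = r
  · obtain ⟨r, hr⟩ := hall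
    refine hH n hn hodd ⟨⟨⟨fun i => (g i).2, ?_⟩, ?_⟩⟩
    · intro i j hij
      apply g.injective
      exact Prod.ext ((hr i).trans (hr j).symm) hij
    · intro i j
      change H.Adj (g i).2 (g j).2 ↔ _
      rw [← g.map_adj_iff, lex_adj, hr i, hr j]
      constructor
      · exact fun h => Or.inr ⟨rfl, h⟩
      · rintro (h | ⟨-, h⟩)
        · exact absurd rfl h.ne
        · exact h
  · have hinj : ∀ i j, (g i).1 = (g j).1 → i = j := by
      intro i j hij
      rcases hmod (g j).1 with h | h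
      · exact absurd ⟨_, h⟩ hall
      · exact h i j hij rfl
    refine no_odd_hole rookA rook rook_adj holeRook n hn hodd ⟨⟨⟨fun i => (g i).1, ?_⟩, ?_⟩⟩
    · intro i j hij
      exact hinj i j hij
    · intro i j
      change rook.Adj (g i).1 (g j).1 ↔ _
      rw [← g.map_adj_iff, lex_adj]
      constructor
      · exact Or.inl
      · rintro (h | ⟨h, h'⟩)
        · exact h
        · rw [hinj i j h] at h'
          exact absurd rfl h'.ne

/-- a relabelling of the squares that exchanges the rook's graph and its complement -/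
def tau : Fin 9 → Fin 9 := ![4, 7, 5, 6, 3, 0, 1, 2, 8]

def tauInv : Fin 9 → Fin 9 := ![5, 6, 7, 4, 0, 2, 3, 1, 8]

def tauE : Fin 9 ≃ Fin 9 where
  toFun := tau
  invFun := tauInv
  left_inv := by decide
  right_inv := by decide

theorem tau_adj : ∀ a b : Fin 9, (a ≠ b ∧ ¬ (rookA a).testBit b = true) ↔
    (rookA (tauInv a)).testBit (tauInv b) = true := by decide +kernel

/-- The complement of `lexRook H` is isomorphic to `lexRook Hᶜ`. -/
def lexCompl {V : Type} (H : SimpleGraph V) : lexRook Hᶜ ≃g (lexRook H)ᶜ where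
  toEquiv := Equiv.prodCongr tauE (Equiv.refl V)
  map_rel_iff' := by
    rintro ⟨a, x⟩ ⟨b, y⟩
    change (lexRook H)ᶜ.Adj (tau a, x) (tau b, y) ↔ _
    rw [compl_adj, lex_adj, lex_adj]
    dsimp only
    have h1 := tau_adj (tau a) (tau b)
    rw [show tauInv (tau a) = a from tauE.left_inv a,
      show tauInv (tau b) = b from tauE.left_inv b, ← rook_adj, ← rook_adj] at h1
    have h2 : tau a = tau b ↔ a = b := tauE.injective.eq_iff
    rw [← h1, Ne, Prod.mk.injEq, h2, compl_adj, not_or, Ne, h2, Ne]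
    constructor
    · rintro ⟨h3, h4, h5⟩
      by_cases hab : a = b
      · exact Or.inr ⟨hab, fun h => h3 ⟨hab, h⟩, fun h => h5 ⟨hab, h⟩⟩
      · exact Or.inl ⟨hab, h4⟩
    · rintro (⟨h3, h4⟩ | ⟨h3, h4, h5⟩)
      · exact ⟨fun h => h3 h.1, h4, fun h => h3 h.1⟩
      · refine ⟨fun h => h4 h.2, ?_, fun h => h5 h.2⟩
        rw [h3]
        exact fun h => h.ne rfl

theorem lex_berge {V : Type} (H : SimpleGraph V) (hH : IsBerge H) : IsBerge (lexRook H) := by
  intro n hn hodd
  refine ⟨lex_no_odd_hole H (fun m hm hm' => (hH m hm hm').1) n hn hodd, ?_⟩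
  rintro ⟨g⟩
  refine lex_no_odd_hole Hᶜ (fun m hm hm' => ?_) n hn hodd
    ⟨(complEmb _ _ g).trans (lexCompl H).symm.toEmbedding⟩
  rintro ⟨g'⟩
  exact (hH m hm hm').2 ⟨complEmb' _ _ g'⟩

/-! ## Maximal cliques -/

/-- the three rows and the three columns -/
def lineL : List (List ℕ) := [[8, 0, 1], [2, 4, 5], [3, 6, 7], [8, 2, 3], [0, 4, 6], [1, 5, 7]]

def onLine (l : Fin 6) (i : Fin 9) : Bool := (lineL.getD l []).contains (i : ℕ)

theorem line_cover : ∀ p q : Fin 9, ∃ l : Fin 6, (p ≠ q → (rookA p).testBit q = true →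
    onLine l p = true ∧ onLine l q = true ∧
    ∀ r : Fin 9, (r = p ∨ (rookA r).testBit p = true) → (r = q ∨ (rookA r).testBit q = true) →
      onLine l r = true) := by decide +kernel

theorem line_one : ∀ p : Fin 9, ∃ l : Fin 6, onLine l p = true := by decide +kernel

theorem line_clique : ∀ l : Fin 6, ∀ p q : Fin 9, onLine l p = true → onLine l q = true →
    p ≠ q → (rookA p).testBit q = true := by decide +kernel

theorem two_lines : ∀ l m : Fin 6, l ≠ m → ∃ p q r : Fin 9,
    onLine l p = true ∧ onLine m q = true ∧ p ≠ q ∧ (rookA p).testBit q = false ∧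
    (rookA p).testBit r = true ∧ (rookA r).testBit q = true ∧
    ¬ (onLine l r = true ∧ onLine m r = true) := by decide +kernel

theorem line_off : ∀ l : Fin 6, ∃ r s : Fin 9, onLine l r = true ∧ onLine l s = false ∧
    (rookA r).testBit s = true ∧ (rookA s).testBit r = true := by decide +kernel

theorem clique_in_line {K : Set (Fin 9)} (hK : rook.IsClique K) :
    ∃ l : Fin 6, ∀ r ∈ K, onLine l r = true := by
  by_cases h : ∃ p ∈ K, ∃ q ∈ K, p ≠ q
  · obtain ⟨p, hp, q, hq, hpq⟩ := h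
    obtain ⟨l, hl⟩ := line_cover p q
    obtain ⟨-, -, h3⟩ := hl hpq (hK hp hq hpq)
    refine ⟨l, fun r hr => h3 r ?_ ?_⟩
    · by_cases hrp : r = p
      · exact Or.inl hrp
      · exact Or.inr (hK hr hp hrp)
    · by_cases hrq : r = q
      · exact Or.inl hrq
      · exact Or.inr (hK hr hq hrq)
  · by_cases h0 : ∃ p, p ∈ K
    · obtain ⟨p, hp⟩ := h0
      obtain ⟨l, hl⟩ := line_one p
      refine ⟨l, fun r hr => ?_⟩
      have : r = p := by
        by_contra hrp
        exact h ⟨r, hr, p, hp, hrp⟩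
      rw [this]
      exact hl
    · exact ⟨0, fun r hr => absurd ⟨r, hr⟩ h0⟩

/-- The description of a maximal clique of `lexRook H`: there is a line such that the clique meets
exactly the fibres over the squares of the line, each in a maximal clique of `H`. -/
theorem max_clique {V : Type} [Nonempty V] {H : SimpleGraph V} {K : Set (Fin 9 × V)}
    (hK : Maximal (lexRook H).IsClique K) :
    ∃ l : Fin 6, (∀ i : Fin 9, onLine l i = true ↔ ∃ x, (i, x) ∈ K) ∧
      ∀ i : Fin 9, ∀ y : V, onLine l i = true → (∀ x, (i, x) ∈ K → x ≠ y → H.Adj x y) →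
        (i, y) ∈ K := by
  have hcl := hK.1
  have hP : rook.IsClique {i | ∃ x, (i, x) ∈ K} := by
    rintro i ⟨x, hx⟩ j ⟨y, hy⟩ hij
    rcases hcl hx hy (fun h => hij (congrArg Prod.fst h)) with h | ⟨h, -⟩
    · exact h
    · exact absurd h hij
  obtain ⟨l, hl⟩ := clique_in_line hP
  have hmax : ∀ i : Fin 9, ∀ y : V, onLine l i = true →
      (∀ x, (i, x) ∈ K → x ≠ y → H.Adj x y) → (i, y) ∈ K := by
    intro i y hi hy
    have hins : (lexRook H).IsClique (insert (i, y) K) := by
      rw [isClique_insert]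
      refine ⟨hcl, ?_⟩
      rintro ⟨j, x⟩ hjx hne
      rw [lex_adj]
      by_cases hij : i = j
      · subst hij
        refine Or.inr ⟨rfl, ?_⟩
        exact (hy x hjx (fun h => hne (by rw [h]))).symm
      · exact Or.inl (line_clique l i j hi (hl j ⟨x, hjx⟩) hij)
    exact hK.2 hins (Set.subset_insert _ _) (Set.mem_insert _ _)
  refine ⟨l, fun i => ⟨fun hi => ?_, fun h => hl i h⟩, hmax⟩
  by_contra hne
  obtain ⟨y⟩ := (inferInstance : Nonempty V)
  exact hne ⟨y, hmax i y hi (fun x hx => absurd ⟨x, hx⟩ hne)⟩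

/-- an even external path between two maximal cliques: a common vertex, or a path of length two -/
theorem exists_even {V : Type} {H : SimpleGraph V} (h2 : ∃ x y : V, x ≠ y ∧ ¬ H.Adj x y)
    {K₁ K₂ : Set (Fin 9 × V)} (hK₁ : Maximal (lexRook H).IsClique K₁)
    (hK₂ : Maximal (lexRook H).IsClique K₂) :
    (∃ a, a ∈ K₁ ∧ a ∈ K₂) ∨ ∃ a b c, a ∈ K₁ ∧ b ∈ K₂ ∧ c ∉ K₁ ∧ c ∉ K₂ ∧ a ≠ b ∧
      ¬ (lexRook H).Adj a b ∧ (lexRook H).Adj a c ∧ (lexRook H).Adj c b := by
  obtain ⟨x0, y0, hxy, hnxy⟩ := h2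
  have : Nonempty V := ⟨x0⟩
  obtain ⟨l, hl, hlm⟩ := max_clique hK₁
  obtain ⟨m, hm, hmm⟩ := max_clique hK₂
  -- no clique contains a whole fibre
  have hfib : ∀ {K : Set (Fin 9 × V)}, Maximal (lexRook H).IsClique K → ∀ r : Fin 9,
      ∃ z, (r, z) ∉ K := by
    intro K hK r
    by_contra hcon
    rw [not_exists] at hcon
    have h1 : (r, x0) ∈ K := by
      by_contra h
      exact hcon x0 h
    have h3 : (r, y0) ∈ K := by
      by_contra h
      exact hcon y0 h
    rcases hK.1 h1 h3 (fun h => hxy (congrArg Prod.snd h)) with h | ⟨-, h⟩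
    · exact h.ne rfl
    · exact hnxy h
  by_cases hlm' : l = m
  · subst hlm'
    by_cases hint : ∃ a, a ∈ K₁ ∧ a ∈ K₂
    · exact Or.inl hint
    right
    obtain ⟨r, s, hr, hs, hrs, hsr⟩ := line_off l
    have hxy' : ∃ x y, (r, x) ∈ K₁ ∧ (r, y) ∈ K₂ ∧ x ≠ y ∧ ¬ H.Adj x y := by
      by_contra hcon
      have hall : ∀ x y, (r, x) ∈ K₁ → (r, y) ∈ K₂ → x ≠ y → H.Adj x y := by
        intro x y hx hy hne
        by_contra h
        exact hcon ⟨x, y, hx, hy, hne, h⟩
      obtain ⟨y, hy⟩ := (hm r).1 hr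
      exact hint ⟨(r, y), hlm r y hr (fun x hx hne => hall x y hx hy hne), hy⟩
    obtain ⟨x, y, hx, hy, hne, hnadj⟩ := hxy'
    refine ⟨(r, x), (r, y), (s, x), hx, hy, ?_, ?_, ?_, ?_, ?_, ?_⟩
    · intro h
      have := (hl s).2 ⟨x, h⟩
      rw [hs] at this
      exact absurd this (by decide)
    · intro h
      have := (hm s).2 ⟨x, h⟩
      rw [hs] at this
      exact absurd this (by decide)
    · exact fun h => hne (congrArg Prod.snd h)
    · rintro (h | ⟨-, h⟩)
      · exact h.ne rfl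
      · exact hnadj h
    · exact Or.inl hrs
    · exact Or.inl hsr
  · right
    obtain ⟨p, q, r, hp, hq, hpq, hnpq, hpr, hrq, hnr⟩ := two_lines l m hlm'
    obtain ⟨x, hx⟩ := (hl p).1 hp
    obtain ⟨y, hy⟩ := (hm q).1 hq
    have hz : ∃ z, (r, z) ∉ K₁ ∧ (r, z) ∉ K₂ := by
      by_cases hrl : onLine l r = true
      · have hrm : ¬ onLine m r = true := fun h => hnr ⟨hrl, h⟩
        obtain ⟨z, hz⟩ := hfib hK₁ r
        exact ⟨z, hz, fun h => hrm ((hm r).2 ⟨z, h⟩)⟩
      · obtain ⟨z, hz⟩ := hfib hK₂ r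
        exact ⟨z, fun h => hrl ((hl r).2 ⟨z, h⟩), hz⟩
    obtain ⟨z, hz1, hz2⟩ := hz
    refine ⟨(p, x), (q, y), (r, z), hx, hy, hz1, hz2, ?_, ?_, ?_, ?_⟩
    · exact fun h => hpq (congrArg Prod.fst h)
    · rintro (h | ⟨h, -⟩)
      · have h' : (rookA p).testBit q = true := h
        rw [hnpq] at h'
        exact absurd h' (by decide)
      · exact hpq h
    · exact Or.inl hpr
    · exact Or.inl hrq

end Pool.Agent.R36.Lex
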