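import Mathlib
import Pool.Agent.H255R3.STC.Chordal

/-!
# Toughness of co-chordal graphs

Definitions (number of components of `G - S`, toughness, minimally tough graphs, the graphs
`T_ℓ`) and the structure of minimally tough co-chordal graphs whose complement has diameter two.
-/

set_option autoImplicit false

namespace Pool.Agent.R36.Tough

open scoped ENNReal

section defs
variable {V : Type}

/-- the number of connected components of `G - S` -/
noncomputable def comps (G : SimpleGraph V) (S : Set V) : ℕ :=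
  Nat.card (G.induce Sᶜ).ConnectedComponent

/-- the toughness of `G`: the least value of `|S| / c(G - S)` over the sets `S` with
`c(G - S) ≥ 2`, and `∞` if there is none -/
noncomputable def toughness (G : SimpleGraph V) : ℝ≥0∞ :=
  ⨅ (S : Set V) (_ : 2 ≤ comps G S), (S.ncard : ℝ≥0∞) / (comps G S : ℝ≥0∞)

/-- `G` is minimally tough: the deletion of any edge decreases the toughness. -/
def MinimallyTough (G : SimpleGraph V) : Prop :=
  ∀ e ∈ G.edgeSet, toughness (G.deleteEdges {e}) < toughness G

/-- `G` is co-chordal: its complement has no induced cycle of length at least four. -/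
def CoChordal (G : SimpleGraph V) : Prop :=
  ∀ n, 4 ≤ n → ¬ Nonempty (SimpleGraph.cycleGraph n ↪g Gᶜ)

/-- the complement of `G` has diameter two (so it is connected) -/
def CoDiamTwo (G : SimpleGraph V) : Prop := Gᶜ.ediam = 2

end defs

/-- `T_ℓ`: three stars `K_{1,ℓ}` whose centres `(i, none)` are joined pairwise; the leaves of the
`i`-th star are the `(i, some j)`. -/
def T (ℓ : ℕ) : SimpleGraph (Fin 3 × Option (Fin ℓ)) where
  Adj u v := (u.2 = none ∧ v.2 = none ∧ u.1 ≠ v.1) ∨
    (u.1 = v.1 ∧ ((u.2 = none ∧ v.2 ≠ none) ∨ (u.2 ≠ none ∧ v.2 = none)))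
  symm := ⟨by
    intro u v h
    rcases h with ⟨h1, h2, h3⟩ | ⟨h1, h2⟩
    · exact Or.inl ⟨h2, h1, h3.symm⟩
    · exact Or.inr ⟨h1.symm, by tauto⟩⟩
  loopless := ⟨by
    rintro u (⟨_, _, h⟩ | ⟨_, h⟩)
    · exact h rfl
    · tauto⟩

section comps
variable {V : Type} {G : SimpleGraph V}

lemma reach_label {α : Type} {S : Set V} (f : V → α)
    (hf : ∀ u v, u ∉ S → v ∉ S → G.Adj u v → f u = f v) {u v : (Sᶜ : Set V)}
    (h : (G.induce Sᶜ).Reachable u v) : f u = f v := by
  obtain ⟨w⟩ := h
  induction w with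
  | nil => rfl
  | @cons a b c h _ ih => exact (hf a.1 b.1 a.2 b.2 h).trans ih

lemma comps_ge [Finite V] {α : Type} (S : Set V) (f : V → α)
    (hf : ∀ u v, u ∉ S → v ∉ S → G.Adj u v → f u = f v) (P : Finset α)
    (hP : ∀ a ∈ P, ∃ v, v ∉ S ∧ f v = a) : P.card ≤ comps G S := by
  classical
  choose g hg1 hg2 using hP
  let F : P → (G.induce Sᶜ).ConnectedComponent := fun a =>
    (G.induce Sᶜ).connectedComponentMk ⟨g a.1 a.2, hg1 a.1 a.2⟩
  have hF : Function.Injective F := by
    intro a b hab
    have h1 := reach_label f hf (SimpleGraph.ConnectedComponent.exact hab)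
    simp only [hg2] at h1
    exact Subtype.ext h1
  have := Nat.card_le_card_of_injective F hF
  simpa [comps] using this

lemma comps_le [Finite V] (S : Set V) (P : Finset V)
    (hP : ∀ v (hv : v ∉ S), ∃ p ∈ P, ∃ hp : p ∉ S,
      (G.induce Sᶜ).Reachable ⟨v, hv⟩ ⟨p, hp⟩) : comps G S ≤ P.card := by
  classical
  have key : ∀ c : (G.induce Sᶜ).ConnectedComponent, ∃ p : P, ∃ hp : (p : V) ∉ S,
      (G.induce Sᶜ).connectedComponentMk ⟨p, hp⟩ = c := by
    intro c
    induction c using SimpleGraph.ConnectedComponent.ind with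
    | _ v =>
      obtain ⟨p, hp, hpS, hr⟩ := hP v.1 v.2
      exact ⟨⟨p, hp⟩, hpS, SimpleGraph.ConnectedComponent.sound hr.symm⟩
  choose F h1 h2 using key
  have hF : Function.Injective F := by
    intro a b hab
    have ha := h2 a
    have hb := h2 b
    have h3 : (⟨(F a : V), h1 a⟩ : (Sᶜ : Set V)) = ⟨F b, h1 b⟩ :=
      Subtype.ext (congrArg (fun p : P => (p : V)) hab)
    rw [← ha, ← hb, h3]
  have := Nat.card_le_card_of_injective F hF
  simpa [comps] using this

lemma comps_mono_of_reach [Finite V] {G' : SimpleGraph V} (S : Set V)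
    (h : ∀ u v (hu : u ∉ S) (hv : v ∉ S), G.Adj u v →
      (G'.induce Sᶜ).Reachable ⟨u, hu⟩ ⟨v, hv⟩) : comps G' S ≤ comps G S := by
  classical
  have key : ∀ {u v : (Sᶜ : Set V)}, (G.induce Sᶜ).Reachable u v → (G'.induce Sᶜ).Reachable u v := by
    rintro u v ⟨w⟩
    induction w with
    | nil => exact SimpleGraph.Reachable.refl _
    | @cons a b c h' _ ih => exact (h a.1 b.1 a.2 b.2 h').trans ih
  have ex : ∀ c : (G'.induce Sᶜ).ConnectedComponent, ∃ v : (Sᶜ : Set V),
      (G'.induce Sᶜ).connectedComponentMk v = c := by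
    intro c
    induction c using SimpleGraph.ConnectedComponent.ind with
    | _ v => exact ⟨v, rfl⟩
  choose g hg using ex
  let F : (G'.induce Sᶜ).ConnectedComponent → (G.induce Sᶜ).ConnectedComponent := fun c =>
    (G.induce Sᶜ).connectedComponentMk (g c)
  have hF : Function.Injective F := by
    intro a b hab
    rw [← hg a, ← hg b]
    exact SimpleGraph.ConnectedComponent.sound (key (SimpleGraph.ConnectedComponent.exact hab))
  exact Nat.card_le_card_of_injective F hF

end comps

/-- the inequalities between real numbers given by toughness and minimality -/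
structure Ctx {V : Type} (G : SimpleGraph V) (t : ℝ) : Prop where
  tpos : 0 < t
  U : ∀ S : Set V, 2 ≤ comps G S → t * comps G S ≤ S.ncard
  L : ∀ x y, G.Adj x y → ∃ S : Set V, 2 ≤ comps (G.deleteEdges {s(x, y)}) S ∧
    (S.ncard : ℝ) < t * comps (G.deleteEdges {s(x, y)}) S

section ctx
variable {V : Type} {G : SimpleGraph V}

lemma exists_ctx [Finite V] (h : MinimallyTough G) (h1 : G ≠ ⊤) (h2 : G ≠ ⊥) :
    ∃ t : ℝ, Ctx G t ∧ toughness G = ENNReal.ofReal t := by
  classical
  -- finiteness
  have hfin : toughness G ≠ ⊤ := by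
    obtain ⟨u, v, huv, hn⟩ : ∃ u v, u ≠ v ∧ ¬ G.Adj u v := by
      by_contra hcon
      push Not at hcon
      apply h1
      ext u v
      simp only [SimpleGraph.top_adj]
      exact ⟨fun h => h.ne, fun h => hcon u v h⟩
    have hc : 2 ≤ comps G ({u, v}ᶜ : Set V) := by
      have := comps_ge (G := G) ({u, v}ᶜ : Set V) (fun w => w) (by
        intro a b ha hb hab
        simp only [Set.mem_compl_iff, Set.mem_insert_iff, Set.mem_singleton_iff, not_not] at ha hb
        exfalso
        rcases ha with rfl | rfl <;> rcases hb with rfl | rfl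
        · exact G.loopless.irrefl _ hab
        · exact hn hab
        · exact hn hab.symm
        · exact G.loopless.irrefl _ hab) {u, v} (by
        intro a ha
        simp only [Finset.mem_insert, Finset.mem_singleton] at ha
        refine ⟨a, ?_, rfl⟩
        rcases ha with rfl | rfl <;> simp)
      rwa [Finset.card_pair huv] at this
    have hle : toughness G ≤ ((({u, v}ᶜ : Set V).ncard : ℝ≥0∞) / (comps G ({u, v}ᶜ : Set V) : ℝ≥0∞)) :=
      iInf₂_le ({u, v}ᶜ : Set V) hc
    refine ne_top_of_le_ne_top ?_ hle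
    apply ENNReal.div_ne_top
    · exact ENNReal.natCast_ne_top _
    · simp only [ne_eq, Nat.cast_eq_zero]
      omega
  obtain ⟨a, b, hab⟩ : ∃ a b, G.Adj a b := by
    by_contra hcon
    push Not at hcon
    apply h2
    ext u v
    simp only [SimpleGraph.bot_adj, iff_false]
    exact hcon u v
  have hpos : 0 < toughness G := lt_of_le_of_lt (by simp) (h s(a, b) hab)
  refine ⟨(toughness G).toReal, ⟨ENNReal.toReal_pos hpos.ne' hfin, ?_, ?_⟩,
    (ENNReal.ofReal_toReal hfin).symm⟩
  · intro S hS
    have hle : toughness G ≤ ((S.ncard : ℝ≥0∞) / (comps G S : ℝ≥0∞)) := iInf₂_le S hS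
    have h0 : (comps G S : ℝ≥0∞) ≠ 0 := by
      simp only [ne_eq, Nat.cast_eq_zero]
      omega
    rw [ENNReal.le_div_iff_mul_le (Or.inl h0) (Or.inl (ENNReal.natCast_ne_top _))] at hle
    have := ENNReal.toReal_mono (ENNReal.natCast_ne_top _) hle
    simpa using this
  · intro x y hxy
    have hlt := h s(x, y) hxy
    rw [toughness] at hlt
    simp only [iInf_lt_iff] at hlt
    obtain ⟨S, hS, hlt⟩ := hlt
    refine ⟨S, hS, ?_⟩
    have h0 : (comps (G.deleteEdges {s(x, y)}) S : ℝ≥0∞) ≠ 0 := by
      simp only [ne_eq, Nat.cast_eq_zero]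
      omega
    rw [ENNReal.div_lt_iff (Or.inl h0) (Or.inl (ENNReal.natCast_ne_top _))] at hlt
    have := (ENNReal.toReal_lt_toReal (ENNReal.natCast_ne_top _)
      (ENNReal.mul_ne_top hfin (ENNReal.natCast_ne_top _))).2 hlt
    simpa using this

open Classical in
/-- common neighbours -/
noncomputable def RR [Fintype V] (G : SimpleGraph V) (x y : V) : Finset V :=
  Finset.univ.filter fun w => G.Adj x w ∧ G.Adj y w

open Classical in
/-- common nonneighbours -/
noncomputable def AA [Fintype V] (G : SimpleGraph V) (x y : V) : Finset V :=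
  Finset.univ.filter fun w => ¬ G.Adj x w ∧ ¬ G.Adj y w

open Classical in
/-- nonneighbours of `x` adjacent to `y` -/
noncomputable def BB [Fintype V] (G : SimpleGraph V) (x y : V) : Finset V :=
  Finset.univ.filter fun w => w ≠ x ∧ ¬ G.Adj x w ∧ G.Adj y w

lemma mem_RR [Fintype V] {x y w : V} : w ∈ RR G x y ↔ G.Adj x w ∧ G.Adj y w := by
  simp [RR]

lemma mem_AA [Fintype V] {x y w : V} : w ∈ AA G x y ↔ ¬ G.Adj x w ∧ ¬ G.Adj y w := by
  simp [AA]

lemma mem_BB [Fintype V] {x y w : V} : w ∈ BB G x y ↔ w ≠ x ∧ ¬ G.Adj x w ∧ G.Adj y w := by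
  simp [BB]

/-- what the criticality of the edge `x y` says -/
lemma crit [Fintype V] {t : ℝ} (h : Ctx G t) {x y : V} (hxy : G.Adj x y) :
    ∃ T : Finset V, (∀ b ∈ T, b ∈ BB G x y ∨ b ∈ BB G y x) ∧
      (∀ b b', b ∈ BB G x y → b ∉ T → b' ∈ BB G y x → b' ∉ T → ¬ G.Adj b b') ∧
      ((RR G x y).card : ℝ) + T.card < t * ((AA G x y).card + 2) := by
  classical
  obtain ⟨S, hS, hlt⟩ := h.L x y hxy
  set G' := G.deleteEdges {s(x, y)} with hG'
  have adj' : ∀ u v, G'.Adj u v ↔ G.Adj u v ∧ s(u, v) ≠ s(x, y) := by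
    intro u v
    rw [hG', SimpleGraph.deleteEdges_adj]
    simp
  have hbad : ¬ comps G' S ≤ comps G S := by
    intro hle
    have h1 := h.U S (hS.trans hle)
    have h2 : t * (comps G' S : ℝ) ≤ t * comps G S :=
      mul_le_mul_of_nonneg_left (by exact_mod_cast hle) h.tpos.le
    linarith
  have hx : x ∉ S := by
    intro hx
    apply hbad
    apply comps_mono_of_reach
    intro u v hu hv huv
    apply SimpleGraph.Adj.reachable
    show G'.Adj u v
    rw [adj']
    refine ⟨huv, fun he => ?_⟩
    rw [Sym2.eq_iff] at he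
    rcases he with ⟨h1, h2⟩ | ⟨h1, h2⟩
    · exact hu (h1 ▸ hx)
    · exact hv (h2 ▸ hx)
  have hy : y ∉ S := by
    intro hy
    apply hbad
    apply comps_mono_of_reach
    intro u v hu hv huv
    apply SimpleGraph.Adj.reachable
    show G'.Adj u v
    rw [adj']
    refine ⟨huv, fun he => ?_⟩
    rw [Sym2.eq_iff] at he
    rcases he with ⟨h1, h2⟩ | ⟨h1, h2⟩
    · exact hv (h2 ▸ hy)
    · exact hu (h1 ▸ hy)
  have hr : ¬ (G'.induce Sᶜ).Reachable ⟨x, hx⟩ ⟨y, hy⟩ := by
    intro hr
    apply hbad
    apply comps_mono_of_reach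
    intro u v hu hv huv
    by_cases he : s(u, v) = s(x, y)
    · rw [Sym2.eq_iff] at he
      rcases he with ⟨rfl, rfl⟩ | ⟨rfl, rfl⟩
      · exact hr
      · exact hr.symm
    · apply SimpleGraph.Adj.reachable
      show G'.Adj u v
      rw [adj']
      exact ⟨huv, he⟩
  have hR : ∀ w, G.Adj x w → G.Adj y w → w ∈ S := by
    intro w h1 h2
    by_contra hw
    apply hr
    have a1 : (G'.induce Sᶜ).Adj ⟨x, hx⟩ ⟨w, hw⟩ := by
      show G'.Adj x w
      rw [adj']
      refine ⟨h1, fun he => ?_⟩
      rw [Sym2.eq_iff] at he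
      rcases he with ⟨_, h3⟩ | ⟨h3, _⟩
      · exact h2.ne h3.symm
      · exact hxy.ne h3
    have a2 : (G'.induce Sᶜ).Adj ⟨w, hw⟩ ⟨y, hy⟩ := by
      show G'.Adj w y
      rw [adj']
      refine ⟨h2.symm, fun he => ?_⟩
      rw [Sym2.eq_iff] at he
      rcases he with ⟨h3, _⟩ | ⟨h3, _⟩
      · exact h1.ne h3.symm
      · exact h2.ne h3.symm
    exact a1.reachable.trans a2.reachable
  have ax : ∀ b (hb : b ∉ S), b ∈ BB G y x → (G'.induce Sᶜ).Adj ⟨x, hx⟩ ⟨b, hb⟩ := by
    intro b hb h1
    rw [mem_BB] at h1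
    show G'.Adj x b
    rw [adj']
    refine ⟨h1.2.2, fun he => ?_⟩
    rw [Sym2.eq_iff] at he
    rcases he with ⟨_, h3⟩ | ⟨h3, _⟩
    · exact h1.1 h3
    · exact hxy.ne h3
  have ay : ∀ b (hb : b ∉ S), b ∈ BB G x y → (G'.induce Sᶜ).Adj ⟨b, hb⟩ ⟨y, hy⟩ := by
    intro b hb h1
    rw [mem_BB] at h1
    show G'.Adj b y
    rw [adj']
    refine ⟨h1.2.2.symm, fun he => ?_⟩
    rw [Sym2.eq_iff] at he
    rcases he with ⟨h3, _⟩ | ⟨h3, _⟩
    · exact h1.1 h3
    · exact h1.2.2.ne h3.symm
  have hB : ∀ b b', b ∉ S → b' ∉ S → b ∈ BB G x y → b' ∈ BB G y x → ¬ G.Adj b b' := by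
    intro b b' hb hb' h1 h2 hbb
    apply hr
    have a3 : (G'.induce Sᶜ).Adj ⟨b', hb'⟩ ⟨b, hb⟩ := by
      show G'.Adj b' b
      rw [adj']
      refine ⟨hbb.symm, fun he => ?_⟩
      rw [mem_BB] at h1 h2
      rw [Sym2.eq_iff] at he
      rcases he with ⟨h3, _⟩ | ⟨h3, _⟩
      · exact h2.2.2.ne h3.symm
      · exact h2.1 h3
    exact ((ax b' hb' h2).reachable.trans a3.reachable).trans (ay b hb h1).reachable
  refine ⟨Finset.univ.filter fun b => b ∈ S ∧ (b ∈ BB G x y ∨ b ∈ BB G y x), ?_, ?_, ?_⟩
  · intro b hb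
    rw [Finset.mem_filter] at hb
    exact hb.2.2
  · intro b b' h1 h2 h3 h4
    apply hB b b' _ _ h1 h3
    · intro hbS
      exact h2 (Finset.mem_filter.2 ⟨Finset.mem_univ _, hbS, Or.inl h1⟩)
    · intro hbS
      exact h4 (Finset.mem_filter.2 ⟨Finset.mem_univ _, hbS, Or.inr h3⟩)
  · have hc : comps G' S ≤ (AA G x y).card + 2 := by
      have h1 := comps_le (G := G') S (insert x (insert y ((AA G x y).filter fun w => w ∉ S))) (by
        intro v hv
        by_cases hvx : v = x
        · exact ⟨x, Finset.mem_insert_self _ _, hx, by subst hvx; exact SimpleGraph.Reachable.refl _⟩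
        by_cases hvy : v = y
        · exact ⟨y, Finset.mem_insert_of_mem (Finset.mem_insert_self _ _), hy, by
            subst hvy; exact SimpleGraph.Reachable.refl _⟩
        by_cases h1 : G.Adj x v
        · by_cases h2 : G.Adj y v
          · exact absurd (hR v h1 h2) hv
          · exact ⟨x, Finset.mem_insert_self _ _, hx,
              (ax v hv (mem_BB.2 ⟨hvy, h2, h1⟩)).reachable.symm⟩
        · by_cases h2 : G.Adj y v
          · exact ⟨y, Finset.mem_insert_of_mem (Finset.mem_insert_self _ _), hy,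
              (ay v hv (mem_BB.2 ⟨hvx, h1, h2⟩)).reachable⟩
          · exact ⟨v, Finset.mem_insert_of_mem (Finset.mem_insert_of_mem (Finset.mem_filter.2
              ⟨mem_AA.2 ⟨h1, h2⟩, hv⟩)), hv, SimpleGraph.Reachable.refl _⟩)
      have h2 := Finset.card_insert_le x (insert y ((AA G x y).filter fun w => w ∉ S))
      have h3 := Finset.card_insert_le y ((AA G x y).filter fun w => w ∉ S)
      have h4 := Finset.card_filter_le (AA G x y) (fun w => w ∉ S)
      omega
    have hd : (RR G x y).card +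
        (Finset.univ.filter fun b => b ∈ S ∧ (b ∈ BB G x y ∨ b ∈ BB G y x)).card ≤ S.ncard := by
      rw [← Finset.card_union_of_disjoint]
      · rw [Set.ncard_eq_toFinset_card']
        apply Finset.card_le_card
        intro w hw
        rw [Set.mem_toFinset]
        rcases Finset.mem_union.1 hw with h1 | h1
        · rw [mem_RR] at h1
          exact hR w h1.1 h1.2
        · exact (Finset.mem_filter.1 h1).2.1
      · rw [Finset.disjoint_left]
        intro w h1 h2
        rw [mem_RR] at h1
        rcases (Finset.mem_filter.1 h2).2.2 with h3 | h3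
        · exact (mem_BB.1 h3).2.1 h1.1
        · exact (mem_BB.1 h3).2.1 h1.2
    have hc' : (comps G' S : ℝ) ≤ (AA G x y).card + 2 := by exact_mod_cast hc
    have hd' : ((RR G x y).card : ℝ) +
        (Finset.univ.filter fun b => b ∈ S ∧ (b ∈ BB G x y ∨ b ∈ BB G y x)).card ≤ S.ncard := by
      exact_mod_cast hd
    have := mul_le_mul_of_nonneg_left hc' h.tpos.le
    linarith

/-- `x` is simplicial in the complement -/
def Simp (G : SimpleGraph V) (x : V) : Prop := ∀ a b, ¬ G.Adj x a → ¬ G.Adj x b → ¬ G.Adj a b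

lemma simp_in [Fintype V] (hG : CoChordal G) (s : Finset V) {v w : V} (hv : v ∈ s) (hw : w ∈ s)
    (hvw : G.Adj v w) : ∃ z ∈ s, G.Adj v z ∧
      ∀ a ∈ s, ∀ b ∈ s, ¬ G.Adj z a → ¬ G.Adj z b → ¬ G.Adj a b := by
  have hch : Pool.Agent.H255R3.STC.IsChordal Gᶜ := fun n hn => not_nonempty_iff.1 (hG n hn)
  obtain ⟨z, hz, hzv, hnz, hs⟩ := Pool.Agent.H255R3.STC.exists_simplicial hch s.card s le_rfl v hv
    w hw hvw.ne' (by
      rw [SimpleGraph.compl_adj]
      tauto)
  have hvz : G.Adj v z := by
    rw [SimpleGraph.compl_adj] at hnz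
    by_contra hcon
    exact hnz ⟨hzv.symm, hcon⟩
  refine ⟨z, hz, hvz, ?_⟩
  intro a ha b hb hza hzb hab
  by_cases h1 : a = z
  · subst h1
    exact hzb hab
  by_cases h2 : b = z
  · subst h2
    exact hza hab.symm
  have h3 := hs a ha b hb (by
    rw [SimpleGraph.compl_adj]
    exact ⟨fun h => h1 h.symm, hza⟩) (by
    rw [SimpleGraph.compl_adj]
    exact ⟨fun h => h2 h.symm, hzb⟩) hab.ne
  rw [SimpleGraph.compl_adj] at h3
  exact h3.2 hab

lemma Ctx.U' {t : ℝ} (h : Ctx G t) {S : Set V} {m : ℕ} (h2 : 2 ≤ m) (hm : m ≤ comps G S) :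
    t * m ≤ S.ncard :=
  (mul_le_mul_of_nonneg_left (by exact_mod_cast hm) h.tpos.le).trans (h.U S (h2.trans hm))

lemma tough_R [Fintype V] {t : ℝ} (h : Ctx G t) {x y : V} (hxy : G.Adj x y) (hx : Simp G x)
    (hy : Simp G y) (hA : (AA G x y).Nonempty) :
    t * ((AA G x y).card + 1) ≤ (RR G x y).card := by
  classical
  have hno : ∀ u v, u ∉ RR G x y → v ∉ RR G x y → G.Adj u v → u ∉ AA G x y := by
    intro u v _ hv huv hu
    rw [mem_AA] at hu
    rw [mem_RR] at hv
    by_cases h1 : G.Adj x v
    · exact hy u v hu.2 (fun h2 => hv ⟨h1, h2⟩) huv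
    · exact hx u v hu.1 h1 huv
  have h1 := comps_ge (G := G) (RR G x y : Set V) (fun v => if v ∈ AA G x y then some v else none)
    (by
      intro u v hu hv huv
      have h1 := hno u v hu hv huv
      have h2 := hno v u hv hu huv.symm
      simp only [h1, h2, if_false]) (Finset.insertNone (AA G x y)) (by
      intro a ha
      rw [Finset.mem_insertNone] at ha
      rcases a with _ | w
      · refine ⟨x, ?_, ?_⟩
        · simp [mem_RR]
        · simp [mem_AA, hxy.symm]
      · have hw := ha w rfl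
        refine ⟨w, ?_, by simp [hw]⟩
        rw [mem_AA] at hw
        simp [mem_RR, hw.1])
  rw [Finset.card_insertNone] at h1
  have h2 := h.U' (S := (RR G x y : Set V)) (m := (AA G x y).card + 1) (by
    have := hA.card_pos
    omega) h1
  rw [Set.ncard_coe_finset] at h2
  exact_mod_cast h2

open Classical in
lemma tough_B [Fintype V] {t : ℝ} (h : Ctx G t) {x y : V} (hxy : G.Adj x y) (hx : Simp G x)
    (hy : Simp G y) (hA : (AA G x y).Nonempty) {T : Finset V}
    (hT : ∀ b ∈ T, b ∈ BB G x y ∨ b ∈ BB G y x)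
    (hT2 : ∀ b b', b ∈ BB G x y → b ∉ T → b' ∈ BB G y x → b' ∉ T → ¬ G.Adj b b') :
    t * ((AA G x y).card + ((BB G x y).filter fun b => b ∉ T).card + 1) ≤
      (RR G x y).card + T.card + 1 := by
  classical
  set B' := (BB G x y).filter fun b => b ∉ T with hB'
  set S : Finset V := insert y (RR G x y ∪ T) with hS
  have hno : ∀ u v, u ∉ S → v ∉ S → G.Adj u v → u ∉ AA G x y ∪ B' := by
    intro u v _ hv huv hu
    have hxu : ¬ G.Adj x u := by
      rcases Finset.mem_union.1 hu with h1 | h1
      · exact (mem_AA.1 h1).1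
      · exact (mem_BB.1 (Finset.mem_filter.1 h1).1).2.1
    simp only [hS, Finset.mem_insert, Finset.mem_union, not_or, mem_RR] at hv
    obtain ⟨v1, v2, v3⟩ := hv
    by_cases h1 : G.Adj x v
    · have h2 : ¬ G.Adj y v := fun h2 => v2 ⟨h1, h2⟩
      rcases Finset.mem_union.1 hu with h3 | h3
      · exact hy u v (mem_AA.1 h3).2 h2 huv
      · exact hT2 u v (Finset.mem_filter.1 h3).1 (Finset.mem_filter.1 h3).2
          (mem_BB.2 ⟨v1, h2, h1⟩) v3 huv
    · exact hx u v hxu h1 huv
  have h1 := comps_ge (G := G) (S : Set V) (fun v => if v ∈ AA G x y ∪ B' then some v else none)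
    (by
      intro u v hu hv huv
      have h1 := hno u v hu hv huv
      have h2 := hno v u hv hu huv.symm
      simp only [h1, h2, if_false]) (Finset.insertNone (AA G x y ∪ B')) (by
      intro a ha
      rw [Finset.mem_insertNone] at ha
      rcases a with _ | w
      · refine ⟨x, ?_, ?_⟩
        · have hxT : x ∉ T := by
            intro hxT
            rcases hT x hxT with h1 | h1
            · exact (mem_BB.1 h1).1 rfl
            · exact G.loopless.irrefl _ (mem_BB.1 h1).2.2
          simp [hS, mem_RR, hxT, hxy.ne]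
        · have : x ∉ AA G x y ∪ B' := by
            intro h1
            rcases Finset.mem_union.1 h1 with h1 | h1
            · exact (mem_AA.1 h1).2 hxy.symm
            · exact (mem_BB.1 (Finset.mem_filter.1 h1).1).1 rfl
          simp only [this, if_false]
      · have hw := ha w rfl
        refine ⟨w, ?_, by simp only [hw, if_true]⟩
        have hxw : ¬ G.Adj x w := by
          rcases Finset.mem_union.1 hw with h1 | h1
          · exact (mem_AA.1 h1).1
          · exact (mem_BB.1 (Finset.mem_filter.1 h1).1).2.1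
        have hwT : w ∉ T := by
          intro hwT
          rcases Finset.mem_union.1 hw with h1 | h1
          · rcases hT w hwT with h2 | h2
            · exact (mem_AA.1 h1).2 (mem_BB.1 h2).2.2
            · exact (mem_AA.1 h1).1 (mem_BB.1 h2).2.2
          · exact (Finset.mem_filter.1 h1).2 hwT
        have hwy : w ≠ y := by
          rintro rfl
          exact hxw hxy
        simp [hS, mem_RR, hxw, hwT, hwy])
  rw [Finset.card_insertNone, Finset.card_union_of_disjoint (by
    rw [Finset.disjoint_left]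
    intro w h1 h2
    exact (mem_AA.1 h1).2 (mem_BB.1 (Finset.mem_filter.1 h2).1).2.2)] at h1
  have h2 := h.U' (S := (S : Set V)) (m := (AA G x y).card + B'.card + 1) (by
    have := hA.card_pos
    omega) h1
  rw [Set.ncard_coe_finset] at h2
  have h3 : S.card ≤ (RR G x y).card + T.card + 1 := by
    have h4 : S.card ≤ (RR G x y ∪ T).card + 1 := Finset.card_insert_le y (RR G x y ∪ T)
    have h5 := Finset.card_union_le (RR G x y) T
    omega
  have h3' : (S.card : ℝ) ≤ (RR G x y).card + T.card + 1 := by exact_mod_cast h3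
  push_cast at h2
  linarith

lemma tough_I [Fintype V] {t : ℝ} (h : Ctx G t) {x y : V} (hxy : G.Adj x y) (hx : Simp G x)
    (hA : (AA G x y).Nonempty) :
    t * (1 + (AA G x y).card + (BB G x y).card) ≤ 1 + (BB G y x).card + (RR G x y).card := by
  classical
  set S : Finset V := insert y (BB G y x ∪ RR G x y) with hS
  have hSx : ∀ w, w ∉ S → ¬ G.Adj x w := by
    intro w hw hxw
    simp only [hS, Finset.mem_insert, Finset.mem_union, not_or, mem_RR, mem_BB] at hw
    obtain ⟨w1, w2, w3⟩ := hw
    by_cases h1 : G.Adj y w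
    · exact w3 ⟨hxw, h1⟩
    · exact w2 ⟨w1, h1, hxw⟩
  have h1 := comps_ge (G := G) (S : Set V) (fun v => v)
    (by
      intro u v hu hv huv
      exact absurd huv (hx u v (hSx u hu) (hSx v hv))) (insert x (AA G x y ∪ BB G x y)) (by
      intro w hw
      refine ⟨w, ?_, rfl⟩
      have hxw : ¬ G.Adj x w := by
        rw [Finset.mem_insert, Finset.mem_union, mem_AA, mem_BB] at hw
        rcases hw with rfl | hw | hw
        · exact G.loopless.irrefl _
        · exact hw.1
        · exact hw.2.1
      have hwy : w ≠ y := by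
        rintro rfl
        exact hxw hxy
      simp [hS, mem_RR, mem_BB, hxw, hwy])
  rw [Finset.card_insert_of_notMem (by
    intro h1
    rcases Finset.mem_union.1 h1 with h1 | h1
    · exact (mem_AA.1 h1).2 hxy.symm
    · exact (mem_BB.1 h1).1 rfl), Finset.card_union_of_disjoint (by
    rw [Finset.disjoint_left]
    intro w h1 h2
    exact (mem_AA.1 h1).2 (mem_BB.1 h2).2.2)] at h1
  have h2 := h.U' (S := (S : Set V)) (m := (AA G x y).card + (BB G x y).card + 1) (by
    have := hA.card_pos
    omega) h1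
  rw [Set.ncard_coe_finset] at h2
  have h3 : S.card ≤ (BB G y x).card + (RR G x y).card + 1 := by
    have h4 : S.card ≤ (BB G y x ∪ RR G x y).card + 1 := Finset.card_insert_le _ _
    have h5 := Finset.card_union_le (BB G y x) (RR G x y)
    omega
  have h3' : (S.card : ℝ) ≤ (BB G y x).card + (RR G x y).card + 1 := by exact_mod_cast h3
  push_cast at h2
  linarith

lemma AA_comm [Fintype V] (x y : V) : AA G x y = AA G y x := by
  ext w
  rw [mem_AA, mem_AA]
  tauto

lemma RR_comm [Fintype V] (x y : V) : RR G x y = RR G y x := by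
  ext w
  rw [mem_RR, mem_RR]
  tauto

lemma BB_le_one [Fintype V] {t : ℝ} (h : Ctx G t) (ht : 1 ≤ t) {x y : V} (hxy : G.Adj x y)
    (hx : Simp G x) (hy : Simp G y) (hA : (AA G x y).Nonempty) : (BB G x y).card ≤ 1 := by
  classical
  obtain ⟨T, hT, hT2, hlt⟩ := crit h hxy
  have b1 := tough_B h hxy hx hy hA hT hT2
  have b2 := tough_B h hxy.symm hy hx (by rwa [AA_comm]) (T := T) (fun b hb => (hT b hb).symm)
    (fun b b' h1 h2 h3 h4 h5 => hT2 b' b h3 h4 h1 h2 h5.symm)
  have b3 := tough_I h hxy hx hA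
  rw [AA_comm y x, RR_comm y x] at b2
  set a : ℝ := ((AA G x y).card : ℝ) with ha
  set r : ℝ := ((RR G x y).card : ℝ) with hr
  set τ : ℝ := (T.card : ℝ) with hτ
  set p := ((BB G x y).filter fun b => b ∉ T).card with hp
  set q := ((BB G y x).filter fun b => b ∉ T).card with hq
  have p1 : p ≤ 1 := by
    by_contra hcon
    have h2 : (2 : ℝ) ≤ p := by
      have : 2 ≤ p := by omega
      exact_mod_cast this
    nlinarith
  have q1 : q ≤ 1 := by
    by_contra hcon
    have h2 : (2 : ℝ) ≤ q := by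
      have : 2 ≤ q := by omega
      exact_mod_cast this
    nlinarith
  have hsum : (BB G x y).card + (BB G y x).card ≤ p + q + T.card := by
    have e1 := Finset.card_filter_add_card_filter_not (s := BB G x y) (fun b => b ∉ T)
    have e2 := Finset.card_filter_add_card_filter_not (s := BB G y x) (fun b => b ∉ T)
    have e3 : ((BB G x y).filter fun b => ¬ b ∉ T).card + ((BB G y x).filter fun b => ¬ b ∉ T).card
        ≤ T.card := by
      rw [← Finset.card_union_of_disjoint]
      · apply Finset.card_le_card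
        intro w hw
        rcases Finset.mem_union.1 hw with h1 | h1
        · exact not_not.1 (Finset.mem_filter.1 h1).2
        · exact not_not.1 (Finset.mem_filter.1 h1).2
      · rw [Finset.disjoint_left]
        intro w h1 h2
        exact (mem_BB.1 (Finset.mem_filter.1 h1).1).2.1 (mem_BB.1 (Finset.mem_filter.1 h2).1).2.2
    omega
  have hsum' : ((BB G x y).card : ℝ) + (BB G y x).card ≤ 2 + τ := by
    have : (BB G x y).card + (BB G y x).card ≤ 2 + T.card := by omega
    rw [hτ]
    exact_mod_cast this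
  by_contra hcon
  have h2 : (2 : ℝ) ≤ (BB G x y).card := by
    have : 2 ≤ (BB G x y).card := by omega
    exact_mod_cast this
  nlinarith

/-- a maximal clique of simplicial vertices (of the complement) -/
structure MaxSimp (G : SimpleGraph V) (X : Finset V) : Prop where
  simp : ∀ x ∈ X, Simp G x
  clique : ∀ x ∈ X, ∀ y ∈ X, x ≠ y → G.Adj x y
  max : ∀ z, Simp G z → ∃ x ∈ X, ¬ G.Adj x z

lemma exists_maxSimp [Fintype V] (G : SimpleGraph V) : ∃ X : Finset V, MaxSimp G X := by
  classical
  let F : Finset (Finset V) := Finset.univ.filter fun X =>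
    (∀ x ∈ X, Simp G x) ∧ (∀ x ∈ X, ∀ y ∈ X, x ≠ y → G.Adj x y)
  have hF : F.Nonempty := ⟨∅, by simp [F]⟩
  obtain ⟨X, hX, hmax⟩ := Finset.exists_max_image F Finset.card hF
  have hX' := (Finset.mem_filter.1 hX).2
  refine ⟨X, hX'.1, hX'.2, ?_⟩
  intro z hz
  by_contra hcon
  push Not at hcon
  have hzX : z ∉ X := fun h => G.loopless.irrefl _ (hcon z h)
  have h1 := hmax (insert z X) (Finset.mem_filter.2 ⟨Finset.mem_univ _, by
    intro x hx
    rcases Finset.mem_insert.1 hx with rfl | hx
    · exact hz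
    · exact hX'.1 x hx, by
    intro x hx y hy hxy
    rcases Finset.mem_insert.1 hx with h1 | h1 <;> rcases Finset.mem_insert.1 hy with h2 | h2
    · exact absurd (h1.trans h2.symm) hxy
    · rw [h1]
      exact (hcon y h2).symm
    · rw [h2]
      exact hcon x h1
    · exact hX'.2 x h1 y h2 hxy⟩)
  rw [Finset.card_insert_of_notMem hzX] at h1
  omega

/-- the standing assumptions -/
structure Hyp [Fintype V] (G : SimpleGraph V) (t : ℝ) : Prop where
  ctx : Ctx G t
  cochordal : CoChordal G
  diam : ∀ x y, G.Adj x y → (AA G x y).Nonempty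
  edge : ∃ x y, G.Adj x y

lemma Hyp.noiso [Fintype V] {t : ℝ} (h : Hyp G t) (v : V) : ∃ w, G.Adj v w := by
  classical
  by_contra hcon
  push Not at hcon
  obtain ⟨x, y, hxy⟩ := h.edge
  have hxv : x ≠ v := by
    rintro rfl
    exact hcon y hxy
  have h1 := comps_ge (G := G) (∅ : Set V) (fun u => decide (u = v)) (by
    intro a b _ _ hab
    have ha : a ≠ v := by
      rintro rfl
      exact hcon b hab
    have hb : b ≠ v := by
      rintro rfl
      exact hcon a hab.symm
    simp [ha, hb]) {true, false} (by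
    intro c _
    cases c
    · exact ⟨x, by simp, by simp [hxv]⟩
    · exact ⟨v, by simp, by simp⟩)
  have h2 := h.ctx.U' (S := (∅ : Set V)) (m := 2) le_rfl h1
  have := h.ctx.tpos
  simp at h2
  linarith

lemma Hyp.nbrX [Fintype V] {t : ℝ} (h : Hyp G t) {X : Finset V} (hX : MaxSimp G X) (v : V) :
    ∃ x ∈ X, G.Adj v x := by
  obtain ⟨w, hvw⟩ := h.noiso v
  obtain ⟨z, _, hvz, hz⟩ := simp_in h.cochordal Finset.univ (Finset.mem_univ v)
    (Finset.mem_univ w) hvw
  have hzs : Simp G z := fun a b => hz a (Finset.mem_univ _) b (Finset.mem_univ _)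
  obtain ⟨x, hx, hxz⟩ := hX.max z hzs
  refine ⟨x, hx, ?_⟩
  by_contra hcon
  exact hX.simp x hx z v hxz (fun h' => hcon h'.symm) hvz.symm

/-- Nonneighbours of vertices of `X` are pairwise nonadjacent. -/
lemma Hyp.claim1 [Fintype V] {t : ℝ} (h : Hyp G t) {X : Finset V} (hX : MaxSimp G X) {x y p q : V}
    (hx : x ∈ X) (hy : y ∈ X) (hpx : p ≠ x) (hxp : ¬ G.Adj x p) (hqy : q ≠ y) (hyq : ¬ G.Adj y q) :
    ¬ G.Adj p q := by
  classical
  intro hpq
  have sx := hX.simp x hx
  have sy := hX.simp y hy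
  by_cases hxy : x = y
  · subst hxy
    exact sx p q hxp hyq hpq
  have axy := hX.clique x hx y hy hxy
  have hyp : G.Adj y p := by
    by_contra hcon
    exact sy p q hcon hyq hpq
  have hxq : G.Adj x q := by
    by_contra hcon
    exact sx p q hxp hcon hpq
  have hA := h.diam x y axy
  rcases le_total t 1 with ht | ht
  · obtain ⟨T, hT, hT2, hlt⟩ := crit h.ctx axy
    have h1 := tough_R h.ctx axy sx sy hA
    have hT0 : T = ∅ := by
      rw [← Finset.card_eq_zero]
      by_contra hcon
      have : (1 : ℝ) ≤ T.card := by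
        have : 1 ≤ T.card := by omega
        exact_mod_cast this
      linarith
    subst hT0
    exact hT2 p q (mem_BB.2 ⟨hpx, hxp, hyp⟩) (by simp) (mem_BB.2 ⟨hqy, hyq, hxq⟩) (by simp) hpq
  · obtain ⟨s, hs⟩ := hA
    rw [mem_AA] at hs
    obtain ⟨z, hz, hsz⟩ := h.nbrX hX s
    have hzx : x ≠ z := by
      rintro rfl
      exact hs.1 hsz.symm
    have hzy : y ≠ z := by
      rintro rfl
      exact hs.2 hsz.symm
    have axz := hX.clique x hx z hz hzx
    have ayz := hX.clique y hy z hz hzy
    have sz := hX.simp z hz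
    have hsx : s ≠ x := by
      rintro rfl
      exact hs.2 axy.symm
    have hsy : s ≠ y := by
      rintro rfl
      exact hs.1 axy
    have hzp : ¬ G.Adj z p := by
      intro hzp
      have h1 := BB_le_one h.ctx ht axz sx sz (h.diam x z axz)
      rw [Finset.card_le_one] at h1
      have h2 := h1 p (mem_BB.2 ⟨hpx, hxp, hzp⟩) s (mem_BB.2 ⟨hsx, hs.1, hsz.symm⟩)
      exact hs.2 (h2 ▸ hyp)
    have hzq : ¬ G.Adj z q := by
      intro hzq
      have h1 := BB_le_one h.ctx ht ayz sy sz (h.diam y z ayz)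
      rw [Finset.card_le_one] at h1
      have h2 := h1 q (mem_BB.2 ⟨hqy, hyq, hzq⟩) s (mem_BB.2 ⟨hsy, hs.2, hsz.symm⟩)
      exact hs.1 (h2 ▸ hxq)
    exact sz p q hzp hzq hpq

/-- Every vertex outside `X` has a nonneighbour in `X`. -/
lemma Hyp.claim2 [Fintype V] {t : ℝ} (h : Hyp G t) {X : Finset V} (hX : MaxSimp G X) {v : V}
    (_hv : v ∉ X) : ∃ x ∈ X, ¬ G.Adj x v := by
  classical
  by_contra hcon
  push Not at hcon
  set s : Finset V := Finset.univ.filter fun w => w ∉ X with hs
  have mem_s : ∀ w, w ∈ s ↔ w ∉ X := fun w => by simp [hs]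
  -- it is enough to find a simplicial vertex of `s` adjacent to all of `X`
  have enough : ∀ z, (∀ x ∈ X, G.Adj x z) →
      (∀ a ∈ s, ∀ b ∈ s, ¬ G.Adj z a → ¬ G.Adj z b → ¬ G.Adj a b) → False := by
    intro z hz hz2
    have hzs : Simp G z := by
      intro a b ha hb
      apply hz2 a _ b _ ha hb
      · rw [mem_s]
        intro haX
        exact ha (hz a haX).symm
      · rw [mem_s]
        intro hbX
        exact hb (hz b hbX).symm
    obtain ⟨x, hx, hxz⟩ := hX.max z hzs
    exact hxz (hz x hx)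
  -- an edge with one end nonadjacent to some vertex of `X`
  by_cases c1 : ∃ p ∈ s, (∃ x ∈ X, ¬ G.Adj x p) ∧ ∃ q ∈ s, G.Adj p q
  · obtain ⟨p, hp, ⟨x, hx, hxp⟩, q, hq, hpq⟩ := c1
    obtain ⟨z, hzs, hpz, hz⟩ := simp_in h.cochordal s hp hq hpq
    apply enough z _ hz
    intro y hy
    by_contra hyz
    have hpX := (mem_s p).1 hp
    have hzX := (mem_s z).1 hzs
    exact h.claim1 hX hx hy (fun h' : p = x => hpX (h' ▸ hx)) hxp
      (fun h' : z = y => hzX (h' ▸ hy)) hyz hpz
  · push Not at c1
    by_cases c2 : ∃ p ∈ s, ∃ q ∈ s, G.Adj p q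
    · obtain ⟨p, hp, q, hq, hpq⟩ := c2
      obtain ⟨z, hzs, hpz, hz⟩ := simp_in h.cochordal s hp hq hpq
      apply enough z _ hz
      intro y hy
      by_contra hyz
      exact c1 z hzs ⟨y, hy, hyz⟩ p hp hpz.symm
    · push Not at c2
      exact enough v hcon (fun a ha b hb _ _ => c2 a ha b hb)

/-- the graph is split: `X` is a clique and its complement is independent -/
structure Split [Fintype V] (G : SimpleGraph V) (t : ℝ) (X : Finset V) : Prop where
  ctx : Ctx G t
  clique : ∀ x ∈ X, ∀ y ∈ X, x ≠ y → G.Adj x y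
  indep : ∀ p q, p ∉ X → q ∉ X → ¬ G.Adj p q
  nbr : ∀ v, ∃ x ∈ X, G.Adj v x
  non : ∀ v, v ∉ X → ∃ x ∈ X, ¬ G.Adj v x
  common : ∀ x ∈ X, ∀ y ∈ X, x ≠ y → ∃ p, p ∉ X ∧ ¬ G.Adj x p ∧ ¬ G.Adj y p
  two : ∃ x ∈ X, ∃ y ∈ X, x ≠ y

lemma Hyp.split [Fintype V] {t : ℝ} (h : Hyp G t) : ∃ X : Finset V, Split G t X := by
  obtain ⟨X, hX⟩ := exists_maxSimp G
  refine ⟨X, h.ctx, hX.clique, ?_, h.nbrX hX, ?_, ?_, ?_⟩
  · intro p q hp hq
    obtain ⟨x, hx, hxp⟩ := h.claim2 hX hp
    obtain ⟨y, hy, hyq⟩ := h.claim2 hX hq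
    exact h.claim1 hX hx hy (fun h' => hp (h' ▸ hx)) hxp (fun h' => hq (h' ▸ hy)) hyq
  · intro v hv
    obtain ⟨x, hx, hxv⟩ := h.claim2 hX hv
    exact ⟨x, hx, fun h' => hxv h'.symm⟩
  · intro x hx y hy hxy
    obtain ⟨p, hp⟩ := h.diam x y (hX.clique x hx y hy hxy)
    rw [mem_AA] at hp
    refine ⟨p, ?_, hp⟩
    intro hpX
    by_cases h1 : x = p
    · subst h1
      exact hp.2 (hX.clique y hy x hx hxy.symm)
    · exact hp.1 (hX.clique x hx p hpX h1)
  · obtain ⟨a, _, _⟩ := h.edge
    obtain ⟨x, hx, _⟩ := h.nbrX hX a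
    obtain ⟨y, hy, hxy⟩ := h.nbrX hX x
    exact ⟨x, hx, y, hy, hxy.ne⟩

open Classical in
/-- the vertices outside `X` -/
noncomputable def II [Fintype V] (X : Finset V) : Finset V := Finset.univ.filter fun p => p ∉ X

open Classical in
/-- the neighbours of `x` outside `X` -/
noncomputable def NN [Fintype V] (G : SimpleGraph V) (X : Finset V) (x : V) : Finset V :=
  (II X).filter fun p => G.Adj x p

lemma mem_II [Fintype V] {X : Finset V} {p : V} : p ∈ II X ↔ p ∉ X := by simp [II]

lemma mem_NN [Fintype V] {X : Finset V} {x p : V} : p ∈ NN G X x ↔ p ∉ X ∧ G.Adj x p := by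
  simp [NN, mem_II]

lemma Split.notX [Fintype V] {t : ℝ} {X : Finset V} (h : Split G t X) {x y p : V} (hx : x ∈ X)
    (hy : y ∈ X) (hxy : x ≠ y) (hp : p ∈ AA G x y) : p ∉ X := by
  intro hpX
  rw [mem_AA] at hp
  by_cases h1 : x = p
  · subst h1
    exact hp.2 (h.clique y hy x hx hxy.symm)
  · exact hp.1 (h.clique x hx p hpX h1)

lemma Split.a [Fintype V] {t : ℝ} {X : Finset V} (h : Split G t X) {x y : V} (hx : x ∈ X)
    (hy : y ∈ X) (hxy : x ≠ y) : t * ((AA G x y).card + 1) ≤ (X.card : ℝ) - 2 := by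
  classical
  obtain ⟨p, hp, hxp, hyp⟩ := h.common x hx y hy hxy
  set S : Finset V := (X.erase x).erase y with hS
  have hcard : S.card + 2 = X.card := by
    have h1 := Finset.card_erase_add_one hx
    have h2 : S.card + 1 = (X.erase x).card :=
      Finset.card_erase_add_one (Finset.mem_erase.2 ⟨hxy.symm, hy⟩)
    omega
  have hno : ∀ u v, u ∉ S → v ∉ S → G.Adj u v → u ∉ AA G x y := by
    intro u v _ hv huv hu
    have huX := h.notX hx hy hxy hu
    rw [mem_AA] at hu
    have hvX : v ∈ X := by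
      by_contra hvX
      exact h.indep u v huX hvX huv
    apply hv
    rw [hS, Finset.mem_erase, Finset.mem_erase]
    refine ⟨?_, ?_, hvX⟩
    · rintro rfl
      exact hu.2 huv.symm
    · rintro rfl
      exact hu.1 huv.symm
  have h1 := comps_ge (G := G) (S : Set V) (fun v => if v ∈ AA G x y then some v else none)
    (by
      intro u v hu hv huv
      have h1 := hno u v hu hv huv
      have h2 := hno v u hv hu huv.symm
      simp only [h1, h2, if_false]) (Finset.insertNone (AA G x y)) (by
      intro a ha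
      rw [Finset.mem_insertNone] at ha
      rcases a with _ | w
      · refine ⟨x, ?_, ?_⟩
        · simp [hS]
        · have : x ∉ AA G x y := by
            rw [mem_AA]
            exact fun h' => h'.2 (h.clique y hy x hx hxy.symm)
          simp only [this, if_false]
      · have hw := ha w rfl
        refine ⟨w, ?_, by simp only [hw, if_true]⟩
        have hwX := h.notX hx hy hxy hw
        simp [hS, hwX])
  rw [Finset.card_insertNone] at h1
  have h2 := h.ctx.U' (S := (S : Set V)) (m := (AA G x y).card + 1) (by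
    have : p ∈ AA G x y := mem_AA.2 ⟨hxp, hyp⟩
    have := Finset.card_pos.2 ⟨p, this⟩
    omega) h1
  rw [Set.ncard_coe_finset] at h2
  have h3 : (S.card : ℝ) + 2 = X.card := by exact_mod_cast hcard
  push_cast at h2
  linarith

open Classical in
lemma Split.b [Fintype V] {t : ℝ} {X : Finset V} (h : Split G t X) {x y : V} (hx : x ∈ X)
    (hy : y ∈ X) (hxy : x ≠ y) :
    (X.card : ℝ) - 2 + (NN G X x ∩ NN G X y).card < t * ((AA G x y).card + 2) := by
  obtain ⟨T, _, _, hlt⟩ := crit h.ctx (h.clique x hx y hy hxy)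
  set S : Finset V := (X.erase x).erase y with hS
  have hcard : S.card + 2 = X.card := by
    have h1 := Finset.card_erase_add_one hx
    have h2 : S.card + 1 = (X.erase x).card :=
      Finset.card_erase_add_one (Finset.mem_erase.2 ⟨hxy.symm, hy⟩)
    omega
  have hle : S.card + (NN G X x ∩ NN G X y).card ≤ (RR G x y).card := by
    rw [← Finset.card_union_of_disjoint]
    · apply Finset.card_le_card
      intro w hw
      rw [mem_RR]
      rcases Finset.mem_union.1 hw with h1 | h1
      · rw [hS, Finset.mem_erase, Finset.mem_erase] at h1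
        exact ⟨h.clique x hx w h1.2.2 h1.2.1.symm, h.clique y hy w h1.2.2 h1.1.symm⟩
      · rw [Finset.mem_inter, mem_NN, mem_NN] at h1
        exact ⟨h1.1.2, h1.2.2⟩
    · rw [Finset.disjoint_left]
      intro w h1 h2
      rw [hS, Finset.mem_erase, Finset.mem_erase] at h1
      rw [Finset.mem_inter, mem_NN, mem_NN] at h2
      exact h2.1.1 h1.2.2
  have h3 : (S.card : ℝ) + 2 = X.card := by exact_mod_cast hcard
  have h4 : (S.card : ℝ) + (NN G X x ∩ NN G X y).card ≤ (RR G x y).card := by exact_mod_cast hle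
  have h5 : (0 : ℝ) ≤ T.card := Nat.cast_nonneg _
  linarith

open Classical in
lemma Split.aa [Fintype V] {t : ℝ} {X : Finset V} (h : Split G t X) {x y : V} (hx : x ∈ X)
    (hy : y ∈ X) (hxy : x ≠ y) :
    (AA G x y).card + (NN G X x ∪ NN G X y).card ≤ (II X).card := by
  rw [← Finset.card_union_of_disjoint]
  · apply Finset.card_le_card
    intro w hw
    rw [mem_II]
    rcases Finset.mem_union.1 hw with h1 | h1
    · exact h.notX hx hy hxy h1
    · rcases Finset.mem_union.1 h1 with h2 | h2
      · exact (mem_NN.1 h2).1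
      · exact (mem_NN.1 h2).1
  · rw [Finset.disjoint_left]
    intro w h1 h2
    rw [mem_AA] at h1
    rcases Finset.mem_union.1 h2 with h2 | h2
    · exact h1.1 (mem_NN.1 h2).2
    · exact h1.2 (mem_NN.1 h2).2

lemma Split.kq [Fintype V] {t : ℝ} {X : Finset V} (h : Split G t X) (hq : 2 ≤ (II X).card) :
    t * (II X).card ≤ X.card := by
  classical
  have h1 := comps_ge (G := G) (X : Set V) (fun v => v) (by
    intro u v hu hv huv
    exact absurd huv (h.indep u v hu hv)) (II X) (by
    intro w hw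
    exact ⟨w, by simpa [mem_II] using hw, rfl⟩)
  have h2 := h.ctx.U' (S := (X : Set V)) hq h1
  rwa [Set.ncard_coe_finset] at h2

open Classical in
lemma Split.deg [Fintype V] {t : ℝ} {X : Finset V} (h : Split G t X) {p : V} (hp : p ∉ X) :
    t * 2 ≤ (X.filter fun x => G.Adj x p).card := by
  obtain ⟨y, hy, hpy⟩ := h.non p hp
  have h1 := comps_ge (G := G) ((X.filter fun x => G.Adj x p : Finset V) : Set V)
    (fun v => decide (v = p)) (by
      intro u v hu hv huv
      have h1 : u ≠ p := by
        rintro rfl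
        apply hv
        rw [Finset.mem_coe, Finset.mem_filter]
        refine ⟨?_, huv.symm⟩
        by_contra hvX
        exact h.indep u v hp hvX huv
      have h2 : v ≠ p := by
        rintro rfl
        apply hu
        rw [Finset.mem_coe, Finset.mem_filter]
        refine ⟨?_, huv⟩
        by_contra huX
        exact h.indep u v huX hp huv
      simp [h1, h2]) {true, false} (by
      intro c _
      cases c
      · refine ⟨y, ?_, ?_⟩
        · rw [Finset.mem_coe, Finset.mem_filter]
          exact fun h' => hpy h'.2.symm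
        · have : y ≠ p := fun h' => hp (h' ▸ hy)
          simp [this]
      · refine ⟨p, ?_, by simp⟩
        simp [hp])
  have h2 := h.ctx.U' (S := ((X.filter fun x => G.Adj x p : Finset V) : Set V)) (m := 2) le_rfl h1
  rw [Set.ncard_coe_finset] at h2
  exact_mod_cast h2

open Classical in
lemma Split.lt_one [Fintype V] {t : ℝ} {X : Finset V} (h : Split G t X) : t < 1 := by
  by_contra hcon
  push Not at hcon
  have deg2 : ∀ p, p ∉ X → 2 ≤ (X.filter fun x => G.Adj x p).card := by
    intro p hp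
    have h1 := h.deg hp
    have h2 : (2 : ℝ) ≤ (X.filter fun x => G.Adj x p).card := by linarith
    exact_mod_cast h2
  obtain ⟨x, hx, y, hy, hxy⟩ := h.two
  obtain ⟨p0, hp0, _, _⟩ := h.common x hx y hy hxy
  obtain ⟨z, hz, w, hw, hzw⟩ := Finset.one_lt_card.1 (deg2 p0 hp0)
  rw [Finset.mem_filter] at hz hw
  obtain ⟨p1, hp1, hzp1, hwp1⟩ := h.common z hz.1 w hw.1 hzw
  obtain ⟨z1, hz1, hpz1⟩ := h.nbr p1
  have hzz1 : z ≠ z1 := by
    rintro rfl
    exact hzp1 hpz1.symm
  obtain ⟨p2, hp2, hzp2, hzp2'⟩ := h.common z hz.1 z1 hz1 hzz1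
  have n01 : p0 ≠ p1 := by
    rintro rfl
    exact hzp1 hz.2
  have n02 : p0 ≠ p2 := by
    rintro rfl
    exact hzp2 hz.2
  have n12 : p1 ≠ p2 := by
    rintro rfl
    exact hzp2' hpz1.symm
  have q3 : 3 ≤ (II X).card := by
    have h1 : ({p0, p1, p2} : Finset V) ⊆ II X := by
      intro v hv
      rw [mem_II]
      simp only [Finset.mem_insert, Finset.mem_singleton] at hv
      rcases hv with rfl | rfl | rfl <;> assumption
    have h2 := Finset.card_le_card h1
    rw [Finset.card_insert_of_notMem (by simp [n01, n02]), Finset.card_pair n12] at h2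
    exact h2
  have hkq := h.kq (by omega)
  set q : ℝ := ((II X).card : ℝ) with hqdef
  set k : ℝ := (X.card : ℝ) with hkdef
  have q3' : (3 : ℝ) ≤ q := by
    rw [hqdef]
    exact_mod_cast q3
  -- the pairs
  have pair : ∀ x ∈ X, ∀ y ∈ X, x ≠ y → (NN G X x).card + (NN G X y).card ≤ 3 := by
    intro x hx y hy hxy
    have hb := h.b hx hy hxy
    have ha := h.aa hx hy hxy
    have hui := Finset.card_union_add_card_inter (NN G X x) (NN G X y)
    have hiu : (NN G X x ∩ NN G X y).card ≤ (NN G X x ∪ NN G X y).card :=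
      Finset.card_le_card (Finset.inter_subset_union)
    rw [← hui]
    set i := (NN G X x ∩ NN G X y).card
    set u := (NN G X x ∪ NN G X y).card
    have ha' : ((AA G x y).card : ℝ) + u ≤ q := by
      rw [hqdef]
      exact_mod_cast ha
    by_contra hc
    push Not at hc
    have hc' : 4 ≤ u + i := by omega
    have htp := h.ctx.tpos
    have h1 : t * ((AA G x y).card + 2) ≤ t * (q - u + 2) :=
      mul_le_mul_of_nonneg_left (by linarith) htp.le
    have h2 : t * u + i < 2 * t + 2 := by nlinarith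
    rcases Nat.lt_or_ge u 4 with h4 | h4
    · have h5 : u = 2 ∨ u = 3 := by omega
      rcases h5 with h5 | h5
      · have : (2 : ℝ) ≤ i := by
          have : 2 ≤ i := by omega
          exact_mod_cast this
        rw [h5] at h2
        push_cast at h2
        linarith
      · have : (1 : ℝ) ≤ i := by
          have : 1 ≤ i := by omega
          exact_mod_cast this
        rw [h5] at h2
        push_cast at h2
        linarith
    · have h5 : (4 : ℝ) ≤ u := by exact_mod_cast h4
      have h6 : (0 : ℝ) ≤ i := Nat.cast_nonneg _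
      nlinarith
  -- the sum
  have hsum : ∑ x ∈ X, (NN G X x).card ≤ X.card + 1 := by
    by_cases hall : ∀ x ∈ X, (NN G X x).card ≤ 1
    · have := Finset.sum_le_card_nsmul X (fun x => (NN G X x).card) 1 hall
      simp only [smul_eq_mul, mul_one] at this
      omega
    · push Not at hall
      obtain ⟨x0, hx0, h2⟩ := hall
      have hrest : ∀ y ∈ X.erase x0, (NN G X y).card ≤ 1 := by
        intro y hy
        rw [Finset.mem_erase] at hy
        have := pair x0 hx0 y hy.2 hy.1.symm
        omega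
      have hx2 : (NN G X x0).card ≤ 2 := by
        by_contra h3
        have hpos : 0 < (NN G X x0).card := by omega
        obtain ⟨p, hp⟩ := Finset.card_pos.1 hpos
        rw [mem_NN] at hp
        obtain ⟨y1, hy1, y2, hy2, hy12⟩ := Finset.one_lt_card.1 (deg2 p hp.1)
        rw [Finset.mem_filter] at hy1 hy2
        have key : ∀ y ∈ X, y ≠ x0 → ¬ G.Adj y p := by
          intro y hy hne hyp
          have h4 := pair x0 hx0 y hy hne.symm
          have h5 : 0 < (NN G X y).card := Finset.card_pos.2 ⟨p, mem_NN.2 ⟨hp.1, hyp⟩⟩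
          omega
        by_cases hy : y1 = x0
        · exact key y2 hy2.1 (fun h' => hy12 (hy.trans h'.symm)) hy2.2
        · exact key y1 hy1.1 hy hy1.2
      have h3 := Finset.sum_le_card_nsmul (X.erase x0) (fun x => (NN G X x).card) 1 hrest
      have h4 := Finset.add_sum_erase X (fun x => (NN G X x).card) hx0
      have h5 := Finset.card_erase_add_one hx0
      simp only [smul_eq_mul, mul_one] at h3
      omega
  have hdouble : ∑ x ∈ X, (NN G X x).card =
      ∑ p ∈ II X, (X.filter fun x => G.Adj x p).card := by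
    have := Finset.sum_card_bipartiteAbove_eq_sum_card_bipartiteBelow (s := X) (t := II X)
      (fun x p => G.Adj x p)
    simpa only [Finset.bipartiteAbove, Finset.bipartiteBelow, NN] using this
  have hlow : q * (t * 2) ≤ ∑ p ∈ II X, ((X.filter fun x => G.Adj x p).card : ℝ) := by
    have := Finset.card_nsmul_le_sum (II X) (fun p => ((X.filter fun x => G.Adj x p).card : ℝ))
      (t * 2) (fun p hp => h.deg (mem_II.1 hp))
    rwa [nsmul_eq_mul] at this
  have hup : ∑ p ∈ II X, ((X.filter fun x => G.Adj x p).card : ℝ) ≤ k + 1 := by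
    rw [hkdef]
    have := hdouble ▸ hsum
    exact_mod_cast this
  have hb := h.b hz.1 hw.1 hzw
  have ha := h.aa hz.1 hw.1 hzw
  have hmem : p0 ∈ NN G X z ∩ NN G X w :=
    Finset.mem_inter.2 ⟨mem_NN.2 ⟨hp0, hz.2⟩, mem_NN.2 ⟨hp0, hw.2⟩⟩
  have hi1 : (1 : ℝ) ≤ (NN G X z ∩ NN G X w).card := by
    have := Finset.card_pos.2 ⟨p0, hmem⟩
    exact_mod_cast this
  have hu1 : 1 ≤ (NN G X z ∪ NN G X w).card :=
    Finset.card_pos.2 ⟨p0, Finset.mem_union_left _ (Finset.mem_inter.1 hmem).1⟩
  have ha' : ((AA G z w).card : ℝ) + 1 ≤ q := by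
    rw [hqdef]
    have : (AA G z w).card + 1 ≤ (II X).card := by omega
    exact_mod_cast this
  have h1 : t * ((AA G z w).card + 2) ≤ t * (q + 1) :=
    mul_le_mul_of_nonneg_left (by linarith) h.ctx.tpos.le
  nlinarith

open Classical in
lemma Split.disj [Fintype V] {t : ℝ} {X : Finset V} (h : Split G t X) {x y : V} (hx : x ∈ X)
    (hy : y ∈ X) (hxy : x ≠ y) {p : V} (hp : p ∉ X) (hxp : G.Adj x p) (hyp : G.Adj y p) : False := by
  have ha := h.a hx hy hxy
  have hb := h.b hx hy hxy
  have hlt := h.lt_one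
  have hi1 : (1 : ℝ) ≤ (NN G X x ∩ NN G X y).card := by
    have := Finset.card_pos.2 ⟨p, Finset.mem_inter.2 ⟨mem_NN.2 ⟨hp, hxp⟩, mem_NN.2 ⟨hp, hyp⟩⟩⟩
    exact_mod_cast this
  linarith

lemma Split.single [Fintype V] {t : ℝ} {X : Finset V} (h : Split G t X) {x : V} (hx : x ∈ X) :
    t * ((NN G X x).card + 1) ≤ 1 := by
  classical
  rcases Nat.eq_zero_or_pos (NN G X x).card with h0 | h0
  · rw [h0]
    have := h.lt_one
    push_cast
    linarith
  · obtain ⟨y, hy, hxy⟩ := h.nbr x
    have hno : ∀ u v, u ∉ ({x} : Set V) → v ∉ ({x} : Set V) → G.Adj u v → u ∉ NN G X x := by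
      intro u v _ hv huv hu
      rw [mem_NN] at hu
      have hvX : v ∈ X := by
        by_contra hvX
        exact h.indep u v hu.1 hvX huv
      have hvx : v ≠ x := by simpa using hv
      exact h.disj hvX hx hvx hu.1 huv.symm hu.2
    have h1 := comps_ge (G := G) ({x} : Set V) (fun v => if v ∈ NN G X x then some v else none)
      (by
        intro u v hu hv huv
        have h1 := hno u v hu hv huv
        have h2 := hno v u hv hu huv.symm
        simp only [h1, h2, if_false]) (Finset.insertNone (NN G X x)) (by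
        intro a ha
        rw [Finset.mem_insertNone] at ha
        rcases a with _ | w
        · refine ⟨y, ?_, ?_⟩
          · simpa using hxy.ne'
          · have : y ∉ NN G X x := by
              rw [mem_NN]
              exact fun h' => h'.1 hy
            simp only [this, if_false]
        · have hw := ha w rfl
          refine ⟨w, ?_, by simp only [hw, if_true]⟩
          rw [mem_NN] at hw
          simpa using hw.2.ne')
    rw [Finset.card_insertNone] at h1
    have h2 := h.ctx.U' (S := ({x} : Set V)) (m := (NN G X x).card + 1) (by omega) h1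
    rw [Set.ncard_singleton] at h2
    push_cast at h2
    exact h2

open Classical in
lemma Split.card_three [Fintype V] {t : ℝ} {X : Finset V} (h : Split G t X) : X.card = 3 := by
  obtain ⟨x, hx, y, hy, hxy⟩ := h.two
  obtain ⟨p, hp, hxp, hyp⟩ := h.common x hx y hy hxy
  obtain ⟨z, hz, hpz⟩ := h.nbr p
  have hxz : x ≠ z := by
    rintro rfl
    exact hxp hpz.symm
  have hyz : y ≠ z := by
    rintro rfl
    exact hyp hpz.symm
  have h3 : 3 ≤ X.card := by
    have h1 : ({x, y, z} : Finset V) ⊆ X := by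
      intro v hv
      simp only [Finset.mem_insert, Finset.mem_singleton] at hv
      rcases hv with rfl | rfl | rfl <;> assumption
    have h2 := Finset.card_le_card h1
    rw [Finset.card_insert_of_notMem (by simp [hxy, hxz]), Finset.card_pair hyz] at h2
    exact h2
  by_contra hne
  have h4 : 4 ≤ X.card := by omega
  obtain ⟨w, hw, hmax⟩ := Finset.exists_max_image X (fun x => (NN G X x).card) ⟨x, hx⟩
  set L := (NN G X w).card with hL
  set S : Finset V := (X.erase x).erase y with hS
  have hcard : S.card + 2 = X.card := by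
    have h1 := Finset.card_erase_add_one hx
    have h2 : S.card + 1 = (X.erase x).card :=
      Finset.card_erase_add_one (Finset.mem_erase.2 ⟨hxy.symm, hy⟩)
    omega
  have hsub : AA G x y ⊆ S.biUnion (fun z => NN G X z) := by
    intro v hv
    have hvX := h.notX hx hy hxy hv
    rw [mem_AA] at hv
    obtain ⟨u, hu, hvu⟩ := h.nbr v
    rw [Finset.mem_biUnion]
    refine ⟨u, ?_, mem_NN.2 ⟨hvX, hvu.symm⟩⟩
    rw [hS, Finset.mem_erase, Finset.mem_erase]
    refine ⟨?_, ?_, hu⟩
    · rintro rfl
      exact hv.2 hvu.symm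
    · rintro rfl
      exact hv.1 hvu.symm
  have hAA : (AA G x y).card ≤ S.card * L := by
    refine (Finset.card_le_card hsub).trans (Finset.card_biUnion_le.trans ?_)
    have := Finset.sum_le_card_nsmul S (fun z => (NN G X z).card) L (fun z hz => by
      apply hmax
      rw [hS, Finset.mem_erase, Finset.mem_erase] at hz
      exact hz.2.2)
    simpa using this
  have hAA' : ((AA G x y).card : ℝ) ≤ S.card * L := by exact_mod_cast hAA
  have hb := h.b hx hy hxy
  have hs := h.single hw
  have h5 : (S.card : ℝ) + 2 = X.card := by exact_mod_cast hcard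
  have h6 : (0 : ℝ) ≤ (NN G X x ∩ NN G X y).card := Nat.cast_nonneg _
  have h7 : (2 : ℝ) ≤ S.card := by
    have : 2 ≤ S.card := by omega
    exact_mod_cast this
  have h8 : (S.card : ℝ) < t * ((AA G x y).card + 2) := by linarith
  have htp := h.ctx.tpos
  have h9 : (S.card : ℝ) < t * (S.card * L + 2) := by
    refine h8.trans_le (mul_le_mul_of_nonneg_left (by linarith) htp.le)
  rw [← hL] at hs
  have h10 : (0 : ℝ) ≤ L := Nat.cast_nonneg _
  -- `S.card (L + 1) < t (L + 1) (S.card L + 2) ≤ S.card L + 2`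
  have h11 : (S.card : ℝ) * (L + 1) < S.card * L + 2 := by
    have e1 : (S.card : ℝ) * (L + 1) < t * (S.card * L + 2) * (L + 1) :=
      mul_lt_mul_of_pos_right h9 (by linarith)
    have e2 : t * (S.card * L + 2) * (L + 1) = (t * (L + 1)) * (S.card * L + 2) := by ring
    have e3 : (t * (L + 1)) * (S.card * L + 2) ≤ 1 * (S.card * L + 2) :=
      mul_le_mul_of_nonneg_right hs (by positivity)
    linarith
  linarith

open Classical in
lemma Split.le_of_mem [Fintype V] {t : ℝ} {X : Finset V} (h : Split G t X) {z w : V} (hz : z ∈ X)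
    (hw : w ∈ X) : (NN G X w).card ≤ (NN G X z).card := by
  have h3 := h.card_three
  have h2 : (X.erase z).card = 2 := by
    have := Finset.card_erase_add_one hz
    omega
  obtain ⟨x, y, hxy, he⟩ := Finset.card_eq_two.1 h2
  have hx : x ∈ X.erase z := by
    rw [he]
    simp
  have hy : y ∈ X.erase z := by
    rw [he]
    simp
  rw [Finset.mem_erase] at hx hy
  have hb := h.b hx.2 hy.2 hxy
  have hs := h.single hw
  have hsub : AA G x y ⊆ NN G X z := by
    intro v hv
    have hvX := h.notX hx.2 hy.2 hxy hv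
    rw [mem_AA] at hv
    obtain ⟨u, hu, hvu⟩ := h.nbr v
    rw [mem_NN]
    refine ⟨hvX, ?_⟩
    have huz : u = z := by
      by_contra hne
      have : u ∈ X.erase z := Finset.mem_erase.2 ⟨hne, hu⟩
      rw [he] at this
      simp only [Finset.mem_insert, Finset.mem_singleton] at this
      rcases this with rfl | rfl
      · exact hv.1 hvu.symm
      · exact hv.2 hvu.symm
    rw [← huz]
    exact hvu.symm
  have hle : ((AA G x y).card : ℝ) ≤ (NN G X z).card := by
    exact_mod_cast Finset.card_le_card hsub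
  have h6 : (0 : ℝ) ≤ (NN G X x ∩ NN G X y).card := Nat.cast_nonneg _
  rw [h3] at hb
  push_cast at hb
  have htp := h.ctx.tpos
  have h7 : t * ((AA G x y).card + 2) ≤ t * ((NN G X z).card + 2) :=
    mul_le_mul_of_nonneg_left (by linarith) htp.le
  have h8 : t * ((NN G X w).card + 1) < t * ((NN G X z).card + 2) := by linarith
  have h9 := lt_of_mul_lt_mul_left h8 htp.le
  have h10 : ((NN G X w).card : ℝ) < (NN G X z).card + 1 := by linarith
  have h11 : (NN G X w).card < (NN G X z).card + 1 := by exact_mod_cast h10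
  omega

/-- the structure theorem -/
theorem Split.iso [Fintype V] {t : ℝ} {X : Finset V} (h : Split G t X) :
    ∃ ℓ, 1 ≤ ℓ ∧ Nonempty (G ≃g T ℓ) := by
  classical
  have h3 := h.card_three
  obtain ⟨x, hx, y, hy, hxy⟩ := h.two
  obtain ⟨p, hp, _, _⟩ := h.common x hx y hy hxy
  obtain ⟨z, hz, hpz⟩ := h.nbr p
  set ℓ := (NN G X z).card with hℓ
  have hall : ∀ w ∈ X, (NN G X w).card = ℓ := fun w hw =>
    le_antisymm (h.le_of_mem hz hw) (h.le_of_mem hw hz)
  refine ⟨ℓ, Finset.card_pos.2 ⟨p, mem_NN.2 ⟨hp, hpz.symm⟩⟩, ?_⟩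
  let eX := X.equivFinOfCardEq h3
  let c : Fin 3 → V := fun i => (eX.symm i : V)
  have hc : ∀ i, c i ∈ X := fun i => (eX.symm i).2
  have hcinj : ∀ i j, c i = c j → i = j := fun i j hij => eX.symm.injective (Subtype.ext hij)
  have hcsurj : ∀ w ∈ X, ∃ i, c i = w := fun w hw => ⟨eX ⟨w, hw⟩, by simp [c]⟩
  let eN : ∀ i, (NN G X (c i)) ≃ Fin ℓ := fun i =>
    (NN G X (c i)).equivFinOfCardEq (hall _ (hc i))
  let φ : Fin 3 × Option (Fin ℓ) → V := fun u =>
    match u with
    | (i, none) => c i
    | (i, some j) => ((eN i).symm j : V)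
  have hN : ∀ i j, ((eN i).symm j : V) ∉ X ∧ G.Adj (c i) ((eN i).symm j : V) := fun i j =>
    mem_NN.1 ((eN i).symm j).2
  have hinj : Function.Injective φ := by
    rintro ⟨i, _ | a⟩ ⟨j, _ | b⟩ hij
    · have := hcinj i j hij
      rw [this]
    · exact absurd ((show c i = ((eN j).symm b : V) from hij) ▸ hc i) (hN j b).1
    · exact absurd ((show c j = ((eN i).symm a : V) from hij.symm) ▸ hc j) (hN i a).1
    · have hij' : ((eN i).symm a : V) = ((eN j).symm b : V) := hij
      have hijc : i = j := by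
        by_contra hne
        refine h.disj (hc i) (hc j) (fun h' => hne (hcinj i j h')) (hN i a).1 (hN i a).2 ?_
        rw [hij']
        exact (hN j b).2
      subst hijc
      have := (eN i).symm.injective (Subtype.ext hij')
      rw [this]
  have hsurj : Function.Surjective φ := by
    intro v
    by_cases hv : v ∈ X
    · obtain ⟨i, hi⟩ := hcsurj v hv
      exact ⟨(i, none), hi⟩
    · obtain ⟨u, hu, hvu⟩ := h.nbr v
      obtain ⟨i, rfl⟩ := hcsurj u hu
      refine ⟨(i, some (eN i ⟨v, mem_NN.2 ⟨hv, hvu.symm⟩⟩)), ?_⟩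
      show (((eN i).symm (eN i ⟨v, mem_NN.2 ⟨hv, hvu.symm⟩⟩) : NN G X (c i)) : V) = v
      rw [Equiv.symm_apply_apply]
  have hadj : ∀ u v, G.Adj (φ u) (φ v) ↔ (T ℓ).Adj u v := by
    rintro ⟨i, _ | a⟩ ⟨j, _ | b⟩
    · show G.Adj (c i) (c j) ↔ _
      constructor
      · intro h1
        left
        refine ⟨rfl, rfl, ?_⟩
        rintro rfl
        exact G.loopless.irrefl _ h1
      · rintro (⟨_, _, h1⟩ | ⟨_, h1⟩)
        · exact h.clique _ (hc i) _ (hc j) (fun h' => h1 (hcinj i j h'))
        · simp at h1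
    · show G.Adj (c i) ((eN j).symm b : V) ↔ _
      constructor
      · intro h1
        right
        refine ⟨?_, Or.inl ⟨rfl, by simp⟩⟩
        by_contra hne
        exact h.disj (hc i) (hc j) (fun h' => hne (hcinj i j h')) (hN j b).1 h1 (hN j b).2
      · rintro (⟨_, h1, _⟩ | ⟨h1, _⟩)
        · simp at h1
        · have : i = j := h1
          subst this
          exact (hN i b).2
    · show G.Adj ((eN i).symm a : V) (c j) ↔ _
      constructor
      · intro h1
        right
        refine ⟨?_, Or.inr ⟨by simp, rfl⟩⟩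
        by_contra hne
        exact h.disj (hc i) (hc j) (fun h' => hne (hcinj i j h')) (hN i a).1 (hN i a).2 h1.symm
      · rintro (⟨h1, _, _⟩ | ⟨h1, _⟩)
        · simp at h1
        · have : i = j := h1
          subst this
          exact (hN i a).2.symm
    · show G.Adj ((eN i).symm a : V) ((eN j).symm b : V) ↔ _
      constructor
      · intro h1
        exact absurd h1 (h.indep _ _ (hN i a).1 (hN j b).1)
      · rintro (⟨h1, _, _⟩ | ⟨_, h1⟩)
        · simp at h1
        · simp at h1
  let e : (Fin 3 × Option (Fin ℓ)) ≃ V := Equiv.ofBijective φ ⟨hinj, hsurj⟩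
  exact ⟨(⟨e, by
    intro u v
    exact hadj u v⟩ : T ℓ ≃g G).symm⟩

/-- the hypotheses from co-diameter two -/
lemma AA_nonempty [Fintype V] (h : CoDiamTwo G) {x y : V} (hxy : G.Adj x y) :
    (AA G x y).Nonempty := by
  have h1 : Gᶜ.edist x y ≤ 2 := by
    have := SimpleGraph.edist_le_ediam (G := Gᶜ) (u := x) (v := y)
    rwa [h] at this
  have hne : Gᶜ.edist x y ≠ ⊤ := ne_top_of_le_ne_top (by decide) h1
  have hr : Gᶜ.Reachable x y := SimpleGraph.reachable_of_edist_ne_top hne
  obtain ⟨w, hw⟩ := hr.exists_walk_length_eq_edist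
  rw [← hw] at h1
  have hlen : w.length ≤ 2 := by exact_mod_cast h1
  match w, hlen with
  | .nil, _ => exact absurd rfl hxy.ne
  | .cons h1 .nil, _ =>
    rw [SimpleGraph.compl_adj] at h1
    exact absurd hxy h1.2
  | .cons (v := u) h1 (.cons h2 .nil), _ =>
    rw [SimpleGraph.compl_adj] at h1 h2
    exact ⟨u, mem_AA.2 ⟨h1.2, fun h' => h2.2 h'.symm⟩⟩
  | .cons h1 (.cons h2 (.cons h3 w')), hl =>
    simp only [SimpleGraph.Walk.length_cons] at hl
    omega

/-- **Main theorem, one direction.** -/
theorem iso_T_of_minimallyTough [Fintype V] (h1 : CoChordal G) (h2 : CoDiamTwo G)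
    (h3 : MinimallyTough G) (h4 : G ≠ ⊤) (h5 : G ≠ ⊥) : ∃ ℓ, 1 ≤ ℓ ∧ Nonempty (G ≃g T ℓ) := by
  obtain ⟨t, ht, _⟩ := exists_ctx h3 h4 h5
  have hyp : Hyp G t := ⟨ht, h1, fun x y hxy => AA_nonempty h2 hxy, by
    by_contra hcon
    push Not at hcon
    apply h5
    ext u v
    simp only [SimpleGraph.bot_adj, iff_false]
    exact hcon u v⟩
  obtain ⟨X, hX⟩ := hyp.split
  exact hX.iso

end ctx

end Pool.Agent.R36.Tough
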