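import Pool.Agent.R36.Tough

/-!
# The graphs `T_ℓ`

`T_ℓ` (`ℓ ≥ 1`) has toughness `1 / (ℓ + 1)`, is minimally tough and co-chordal and its complement
has diameter two.
-/

set_option autoImplicit false

namespace Pool.Agent.R36.Tough

open scoped ENNReal

section iso
variable {V V' : Type} {G : SimpleGraph V} {G' : SimpleGraph V'}

lemma comps_iso (e : G ≃g G') (S : Set V) : comps G S = comps G' (e '' S) := by
  unfold comps
  apply Nat.card_congr
  refine SimpleGraph.Iso.connectedComponentEquiv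
    ⟨e.toEquiv.subtypeEquiv (p := fun v => v ∈ Sᶜ) (q := fun v => v ∈ (e '' S)ᶜ) ?_, ?_⟩
  · intro v
    have h1 : e.toEquiv v ∈ e '' S ↔ v ∈ S := e.injective.mem_set_image
    simp only [Set.mem_compl_iff, h1]
  · intro a b
    exact e.map_rel_iff

lemma toughness_le_iso (e : G ≃g G') : toughness G' ≤ toughness G := by
  refine le_iInf₂ fun S hS => ?_
  have h1 := comps_iso e S
  have h2 : (e '' S).ncard = S.ncard := Set.ncard_image_of_injective S e.injective
  rw [h1, ← h2]
  rw [h1] at hS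
  exact iInf₂_le (e '' S) hS

lemma toughness_iso (e : G ≃g G') : toughness G = toughness G' :=
  le_antisymm (toughness_le_iso e.symm) (toughness_le_iso e)

/-- the isomorphism after the deletion of an edge -/
def delIso (e : G ≃g G') (x y : V) :
    G.deleteEdges {s(x, y)} ≃g G'.deleteEdges {s(e x, e y)} where
  toEquiv := e.toEquiv
  map_rel_iff' := by
    intro a b
    show (G'.deleteEdges {s(e x, e y)}).Adj (e a) (e b) ↔ _
    rw [SimpleGraph.deleteEdges_adj, SimpleGraph.deleteEdges_adj]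
    have h1 : G'.Adj (e a) (e b) ↔ G.Adj a b := e.map_rel_iff
    rw [h1]
    simp only [Set.mem_singleton_iff, Sym2.eq_iff, e.injective.eq_iff]

lemma MinimallyTough.of_iso (e : G ≃g G') (h : MinimallyTough G') : MinimallyTough G := by
  intro d hd
  induction d using Sym2.ind with
  | _ x y =>
    have hxy : G.Adj x y := hd
    have h1 := h s(e x, e y) (e.map_rel_iff.2 hxy)
    rw [toughness_iso (delIso e x y), toughness_iso e]
    exact h1

end iso

variable {ℓ : ℕ}

lemma T_adj {u v : Fin 3 × Option (Fin ℓ)} : (T ℓ).Adj u v ↔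
    (u.2 = none ∧ v.2 = none ∧ u.1 ≠ v.1) ∨
      (u.1 = v.1 ∧ ((u.2 = none ∧ v.2 ≠ none) ∨ (u.2 ≠ none ∧ v.2 = none))) := Iff.rfl

lemma T_cc {i j : Fin 3} (h : i ≠ j) : (T ℓ).Adj (i, none) (j, none) := Or.inl ⟨rfl, rfl, h⟩

lemma T_cl (i : Fin 3) (a : Fin ℓ) : (T ℓ).Adj (i, none) (i, some a) :=
  Or.inr ⟨rfl, Or.inl ⟨rfl, by simp⟩⟩

lemma comps_T_le (S : Set (Fin 3 × Option (Fin ℓ))) (hS : 2 ≤ comps (T ℓ) S) :
    comps (T ℓ) S ≤ (ℓ + 1) * S.ncard := by
  classical
  set C : Finset (Fin 3) := Finset.univ.filter fun i => ((i, none) : Fin 3 × Option (Fin ℓ)) ∈ S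
    with hC
  set P0 : Finset (Fin 3 × Option (Fin ℓ)) := Finset.univ.filter fun v =>
    v ∉ S ∧ v.2 ≠ none ∧ (v.1, none) ∈ S with hP0
  have hCS : C.card ≤ S.ncard := by
    rw [Set.ncard_eq_toFinset_card', ← Finset.card_image_of_injective C
      (f := fun i => ((i, none) : Fin 3 × Option (Fin ℓ))) (fun i j hij => by simpa using hij)]
    apply Finset.card_le_card
    intro v hv
    rw [Finset.mem_image] at hv
    obtain ⟨i, hi, rfl⟩ := hv
    rw [Set.mem_toFinset]
    exact (Finset.mem_filter.1 hi).2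
  have hP0c : P0.card ≤ C.card * ℓ := by
    have : P0 ⊆ (C ×ˢ (Finset.univ : Finset (Fin ℓ))).image fun q => (q.1, some q.2) := by
      rintro ⟨i, _ | a⟩ hv
      · exact absurd rfl (Finset.mem_filter.1 hv).2.2.1
      · rw [Finset.mem_image]
        refine ⟨(i, a), ?_, rfl⟩
        rw [Finset.mem_product]
        exact ⟨Finset.mem_filter.2 ⟨Finset.mem_univ _, (Finset.mem_filter.1 hv).2.2.2⟩,
          Finset.mem_univ _⟩
    refine (Finset.card_le_card this).trans (Finset.card_image_le.trans ?_)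
    rw [Finset.card_product, Finset.card_univ, Fintype.card_fin]
  by_cases h1 : ∃ i : Fin 3, ((i, none) : Fin 3 × Option (Fin ℓ)) ∉ S
  · obtain ⟨i0, hi0⟩ := h1
    have hcen : ∀ i : Fin 3, ∀ hi : ((i, none) : Fin 3 × Option (Fin ℓ)) ∉ S,
        ((T ℓ).induce Sᶜ).Reachable ⟨(i, none), hi⟩ ⟨(i0, none), hi0⟩ := by
      intro i hi
      by_cases h2 : i = i0
      · subst h2
        exact SimpleGraph.Reachable.refl _
      · apply SimpleGraph.Adj.reachable
        exact T_cc h2
    have hle := comps_le (G := T ℓ) S (insert (i0, none) P0) (by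
      rintro ⟨i, _ | a⟩ hv
      · exact ⟨(i0, none), Finset.mem_insert_self _ _, hi0, hcen i hv⟩
      · by_cases h2 : ((i, none) : Fin 3 × Option (Fin ℓ)) ∈ S
        · exact ⟨(i, some a), Finset.mem_insert_of_mem (Finset.mem_filter.2
            ⟨Finset.mem_univ _, hv, by simp, h2⟩), hv, SimpleGraph.Reachable.refl _⟩
        · refine ⟨(i0, none), Finset.mem_insert_self _ _, hi0, ?_⟩
          refine SimpleGraph.Reachable.trans ?_ (hcen i h2)
          apply SimpleGraph.Adj.reachable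
          exact (T_cl i a).symm)
    have h3 := Finset.card_insert_le ((i0, none) : Fin 3 × Option (Fin ℓ)) P0
    rcases Nat.eq_zero_or_pos C.card with h0 | h0
    · rw [h0] at hP0c
      omega
    · have h4 : 1 ≤ C.card := h0
      nlinarith
  · push Not at h1
    have hle := comps_le (G := T ℓ) S P0 (by
      rintro ⟨i, _ | a⟩ hv
      · exact absurd (h1 i) hv
      · exact ⟨(i, some a), Finset.mem_filter.2
            ⟨Finset.mem_univ _, hv, by simp, h1 i⟩, hv, SimpleGraph.Reachable.refl _⟩)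
    nlinarith

lemma toughness_T_ge : ((ℓ : ℝ≥0∞) + 1)⁻¹ ≤ toughness (T ℓ) := by
  refine le_iInf₂ fun S hS => ?_
  have h0 : (comps (T ℓ) S : ℝ≥0∞) ≠ 0 := by
    simp only [ne_eq, Nat.cast_eq_zero]
    omega
  rw [ENNReal.le_div_iff_mul_le (Or.inl h0) (Or.inl (ENNReal.natCast_ne_top _))]
  have h1 : (comps (T ℓ) S : ℝ≥0∞) ≤ ((ℓ : ℝ≥0∞) + 1) * S.ncard := by
    exact_mod_cast comps_T_le S hS
  calc ((ℓ : ℝ≥0∞) + 1)⁻¹ * comps (T ℓ) S ≤ ((ℓ : ℝ≥0∞) + 1)⁻¹ * (((ℓ : ℝ≥0∞) + 1) * S.ncard) :=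
        mul_le_mul_right h1 _
    _ = S.ncard := by
        rw [← mul_assoc, ENNReal.inv_mul_cancel (by simp) (by
          exact_mod_cast ENNReal.natCast_ne_top (ℓ + 1)), one_mul]

lemma toughness_T_le (hℓ : 1 ≤ ℓ) : toughness (T ℓ) ≤ ((ℓ : ℝ≥0∞) + 1)⁻¹ := by
  classical
  set S : Set (Fin 3 × Option (Fin ℓ)) := {(0, none)} with hS
  have h1 := comps_ge (G := T ℓ) S (fun v => if v.1 = 0 then v.2 else none) (by
    rintro ⟨i, a⟩ ⟨j, b⟩ hu hv huv
    simp only [hS, Set.mem_singleton_iff] at hu hv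
    rcases huv with ⟨h1, h2, h3⟩ | ⟨h1, h2⟩
    · simp only at h1 h2
      simp [h1, h2]
    · simp only at h1 h2
      subst h1
      by_cases h3 : i = 0
      · subst h3
        exfalso
        rcases h2 with ⟨h2, _⟩ | ⟨_, h2⟩
        · exact hu (by rw [h2])
        · exact hv (by rw [h2])
      · simp [h3]) Finset.univ (by
    intro a _
    rcases a with _ | a
    · exact ⟨(1, none), by simp [hS], by simp⟩
    · exact ⟨(0, some a), by simp [hS], by simp⟩)
  rw [Finset.card_univ, Fintype.card_option, Fintype.card_fin] at h1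
  have h2 : 2 ≤ comps (T ℓ) S := by omega
  refine (iInf₂_le S h2).trans ?_
  have h3 : S.ncard = 1 := Set.ncard_singleton _
  rw [h3, Nat.cast_one, one_div]
  apply ENNReal.inv_le_inv.2
  exact_mod_cast h1

lemma toughness_T (hℓ : 1 ≤ ℓ) : toughness (T ℓ) = ((ℓ : ℝ≥0∞) + 1)⁻¹ :=
  le_antisymm (toughness_T_le hℓ) toughness_T_ge

lemma T_leaf_edge (i : Fin 3) (a : Fin ℓ) :
    toughness ((T ℓ).deleteEdges {s((i, none), (i, some a))}) < ((ℓ : ℝ≥0∞) + 1)⁻¹ := by
  classical
  set G' := (T ℓ).deleteEdges {s((i, none), (i, some a))} with hG'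
  have h1 := comps_ge (G := G') (∅ : Set (Fin 3 × Option (Fin ℓ)))
    (fun v => decide (v = (i, some a))) (by
    intro u v _ _ huv
    rw [hG', SimpleGraph.deleteEdges_adj] at huv
    obtain ⟨h1, h2⟩ := huv
    have key : ∀ v, (T ℓ).Adj (i, some a) v → v = (i, none) := by
      rintro ⟨j, b⟩ h
      rcases h with ⟨h, _⟩ | ⟨h3, ⟨h, _⟩ | ⟨_, h⟩⟩
      · simp at h
      · simp at h
      · simp only at h3 h
        rw [h3, h]
    by_cases hu : u = (i, some a)
    · exfalso
      subst hu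
      have := key v h1
      subst this
      exact h2 (by rw [Sym2.eq_swap]; rfl)
    · by_cases hv : v = (i, some a)
      · exfalso
        subst hv
        have := key u h1.symm
        subst this
        exact h2 rfl
      · simp [hu, hv]) Finset.univ (by
    intro c _
    cases c
    · exact ⟨(i, none), by simp, by simp⟩
    · exact ⟨(i, some a), by simp, by simp⟩)
  have h2 : 2 ≤ comps G' ∅ := by simpa using h1
  refine lt_of_le_of_lt (iInf₂_le (∅ : Set (Fin 3 × Option (Fin ℓ))) h2) ?_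
  rw [Set.ncard_empty]
  simp only [Nat.cast_zero, ENNReal.zero_div]
  rw [ENNReal.inv_pos]
  exact_mod_cast ENNReal.natCast_ne_top (ℓ + 1)

lemma T_centre_edge {i j : Fin 3} (hij : i ≠ j) :
    toughness ((T ℓ).deleteEdges {s((i, none), (j, none))}) < ((ℓ : ℝ≥0∞) + 1)⁻¹ := by
  classical
  obtain ⟨k, hki, hkj⟩ : ∃ k : Fin 3, k ≠ i ∧ k ≠ j := by
    revert i j
    decide
  have hall : ∀ m : Fin 3, m ≠ k → m = i ∨ m = j := by
    revert i j k
    decide
  set G' := (T ℓ).deleteEdges {s((i, none), (j, none))} with hG'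
  set S : Set (Fin 3 × Option (Fin ℓ)) := {(k, none)} with hS
  let f : Fin 3 × Option (Fin ℓ) → Fin ℓ ⊕ Bool := fun v =>
    match v.2 with
    | none => Sum.inr (decide (v.1 = i))
    | some a => if v.1 = k then Sum.inl a else Sum.inr (decide (v.1 = i))
  have h1 := comps_ge (G := G') S f (by
    rintro ⟨m, a⟩ ⟨m', b⟩ hu hv huv
    rw [hG', SimpleGraph.deleteEdges_adj] at huv
    obtain ⟨h1, h2⟩ := huv
    simp only [hS, Set.mem_singleton_iff] at hu hv
    rcases h1 with ⟨h1, h3, h4⟩ | ⟨h1, h3⟩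
    · simp only at h1 h3 h4
      subst h1
      subst h3
      exfalso
      have hmk : m ≠ k := fun h => hu (by rw [h])
      have hmk' : m' ≠ k := fun h => hv (by rw [h])
      rcases hall m hmk with rfl | rfl
      · rcases hall m' hmk' with rfl | rfl
        · exact h4 rfl
        · exact h2 rfl
      · rcases hall m' hmk' with rfl | rfl
        · exact h2 (by rw [Sym2.eq_swap]; rfl)
        · exact h4 rfl
    · simp only at h1 h3
      subst h1
      rcases h3 with ⟨h3, h4⟩ | ⟨h4, h3⟩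
      · subst h3
        have hmk : m ≠ k := fun h => hu (by rw [h])
        rcases b with _ | b
        · exact absurd rfl h4
        · simp [f, hmk]
      · subst h3
        have hmk : m ≠ k := fun h => hv (by rw [h])
        rcases a with _ | a
        · exact absurd rfl h4
        · simp [f, hmk]) Finset.univ (by
    intro c _
    rcases c with a | c
    · exact ⟨(k, some a), by simp [hS], by simp [f]⟩
    · cases c
      · exact ⟨(j, none), by simp [hS, hkj.symm], by simp [f, hij.symm]⟩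
      · exact ⟨(i, none), by simp [hS, hki.symm], by simp [f]⟩)
  rw [Finset.card_univ, Fintype.card_sum, Fintype.card_fin, Fintype.card_bool] at h1
  have h2 : 2 ≤ comps G' S := by omega
  refine lt_of_le_of_lt (iInf₂_le S h2) ?_
  have h3 : S.ncard = 1 := Set.ncard_singleton _
  rw [h3, Nat.cast_one, one_div]
  apply ENNReal.inv_lt_inv.2
  have : ℓ + 1 < comps G' S := by omega
  exact_mod_cast this

lemma T_minimallyTough : MinimallyTough (T ℓ) := by
  intro d hd
  refine lt_of_lt_of_le ?_ toughness_T_ge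
  induction d using Sym2.ind with
  | _ u v =>
    have huv : (T ℓ).Adj u v := hd
    obtain ⟨i, a⟩ := u
    obtain ⟨j, b⟩ := v
    rcases huv with ⟨h1, h2, h3⟩ | ⟨h1, h2⟩
    · simp only at h1 h2 h3
      subst h1
      subst h2
      exact T_centre_edge h3
    · simp only at h1 h2
      subst h1
      rcases h2 with ⟨h2, h3⟩ | ⟨h3, h2⟩
      · subst h2
        rcases b with _ | b
        · exact absurd rfl h3
        · exact T_leaf_edge i b
      · subst h2
        rcases a with _ | a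
        · exact absurd rfl h3
        · rw [Sym2.eq_swap]
          exact T_leaf_edge i a

lemma T_ne_bot : T ℓ ≠ ⊥ := by
  intro h
  have : (T ℓ).Adj (0, none) (1, none) := T_cc (by decide)
  rw [h] at this
  exact this

lemma T_ne_top (hℓ : 1 ≤ ℓ) : T ℓ ≠ ⊤ := by
  intro h
  have h1 : (⊤ : SimpleGraph (Fin 3 × Option (Fin ℓ))).Adj (0, none) (1, some ⟨0, hℓ⟩) := by simp
  rw [← h] at h1
  rcases h1 with ⟨_, h1, _⟩ | ⟨h1, _⟩
  · simp at h1
  · simp at h1

lemma T_coChordal : CoChordal (T ℓ) := by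
  rintro n hn ⟨f⟩
  obtain ⟨k, rfl⟩ : ∃ k, n = k + 2 := ⟨n - 2, by omega⟩
  have adj : ∀ i j, (T ℓ)ᶜ.Adj (f i) (f j) ↔ (SimpleGraph.cycleGraph (k + 2)).Adj i j :=
    fun i j => f.map_rel_iff
  have e1 : ∀ i j, (SimpleGraph.cycleGraph (k + 2)).Adj i j → (f i).2 ≠ none ∨ (f j).2 ≠ none := by
    intro i j hij
    by_contra hcon
    push Not at hcon
    have h1 := (adj i j).2 hij
    rw [SimpleGraph.compl_adj] at h1
    apply h1.2
    refine Or.inl ⟨hcon.1, hcon.2, ?_⟩
    intro h2
    exact h1.1 (Prod.ext h2 (hcon.1.trans hcon.2.symm))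
  have e2 : ∀ i j, i ≠ j → (f i).2 ≠ none → (f j).2 ≠ none →
      (SimpleGraph.cycleGraph (k + 2)).Adj i j := by
    intro i j hij hi hj
    rw [← adj, SimpleGraph.compl_adj]
    refine ⟨fun h => hij (f.injective h), ?_⟩
    rintro (⟨h1, _, _⟩ | ⟨_, ⟨h1, _⟩ | ⟨_, h1⟩⟩)
    · exact hi h1
    · exact hi h1
    · exact hj h1
  let x : ∀ i : ℕ, i < k + 2 → Fin (k + 2) := fun i hi => ⟨i, hi⟩
  have L : ∀ i j (hi : i < k + 2) (hj : j < k + 2), i + 1 = j →
      (f (x i hi)).2 ≠ none ∨ (f (x j hj)).2 ≠ none := by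
    intro i j hi hj hij
    apply e1
    rw [Pool.Agent.H255R3.STC.cycle_adj]
    exact Or.inl hij
  have N : ∀ i j (hi : i < k + 2) (hj : j < k + 2), i < j → (f (x i hi)).2 ≠ none →
      (f (x j hj)).2 ≠ none → j = i + 1 ∨ (i = 0 ∧ j = k + 1) := by
    intro i j hi hj hij h1 h2
    have h3 := e2 (x i hi) (x j hj) (by
      intro h
      have : i = j := congrArg Fin.val h
      omega) h1 h2
    rw [Pool.Agent.H255R3.STC.cycle_adj] at h3
    simp only [x] at h3
    omega
  have h0 : 0 < k + 2 := by omega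
  have h1 : 1 < k + 2 := by omega
  have h2 : 2 < k + 2 := by omega
  have h3 : 3 < k + 2 := by omega
  have Llast : (f (x 0 h0)).2 ≠ none ∨ (f (x (k + 1) (by omega))).2 ≠ none := by
    apply e1
    rw [Pool.Agent.H255R3.STC.cycle_adj]
    simp [x]
  rcases L 0 1 h0 h1 rfl with a | a
  · rcases L 1 2 h1 h2 rfl with b | b
    · rcases L 2 3 h2 h3 rfl with c | c
      · have := N 0 2 h0 h2 (by omega) a c
        omega
      · have := N 1 3 h1 h3 (by omega) b c
        omega
    · have := N 0 2 h0 h2 (by omega) a b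
      omega
  · rcases L 2 3 h2 h3 rfl with b | b
    · -- 1 and 2
      rcases Llast with c | c
      · have := N 0 2 h0 h2 (by omega) c b
        omega
      · have := N 1 (k + 1) h1 (by omega) (by omega) a c
        omega
    · have := N 1 3 h1 h3 (by omega) a b
      omega

lemma T_coDiamTwo (hℓ : 1 ≤ ℓ) : CoDiamTwo (T ℓ) := by
  unfold CoDiamTwo
  apply le_antisymm
  · apply SimpleGraph.ediam_le_of_edist_le
    intro u v
    have two : ∀ w, (T ℓ)ᶜ.Adj u w → (T ℓ)ᶜ.Adj w v → (T ℓ)ᶜ.edist u v ≤ 2 := by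
      intro w h1 h2
      have := SimpleGraph.edist_le (SimpleGraph.Walk.cons h1 (SimpleGraph.Walk.cons h2 .nil))
      simpa using this
    by_cases huv : u = v
    · subst huv
      simp
    by_cases hadj : (T ℓ)ᶜ.Adj u v
    · have := SimpleGraph.edist_le (SimpleGraph.Walk.cons hadj .nil)
      refine this.trans ?_
      simp
    rw [SimpleGraph.compl_adj] at hadj
    have hT : (T ℓ).Adj u v := by
      by_contra hc
      exact hadj ⟨huv, hc⟩
    have leaf : ∀ (k : Fin 3) (u : Fin 3 × Option (Fin ℓ)), u.1 ≠ k →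
        (T ℓ)ᶜ.Adj u (k, some ⟨0, hℓ⟩) := by
      intro k u hu
      rw [SimpleGraph.compl_adj]
      refine ⟨fun h => hu (by rw [h]), ?_⟩
      rintro (⟨_, h1, _⟩ | ⟨h1, _⟩)
      · simp at h1
      · exact hu h1
    obtain ⟨k, hk1, hk2⟩ : ∃ k : Fin 3, u.1 ≠ k ∧ v.1 ≠ k := by
      have : ∀ i j : Fin 3, ∃ k : Fin 3, i ≠ k ∧ j ≠ k := by decide
      exact this _ _
    exact two _ (leaf k u hk1) (leaf k v hk2).symm
  · by_contra hlt
    push Not at hlt
    have h1 : (T ℓ)ᶜ.edist (0, none) (1, none) < 2 :=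
      lt_of_le_of_lt SimpleGraph.edist_le_ediam hlt
    have h2 : (T ℓ)ᶜ.edist (0, none) (1, none) ≤ 1 := by
      have : (2 : ℕ∞) = 1 + 1 := by norm_num
      rw [this] at h1
      exact Order.lt_add_one_iff_of_not_isMax (by simp) |>.1 h1
    rw [SimpleGraph.edist_le_one_iff_adj_or_eq] at h2
    rcases h2 with h2 | h2
    · rw [SimpleGraph.compl_adj] at h2
      exact h2.2 (T_cc (by decide))
    · simp at h2

end Pool.Agent.R36.Tough
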